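import Pool.Agent.Lib.SW.TS.TS1
import Pool.Agent.Lib.SW.TypeSums

/-!
# TS-4: exponential sums over rough numbers, minor arcs

PROOF.  `rz n = ∑_{d | n, d | P} μ(d)` (`P = primorial z`), so `∑_{n ≤ Y} rz n e(nα) = ∑_{d | P} μ(d) ∑_{k ≤ Y/d} e(dkα)`.  `d ≤ X^(1/4)`: `type_I`
(coefficients `μ(d) 1_{d | P}`, `M = ⌊X^(1/4)⌋`, `A = 1`; if `Y < M` use `M = Y`: `d > Y` gives an empty inner sum); `d > X^(1/4)`: trivially
`∑ Y/d ≤ X ∑_{d > X^(1/4)} 1/d` and `rankin_tail`.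
-/

set_option autoImplicit false

open Finset Pool.Agent.Lib.GT

namespace Pool.Agent.Lib.SW

theorem TS4_coprime (P n : ℕ) (hP : P ≠ 0) :
    (((if Nat.Coprime n P then (1 : ℝ) else 0) : ℝ) : ℂ) =
      ∑ d ∈ P.divisors, if d ∣ n then ((ArithmeticFunction.moebius d : ℤ) : ℂ) else 0 := by
  have h1 : (n.gcd P).divisors = P.divisors.filter (fun d => d ∣ n) := by
    ext d
    rw [Nat.mem_divisors, mem_filter, Nat.mem_divisors, Nat.dvd_gcd_iff]
    constructor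
    · rintro ⟨⟨h2, h3⟩, -⟩
      exact ⟨⟨h3, hP⟩, h2⟩
    · rintro ⟨⟨h2, -⟩, h3⟩
      exact ⟨⟨h3, h2⟩, Nat.gcd_ne_zero_right hP⟩
  have h2 : ∑ d ∈ (n.gcd P).divisors, (ArithmeticFunction.moebius d : ℤ) =
      if n.gcd P = 1 then 1 else 0 := by
    have h := ArithmeticFunction.coe_mul_zeta_apply (f := ArithmeticFunction.moebius)
      (x := n.gcd P)
    rw [ArithmeticFunction.moebius_mul_coe_zeta] at h
    rw [← h, ArithmeticFunction.one_apply]
  rw [← sum_filter, ← h1, ← Int.cast_sum, h2]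
  unfold Nat.Coprime
  split_ifs <;> simp

theorem TS4_reindex (Y d : ℕ) (hd : 1 ≤ d) (g : ℕ → ℂ) :
    ∑ n ∈ (Icc 1 Y).filter (fun n => d ∣ n), g n = ∑ k ∈ Icc 1 (Y / d), g (d * k) := by
  symm
  refine sum_nbij' (fun k => d * k) (fun n => n / d) ?_ ?_ ?_ ?_ ?_
  · intro k hk
    rw [mem_Icc] at hk
    rw [mem_filter, mem_Icc]
    refine ⟨⟨Nat.mul_pos hd hk.1, ?_⟩, dvd_mul_right d k⟩
    rw [mul_comm]
    exact (Nat.le_div_iff_mul_le hd).1 hk.2
  · intro n hn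
    rw [mem_filter, mem_Icc] at hn
    rw [mem_Icc]
    exact ⟨Nat.div_pos (Nat.le_of_dvd hn.1.1 hn.2) hd, Nat.div_le_div_right hn.1.2⟩
  · intro k _
    exact Nat.mul_div_cancel_left k hd
  · intro n hn
    rw [mem_filter] at hn
    exact Nat.mul_div_cancel' hn.2
  · intro k _
    rfl

theorem TS4_sum (P Y : ℕ) (hP : P ≠ 0) (α : ℝ) :
    ∑ n ∈ Icc 1 Y, (((if Nat.Coprime n P then (1 : ℝ) else 0) : ℝ) : ℂ) * e (n * α) =
      ∑ d ∈ P.divisors, ((ArithmeticFunction.moebius d : ℤ) : ℂ) *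
        ∑ k ∈ Icc 1 (Y / d), e ((d * k : ℕ) * α) := by
  have h1 : ∀ n : ℕ, (((if Nat.Coprime n P then (1 : ℝ) else 0) : ℝ) : ℂ) * e (n * α) =
      ∑ d ∈ P.divisors, if d ∣ n then ((ArithmeticFunction.moebius d : ℤ) : ℂ) * e (n * α)
        else 0 := by
    intro n
    rw [TS4_coprime P n hP, sum_mul]
    refine sum_congr rfl fun d _ => ?_
    rw [ite_mul, zero_mul]
  rw [sum_congr rfl fun n _ => h1 n, sum_comm]
  refine sum_congr rfl fun d hd => ?_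
  have hd1 : 1 ≤ d := Nat.pos_of_mem_divisors hd
  rw [← sum_filter, TS4_reindex Y d hd1
    (fun n => ((ArithmeticFunction.moebius d : ℤ) : ℂ) * e (n * α)), mul_sum]

theorem rz_minor (B M : ℕ) : ∃ C : ℝ, 0 < C ∧ ∀ X : ℕ, 3 ≤ X → ∀ Y : ℕ, Y ≤ X →
    ∀ (q : ℕ) (a : ℤ) (α : ℝ), 1 ≤ q → IsCoprime a (q : ℤ) → |α - a / q| ≤ 1 / (q : ℝ) ^ 2 →
      ‖∑ n ∈ Icc 1 Y, ((rz (zB B X) n : ℝ) : ℂ) * e (n * α)‖ ≤
        C * (((X : ℝ) / q + (X : ℝ) ^ (1 / 4 : ℝ) + q) * Real.log (2 * q * X) + X / (Real.log X) ^ M) := by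
  obtain ⟨C₁, hC₁, hI⟩ := type_I
  obtain ⟨C₂, hC₂, hR⟩ := rankin_tail B M
  refine ⟨C₁ + C₂, by positivity, ?_⟩
  intro X hX Y hYX q a α hq hcop hα
  have hX0 : (0 : ℝ) < X := by
    have : 0 < X := by omega
    exact_mod_cast this
  have hX1 : (1 : ℝ) ≤ X := by
    have : 1 ≤ X := by omega
    exact_mod_cast this
  have hX3 : (3 : ℝ) ≤ X := by exact_mod_cast hX
  have hq1 : (1 : ℝ) ≤ q := by exact_mod_cast hq
  have hlogX : 0 ≤ Real.log X := Real.log_nonneg hX1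
  have hlogq : 0 ≤ Real.log (2 * q * X) := by
    apply Real.log_nonneg
    nlinarith
  have hD0 : 0 ≤ (X : ℝ) ^ (1 / 4 : ℝ) := Real.rpow_nonneg hX0.le _
  have hT0 : 0 ≤ (X : ℝ) / (Real.log X) ^ M := div_nonneg hX0.le (pow_nonneg hlogX M)
  have hmain0 : 0 ≤ ((X : ℝ) / q + (X : ℝ) ^ (1 / 4 : ℝ) + q) * Real.log (2 * q * X) := by
    positivity
  rcases Nat.eq_zero_or_pos Y with hY | hY
  · subst hY
    rw [Icc_eq_empty_of_lt (by norm_num), sum_empty, norm_zero]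
    positivity
  have hY0 : (0 : ℝ) < Y := by exact_mod_cast hY
  have hYXr : (Y : ℝ) ≤ X := by exact_mod_cast hYX
  set P := primorial (zB B X) with hPdef
  have hP : P ≠ 0 := primorial_ne_zero _
  have hLHS : ∑ n ∈ Icc 1 Y, ((rz (zB B X) n : ℝ) : ℂ) * e (n * α) =
      ∑ d ∈ P.divisors, ((ArithmeticFunction.moebius d : ℤ) : ℂ) *
        ∑ k ∈ Icc 1 (Y / d), e ((d * k : ℕ) * α) := TS4_sum P Y hP α
  rw [hLHS, ← sum_filter_add_sum_filter_not P.divisors (fun d : ℕ => (X : ℝ) ^ (1 / 4 : ℝ) < d)]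
  -- the large divisors
  have hmu : ∀ d : ℕ, ‖((ArithmeticFunction.moebius d : ℤ) : ℂ)‖ ≤ 1 := by
    intro d
    rw [Complex.norm_intCast]
    exact_mod_cast ArithmeticFunction.abs_moebius_le_one
  have hlarge : ‖∑ d ∈ P.divisors.filter (fun d : ℕ => (X : ℝ) ^ (1 / 4 : ℝ) < d),
      ((ArithmeticFunction.moebius d : ℤ) : ℂ) * ∑ k ∈ Icc 1 (Y / d), e ((d * k : ℕ) * α)‖ ≤
      X * (C₂ / (Real.log X) ^ M) := by
    refine le_trans (norm_sum_le _ _) ?_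
    refine le_trans ?_ (mul_le_mul_of_nonneg_left (hR X hX) hX0.le)
    rw [mul_sum]
    refine sum_le_sum fun d hd => ?_
    have h1 : ‖∑ k ∈ Icc 1 (Y / d), e ((d * k : ℕ) * α)‖ ≤ (X : ℝ) * (1 / d) := by
      refine le_trans (norm_sum_le _ _) ?_
      simp only [norm_e, sum_const, Nat.card_Icc, Nat.add_sub_cancel, nsmul_eq_mul, mul_one]
      refine le_trans Nat.cast_div_le ?_
      rw [mul_one_div]
      exact div_le_div_of_nonneg_right hYXr (Nat.cast_nonneg d)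
    rw [norm_mul]
    calc ‖((ArithmeticFunction.moebius d : ℤ) : ℂ)‖ * ‖∑ k ∈ Icc 1 (Y / d), e ((d * k : ℕ) * α)‖
        ≤ 1 * ((X : ℝ) * (1 / d)) :=
          mul_le_mul (hmu d) h1 (norm_nonneg _) zero_le_one
      _ = (X : ℝ) * (1 / d) := one_mul _
  -- the small divisors
  have hsmall : ‖∑ d ∈ P.divisors.filter (fun d : ℕ => ¬ (X : ℝ) ^ (1 / 4 : ℝ) < d),
      ((ArithmeticFunction.moebius d : ℤ) : ℂ) * ∑ k ∈ Icc 1 (Y / d), e ((d * k : ℕ) * α)‖ ≤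
      C₁ * (((X : ℝ) / q + (X : ℝ) ^ (1 / 4 : ℝ) + q) * Real.log (2 * q * X)) := by
    set M' : ℕ := min ⌊(X : ℝ) ^ (1 / 4 : ℝ)⌋₊ Y with hM'
    let c : ℕ → ℂ := fun m => if m ∣ P then ((ArithmeticFunction.moebius m : ℤ) : ℂ) else 0
    have h1 : ∑ d ∈ P.divisors.filter (fun d : ℕ => ¬ (X : ℝ) ^ (1 / 4 : ℝ) < d),
        ((ArithmeticFunction.moebius d : ℤ) : ℂ) * ∑ k ∈ Icc 1 (Y / d), e ((d * k : ℕ) * α) =
        ∑ m ∈ Icc 1 M', c m * ∑ k ∈ Icc 1 (Y / m), e ((m * k : ℕ) * α) := by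
      have h2 : ∑ m ∈ Icc 1 M', c m * ∑ k ∈ Icc 1 (Y / m), e ((m * k : ℕ) * α) =
          ∑ m ∈ (Icc 1 M').filter (fun m => m ∣ P), ((ArithmeticFunction.moebius m : ℤ) : ℂ) *
            ∑ k ∈ Icc 1 (Y / m), e ((m * k : ℕ) * α) := by
        rw [sum_filter]
        refine sum_congr rfl fun m _ => ?_
        show (if m ∣ P then ((ArithmeticFunction.moebius m : ℤ) : ℂ) else 0) * _ = _
        rw [ite_mul, zero_mul]
      rw [h2]
      symm
      refine sum_subset ?_ ?_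
      · intro m hm
        rw [mem_filter, mem_Icc] at hm
        rw [mem_filter, Nat.mem_divisors]
        refine ⟨⟨hm.2, hP⟩, ?_⟩
        rw [not_lt]
        refine le_trans ?_ (Nat.floor_le hD0)
        exact_mod_cast le_trans hm.1.2 (min_le_left _ _)
      · intro d hd hd'
        rw [mem_filter, Nat.mem_divisors, not_lt] at hd
        have hd1 : 1 ≤ d := Nat.pos_of_dvd_of_pos hd.1.1 (Nat.pos_of_ne_zero hP)
        have h3 : Y < d := by
          by_contra hcon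
          apply hd'
          rw [mem_filter, mem_Icc]
          exact ⟨⟨hd1, le_min (Nat.le_floor hd.2) (not_lt.1 hcon)⟩, hd.1.1⟩
        rw [Nat.div_eq_of_lt h3, Icc_eq_empty_of_lt (by norm_num), sum_empty, mul_zero]
    rw [h1]
    have h4 := hI α 1 a q M' Y c hq hcop hα (min_le_right _ _) hY (by
      intro m _
      show ‖(if m ∣ P then ((ArithmeticFunction.moebius m : ℤ) : ℂ) else 0)‖ ≤ 1
      split_ifs
      · exact hmu m
      · rw [norm_zero]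
        exact zero_le_one) zero_le_one
    refine le_trans h4 ?_
    rw [mul_one, mul_assoc]
    refine mul_le_mul_of_nonneg_left ?_ hC₁.le
    have h5 : (M' : ℝ) ≤ (X : ℝ) ^ (1 / 4 : ℝ) := by
      refine le_trans ?_ (Nat.floor_le hD0)
      exact_mod_cast min_le_left _ _
    have h6 : (Y : ℝ) / q ≤ (X : ℝ) / q := div_le_div_of_nonneg_right hYXr (by linarith)
    have h7 : Real.log (2 * q * Y) ≤ Real.log (2 * q * X) := by
      apply Real.log_le_log (by positivity)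
      exact mul_le_mul_of_nonneg_left hYXr (by positivity)
    refine mul_le_mul (by linarith) h7 ?_ (by positivity)
    apply Real.log_nonneg
    have h8 : (1 : ℝ) ≤ Y := by exact_mod_cast hY
    nlinarith
  refine le_trans (norm_add_le _ _) ?_
  have h9 : (X : ℝ) * (C₂ / (Real.log X) ^ M) = C₂ * (X / (Real.log X) ^ M) := by ring
  rw [h9] at hlarge
  have h10 : 0 ≤ C₁ * (X / (Real.log X) ^ M) := mul_nonneg hC₁.le hT0
  have h11 : 0 ≤ C₂ * (((X : ℝ) / q + (X : ℝ) ^ (1 / 4 : ℝ) + q) * Real.log (2 * q * X)) :=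
    mul_nonneg hC₂.le hmain0
  calc _ ≤ C₂ * (X / (Real.log X) ^ M) +
        C₁ * (((X : ℝ) / q + (X : ℝ) ^ (1 / 4 : ℝ) + q) * Real.log (2 * q * X)) :=
        add_le_add hlarge hsmall
    _ ≤ _ := by
        rw [add_mul, mul_add, mul_add]
        linarith

end Pool.Agent.Lib.SW
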