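import Pool.Agent.Lib.SW.TS.TS3
import Pool.Agent.Lib.SW.TS.TS4
import Pool.Agent.Lib.Sieve.Mertens

/-!
# TS-5: primes and rough numbers have the same Fourier transform up to any power of the logarithm

PROOF.  As `fourier_SW` in FourierSW.  `B₀ = 2 (A + 4)`, `B' = A + 4`... (any large value), `R = X/(log X)^(2 B')`, Dirichlet: `q ≤ R`, `|α - a/q| ≤ 1/(qR)`.
`1/Vz z ≤ 2^…`: use `(Vz z)⁻¹ ≤ C log X` (from `primorial_le_two_pow`-type bounds: `Vz z ≥ 1/(z+1)` is enough: `∏_{p ≤ z} (1 - 1/p) ≥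
∏_{2 ≤ n ≤ z} (1 - 1/n) = 1/z`; then all savings must be taken with `B` more powers of log, which is harmless since
`M` is arbitrary in `rz_major`, `rz_minor`, but NOT in the terms `X/q`, `q` of the minor arcs: there take `q > (log X)^(A + B + 5)`, i.e.
call major arcs all `q ≤ (log X)^(A + B + 5)`; but `rz_major` needs `q ≤ z`!  So use Mertens: `(Vz z)⁻¹ ≤ C log z`, `LG3_mertens` in
LG3 or `Sieve.Mertens3`, or the elementary `∏_{p ≤ z} (1 - 1/p)⁻¹ ≤ C (log z)`; a bound `C (log X)` is enough: minor arcs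
`q > (log X)^(2(A+4))`: `(X/q + X^(1/4) + q) log(2qX) · log X ≤ C X/(log X)^A`.)
Minor arcs: `FourierSW_minor` for `Λ`, `rz_minor` for `rz`.  Major arcs `q ≤ (log X)^(2(A+4)) ≤ z`: `FourierSW_abel`, `major_L` and `rz_major` (both with
savings `k = A + 2B' + 4(A+4) + 2`): the main terms `μ(q)/φ(q) Y'` cancel.  `Λ` against `lam`: `FourierSW_lam_diff` as in `fourier_lam`.
-/

set_option autoImplicit false

open Finset Pool.Agent.Lib.GT

open scoped ArithmeticFunction.Moebius ArithmeticFunction.vonMangoldt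

namespace Pool.Agent.Lib.SW

theorem TS5_V (z : ℕ) : Vz z = ∏ p ∈ (Icc 1 z).filter Nat.Prime, (1 - 1 / (p : ℝ)) := by
  have h1 := Nat.totient_eq_mul_prod_factors (primorial z)
  have h0 : (primorial z : ℝ) ≠ 0 := by exact_mod_cast primorial_ne_zero z
  have h2 : ((primorial z).totient : ℝ) =
      (primorial z : ℝ) * ∏ p ∈ (primorial z).primeFactors, (1 - (p : ℝ)⁻¹) := by
    have h3 := congrArg (fun r : ℚ => (r : ℝ)) h1
    push_cast at h3
    exact h3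
  unfold Vz
  rw [h2, mul_div_cancel_left₀ _ h0, primeFactors_primorial]
  refine prod_congr ?_ (fun p _ => by rw [one_div])
  ext p
  rw [mem_filter, Nat.mem_primesLE, mem_Icc]
  constructor
  · rintro ⟨h, hp⟩
    exact ⟨⟨hp.one_le, h⟩, hp⟩
  · rintro ⟨h, hp⟩
    exact ⟨h.2, hp⟩

theorem TS5_Vz_pos (z : ℕ) : 0 < Vz z := by
  unfold Vz
  have h1 : (0 : ℝ) < (primorial z).totient := by exact_mod_cast Nat.totient_pos.2 (primorial_pos z)
  have h2 : (0 : ℝ) < primorial z := by exact_mod_cast primorial_pos z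
  positivity

theorem Vz_inv_le : ∃ C : ℝ, 0 < C ∧ ∀ z : ℕ, 2 ≤ z → (Vz z)⁻¹ ≤ C * Real.log z := by
  obtain ⟨C, hC, h⟩ := Pool.Agent.Lib.Sieve.mertens_product_upper
  refine ⟨C, hC, fun z hz => ?_⟩
  rw [TS5_V, ← Finset.prod_inv_distrib]
  exact h z hz

theorem TS5_inv (B : ℕ) : ∃ C : ℝ, 0 < C ∧ ∀ X : ℕ, 3 ≤ X →
    (Vz (zB B X))⁻¹ ≤ C * Real.log X := by
  obtain ⟨C0, hC0, h0⟩ := Vz_inv_le
  refine ⟨C0 * B + 1, by positivity, fun X hX => ?_⟩
  have hX' : (3 : ℝ) ≤ X := by exact_mod_cast hX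
  have hL1 := FourierSW_log_three hX'
  have hL0 : 0 < Real.log X := by linarith
  have hCB : 0 ≤ C0 * B * Real.log X := by positivity
  rcases lt_or_ge (zB B X) 2 with h | h
  · have h1 : Vz (zB B X) = 1 := by
      rw [TS5_V]
      refine Finset.prod_eq_one fun p hp => ?_
      rw [mem_filter, mem_Icc] at hp
      have := hp.2.two_le
      omega
    rw [h1, inv_one]
    linarith
  · refine (h0 _ h).trans ?_
    have h2 : ((zB B X : ℕ) : ℝ) ≤ (Real.log X) ^ B := by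
      unfold zB
      exact Nat.floor_le (by positivity)
    have h3 : (2 : ℝ) ≤ (zB B X : ℕ) := by exact_mod_cast h
    have h4 : Real.log (zB B X : ℕ) ≤ B * Real.log (Real.log X) := by
      rw [← Real.log_pow]
      exact Real.log_le_log (by linarith) h2
    have h5 : Real.log (Real.log X) ≤ Real.log X := Real.log_le_self hL0.le
    have h6 : (B : ℝ) * Real.log (Real.log X) ≤ B * Real.log X :=
      mul_le_mul_of_nonneg_left h5 (Nat.cast_nonneg _)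
    have h7 := mul_le_mul_of_nonneg_left (h4.trans h6) hC0.le
    linarith

theorem TS5_rz (z n : ℕ) : |rz z n / Vz z| ≤ (Vz z)⁻¹ := by
  have hV := TS5_Vz_pos z
  have h1 : |rz z n| ≤ 1 := by
    unfold rz
    split_ifs
    · rw [abs_one]
    · rw [abs_zero]
      exact zero_le_one
  rw [abs_div, abs_of_pos hV, div_eq_mul_inv]
  exact mul_le_of_le_one_left (inv_nonneg.2 hV.le) h1

theorem TS5_trivial (z X Y : ℕ) (hY : Y ≤ X) (α : ℝ) :
    ‖∑ n ∈ Icc 1 Y, ((lam n - rz z n / Vz z : ℝ) : ℂ) * e (n * α)‖ ≤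
      X * (Real.log X + (Vz z)⁻¹) := by
  have hV := TS5_Vz_pos z
  have h1 : ∀ n ∈ Icc 1 Y, ‖((lam n - rz z n / Vz z : ℝ) : ℂ) * e (n * α)‖ ≤
      Real.log X + (Vz z)⁻¹ := by
    intro n hn
    rw [mem_Icc] at hn
    rw [norm_mul, norm_e, mul_one, Complex.norm_real, Real.norm_eq_abs]
    refine (abs_sub _ _).trans (add_le_add ?_ (TS5_rz z n))
    have h2 : Real.log n ≤ Real.log X :=
      Real.log_le_log (by exact_mod_cast hn.1) (by exact_mod_cast hn.2.trans hY)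
    unfold lam
    split_ifs
    · rw [abs_of_nonneg (Real.log_natCast_nonneg n)]
      exact h2
    · rw [abs_zero]
      exact Real.log_natCast_nonneg X
  refine (norm_sum_le _ _).trans ((sum_le_card_nsmul _ _ _ h1).trans ?_)
  rw [nsmul_eq_mul, Nat.card_Icc, Nat.add_sub_cancel]
  refine mul_le_mul_of_nonneg_right (by exact_mod_cast hY) ?_
  have := Real.log_natCast_nonneg X
  positivity

theorem TS5_split (z Y : ℕ) (g : ℕ → ℂ) :
    ∑ n ∈ Icc 1 Y, ((Λ n - rz z n / Vz z : ℝ) : ℂ) * g n =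
      ∑ n ∈ Icc 1 Y, ((Λ n : ℝ) : ℂ) * g n -
        (((Vz z)⁻¹ : ℝ) : ℂ) * ∑ n ∈ Icc 1 Y, ((rz z n : ℝ) : ℂ) * g n := by
  rw [mul_sum, ← sum_sub_distrib]
  refine sum_congr rfl fun n _ => ?_
  push_cast
  ring

theorem TS5_minor (A B B' : ℕ) (hB : A + 5 ≤ B') : ∃ C : ℝ, 0 < C ∧
    ∀ (X Y q : ℕ) (a : ℤ) (α : ℝ), 3 ≤ X → Y ≤ X → 1 ≤ q → IsCoprime a (q : ℤ) →
      |α - a / q| ≤ 1 / (q : ℝ) ^ 2 → (Real.log X) ^ (2 * (A + 5)) ≤ q →
      (q : ℝ) ≤ X / (Real.log X) ^ (2 * B') →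
        ‖∑ n ∈ Icc 1 Y, ((Λ n - rz (zB B X) n / Vz (zB B X) : ℝ) : ℂ) * e (n * α)‖ ≤
          C * X / (Real.log X) ^ A := by
  obtain ⟨C1, hC1, h1⟩ := FourierSW_minor A B' (by omega)
  obtain ⟨C2, hC2, h2⟩ := rz_minor B (A + 1)
  obtain ⟨C3, hC3, h3⟩ := FourierSW_log_pow (A + 2) (3 / 4) (by norm_num)
  obtain ⟨C5, hC5, h5⟩ := TS5_inv B
  refine ⟨C1 + C5 * (C2 * (3 * (2 + C3) + 1)), by positivity,
    fun X Y q a α hX hY hq ha hα hq1 hq2 => ?_⟩
  have hX' : (3 : ℝ) ≤ X := by exact_mod_cast hX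
  have hX0 : (0 : ℝ) < X := by linarith
  have hL1 := FourierSW_log_three hX'
  have hL : 0 < Real.log X := by linarith
  have hV := TS5_Vz_pos (zB B X)
  have hVi := h5 X hX
  have hr := h2 X hX Y hY q a α hq ha hα
  have hΛ := h1 X Y q a α (by omega) hL1 hY hq ha hα
    ((pow_le_pow_right₀ hL1 (by omega)).trans hq1) hq2
  have h3' := h3 X (by linarith)
  have hlog : Real.log (2 * q * X) ≤ 3 * Real.log X := by
    have hq0 : (1 : ℝ) ≤ q := by exact_mod_cast hq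
    have h4 : X / (Real.log X) ^ (2 * B') ≤ (X : ℝ) :=
      div_le_self hX0.le (one_le_pow₀ hL1)
    have h6 : 2 * (q : ℝ) * X ≤ (X : ℝ) ^ 3 := by
      have h7 : 2 * (q : ℝ) ≤ (X : ℝ) * X := by nlinarith
      calc 2 * (q : ℝ) * X ≤ (X : ℝ) * X * X := mul_le_mul_of_nonneg_right h7 hX0.le
        _ = (X : ℝ) ^ 3 := by ring
    have h8 := Real.log_le_log (by positivity) h6
    rw [Real.log_pow] at h8
    exact_mod_cast h8
  obtain ⟨L, hLdef⟩ : ∃ L, L = Real.log X := ⟨_, rfl⟩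
  rw [← hLdef] at hL1 hL hq1 hq2 hVi hr hΛ h3' hlog ⊢
  have hq0 : (0 : ℝ) < q := by exact_mod_cast hq
  have e1 : (X : ℝ) / q ≤ X / L ^ (A + 2) :=
    div_le_div_of_nonneg_left hX0.le (pow_pos hL _)
      ((pow_le_pow_right₀ hL1 (by omega)).trans hq1)
  have e2 : (q : ℝ) ≤ X / L ^ (A + 2) :=
    hq2.trans (div_le_div_of_nonneg_left hX0.le (pow_pos hL _)
      (pow_le_pow_right₀ hL1 (by omega)))
  have e3 : (X : ℝ) ^ (1 / 4 : ℝ) ≤ C3 * X / L ^ (A + 2) := by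
    rw [le_div_iff₀ (pow_pos hL _)]
    calc (X : ℝ) ^ (1 / 4 : ℝ) * L ^ (A + 2) ≤
          (X : ℝ) ^ (1 / 4 : ℝ) * (C3 * (X : ℝ) ^ (3 / 4 : ℝ)) :=
          mul_le_mul_of_nonneg_left h3' (by positivity)
      _ = C3 * ((X : ℝ) ^ (1 / 4 : ℝ) * (X : ℝ) ^ (3 / 4 : ℝ)) := by ring
      _ = C3 * X := by
          rw [← Real.rpow_add hX0]
          norm_num
  have e4 : (X : ℝ) / q + (X : ℝ) ^ (1 / 4 : ℝ) + q ≤ (2 + C3) * X / L ^ (A + 2) := by
    calc _ ≤ X / L ^ (A + 2) + C3 * X / L ^ (A + 2) + X / L ^ (A + 2) :=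
          add_le_add (add_le_add e1 e3) e2
      _ = _ := by ring
  have e5 : ((X : ℝ) / q + (X : ℝ) ^ (1 / 4 : ℝ) + q) * Real.log (2 * q * X) ≤
      3 * (2 + C3) * X / L ^ (A + 1) := by
    have h9 : 0 ≤ (X : ℝ) / q + (X : ℝ) ^ (1 / 4 : ℝ) + q := by positivity
    calc _ ≤ ((X : ℝ) / q + (X : ℝ) ^ (1 / 4 : ℝ) + q) * (3 * L) :=
          mul_le_mul_of_nonneg_left hlog h9
      _ ≤ ((2 + C3) * X / L ^ (A + 2)) * (3 * L) :=
          mul_le_mul_of_nonneg_right e4 (by positivity)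
      _ = _ := by
          rw [show A + 2 = A + 1 + 1 by ring, pow_succ L (A + 1)]
          field_simp
  have e6 : C2 * (((X : ℝ) / q + (X : ℝ) ^ (1 / 4 : ℝ) + q) * Real.log (2 * q * X) +
      X / L ^ (A + 1)) ≤ C2 * (3 * (2 + C3) + 1) * X / L ^ (A + 1) := by
    calc _ ≤ C2 * (3 * (2 + C3) * X / L ^ (A + 1) + X / L ^ (A + 1)) :=
          mul_le_mul_of_nonneg_left (add_le_add e5 le_rfl) hC2.le
      _ = _ := by ring
  rw [TS5_split]
  refine (norm_sub_le _ _).trans ?_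
  rw [norm_mul, Complex.norm_real, Real.norm_eq_abs, abs_of_pos (inv_pos.2 hV)]
  have e7 : (Vz (zB B X))⁻¹ * ‖∑ n ∈ Icc 1 Y, ((rz (zB B X) n : ℝ) : ℂ) * e (n * α)‖ ≤
      C5 * L * (C2 * (3 * (2 + C3) + 1) * X / L ^ (A + 1)) :=
    mul_le_mul hVi (hr.trans e6) (norm_nonneg _) (by positivity)
  have e8 : C1 * X / L ^ A + C5 * L * (C2 * (3 * (2 + C3) + 1) * X / L ^ (A + 1)) =
      (C1 + C5 * (C2 * (3 * (2 + C3) + 1))) * X / L ^ A := by
    have e9 : L ^ (A + 1) = L ^ A * L := pow_succ L A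
    have e10 : L ^ A ≠ 0 := (pow_pos hL A).ne'
    rw [e9]
    field_simp
  rw [← e8]
  exact add_le_add hΛ e7

theorem TS5_major (A B B' : ℕ) (hB : 2 * (A + 5) ≤ B) : ∃ C : ℝ, 0 < C ∧
    ∀ (X Y q : ℕ) (a : ℤ) (α : ℝ), 3 ≤ X → Y ≤ X → 1 ≤ q → IsCoprime a (q : ℤ) →
      |α - a / q| ≤ (Real.log X) ^ (2 * B') / X → (q : ℝ) ≤ (Real.log X) ^ (2 * (A + 5)) →
        ‖∑ n ∈ Icc 1 Y, ((Λ n - rz (zB B X) n / Vz (zB B X) : ℝ) : ℂ) * e (n * α)‖ ≤
          C * X / (Real.log X) ^ A := by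
  obtain ⟨C1, hC1, h1⟩ := major_L (2 * B' + 4 * (A + 5) + A)
  obtain ⟨C2, hC2, h2⟩ := rz_major B (2 * B' + 2 * (A + 5) + A + 1)
  obtain ⟨C5, hC5, h5⟩ := TS5_inv B
  refine ⟨8 * (C1 + C5 * C2), by positivity, fun X Y q a α hX hY hq ha hα hqA => ?_⟩
  have hX' : (3 : ℝ) ≤ X := by exact_mod_cast hX
  have hX0 : (0 : ℝ) < X := by linarith
  have hL1 := FourierSW_log_three hX'
  have hL : 0 < Real.log X := by linarith
  have hV := TS5_Vz_pos (zB B X)
  have hVi := h5 X hX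
  have hq0 : (0 : ℝ) ≤ q := Nat.cast_nonneg q
  have hqz : q ≤ zB B X := by
    unfold zB
    exact Nat.le_floor (hqA.trans (pow_le_pow_right₀ hL1 hB))
  obtain ⟨z, hz⟩ : ∃ z : ℕ, z = zB B X := ⟨_, rfl⟩
  obtain ⟨L, hLdef⟩ : ∃ L, L = Real.log X := ⟨_, rfl⟩
  have hM : ∀ Z : ℕ, Z ≤ Y → ‖∑ n ∈ Icc 1 Z, ((Λ n - rz z n / Vz z : ℝ) : ℂ) *
      e (n * ((a : ℝ) / q))‖ ≤ (C1 + C5 * C2) * X / L ^ (2 * B' + A) := by
    intro Z hZ
    have h3 := h1 X Z q a (by omega) (hZ.trans hY) hq ha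
    have h4 := h2 X hX Z (hZ.trans hY) q a hq hqz ha
    rw [← hLdef] at h3 h4 hVi hqA hL hL1
    rw [← hz] at h4 hVi hV
    have h6 : ∑ n ∈ Icc 1 Z, ((Λ n - rz z n / Vz z : ℝ) : ℂ) * e (n * ((a : ℝ) / q)) =
        (∑ n ∈ Icc 1 Z, ((Λ n : ℝ) : ℂ) * e (n * ((a : ℝ) / q)) -
          ((ArithmeticFunction.moebius q : ℤ) : ℂ) / (q.totient : ℂ) * Z) -
        (((Vz z)⁻¹ : ℝ) : ℂ) * (∑ n ∈ Icc 1 Z, ((rz z n : ℝ) : ℂ) * e (n * ((a : ℝ) / q)) -
          ((ArithmeticFunction.moebius q : ℤ) : ℂ) / (q.totient : ℂ) * ((Vz z : ℝ) : ℂ) * Z) := by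
      rw [TS5_split z Z (fun n => e (n * ((a : ℝ) / q)))]
      have h7 : (((Vz z)⁻¹ : ℝ) : ℂ) * ((Vz z : ℝ) : ℂ) = 1 := by
        rw [← Complex.ofReal_mul, inv_mul_cancel₀ hV.ne', Complex.ofReal_one]
      linear_combination -(((ArithmeticFunction.moebius q : ℤ) : ℂ) / (q.totient : ℂ) * Z) * h7
    rw [h6]
    refine (norm_sub_le _ _).trans ?_
    rw [norm_mul, Complex.norm_real, Real.norm_eq_abs, abs_of_pos (inv_pos.2 hV)]
    have e1 : C1 * (q : ℝ) ^ 2 * X / L ^ (2 * B' + 4 * (A + 5) + A) ≤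
        C1 * X / L ^ (2 * B' + A) := by
      have h8 : (q : ℝ) ^ 2 ≤ L ^ (4 * (A + 5)) := by
        have h9 : L ^ (4 * (A + 5)) = (L ^ (2 * (A + 5))) ^ 2 := by
          rw [← pow_mul]
          congr 1
          ring
        rw [h9]
        exact pow_le_pow_left₀ hq0 hqA 2
      rw [div_le_div_iff₀ (pow_pos hL _) (pow_pos hL _)]
      calc C1 * (q : ℝ) ^ 2 * X * L ^ (2 * B' + A) ≤
            C1 * L ^ (4 * (A + 5)) * X * L ^ (2 * B' + A) := by gcongr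
        _ = C1 * X * L ^ (2 * B' + 4 * (A + 5) + A) := by ring
    have e2 : C2 * q * X / L ^ (2 * B' + 2 * (A + 5) + A + 1) ≤
        C2 * X / L ^ (2 * B' + A + 1) := by
      rw [div_le_div_iff₀ (pow_pos hL _) (pow_pos hL _)]
      calc C2 * q * X * L ^ (2 * B' + A + 1) ≤
            C2 * L ^ (2 * (A + 5)) * X * L ^ (2 * B' + A + 1) := by gcongr
        _ = C2 * X * L ^ (2 * B' + 2 * (A + 5) + A + 1) := by ring
    have e3 : (Vz z)⁻¹ * ‖∑ n ∈ Icc 1 Z, ((rz z n : ℝ) : ℂ) * e (n * ((a : ℝ) / q)) -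
          ((ArithmeticFunction.moebius q : ℤ) : ℂ) / (q.totient : ℂ) * ((Vz z : ℝ) : ℂ) * Z‖ ≤
        C5 * L * (C2 * X / L ^ (2 * B' + A + 1)) :=
      mul_le_mul hVi (h4.trans e2) (norm_nonneg _) (by positivity)
    have e8 : C1 * X / L ^ (2 * B' + A) + C5 * L * (C2 * X / L ^ (2 * B' + A + 1)) =
        (C1 + C5 * C2) * X / L ^ (2 * B' + A) := by
      have e9 : L ^ (2 * B' + A + 1) = L ^ (2 * B' + A) * L := pow_succ L (2 * B' + A)
      have e10 : L ^ (2 * B' + A) ≠ 0 := (pow_pos hL _).ne'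
      rw [e9]
      field_simp
    rw [← e8]
    exact add_le_add (h3.trans e1) e3
  have h3 := FourierSW_abel (fun n => ((Λ n - rz z n / Vz z : ℝ) : ℂ) * e (n * ((a : ℝ) / q)))
    (α - a / q) _ Y hM
  have h4 : ∑ n ∈ Icc 1 Y, ((Λ n - rz z n / Vz z : ℝ) : ℂ) * e (n * α) =
      ∑ n ∈ Icc 1 Y, ((Λ n - rz z n / Vz z : ℝ) : ℂ) * e (n * ((a : ℝ) / q)) *
        e (n * (α - a / q)) := by
    refine sum_congr rfl fun n _ => ?_
    rw [mul_assoc, ← e_add]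
    congr 2
    ring
  rw [← hLdef] at hα hL hL1 ⊢
  rw [← hz, h4]
  refine h3.trans ?_
  have h6 : |α - a / q| * Y ≤ L ^ (2 * B') := by
    have hYX : (Y : ℝ) ≤ X := by exact_mod_cast hY
    calc |α - a / q| * Y ≤ L ^ (2 * B') / X * X :=
          mul_le_mul hα hYX (Nat.cast_nonneg _) (by positivity)
      _ = L ^ (2 * B') := by field_simp
  have h7 : 1 + 2 * Real.pi * |α - a / q| * Y ≤ 8 * L ^ (2 * B') := by
    have h7 : 1 ≤ L ^ (2 * B') := one_le_pow₀ hL1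
    have h8 := Real.pi_lt_d2
    have h9 := Real.pi_pos
    have h10 : 2 * Real.pi * |α - a / q| * Y = 2 * Real.pi * (|α - a / q| * Y) := by ring
    rw [h10]
    have h11 : 2 * Real.pi * (|α - a / q| * Y) ≤ 2 * Real.pi * L ^ (2 * B') :=
      mul_le_mul_of_nonneg_left h6 (by positivity)
    nlinarith
  calc (1 + 2 * Real.pi * |α - a / q| * Y) * ((C1 + C5 * C2) * X / L ^ (2 * B' + A)) ≤
        8 * L ^ (2 * B') * ((C1 + C5 * C2) * X / L ^ (2 * B' + A)) :=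
        mul_le_mul_of_nonneg_right h7 (by positivity)
    _ = 8 * (C1 + C5 * C2) * X / L ^ A := by
        rw [pow_add L (2 * B') A]
        field_simp

theorem TS5_Lambda (A B : ℕ) (hB : 2 * (A + 5) ≤ B) : ∃ (C : ℝ) (X0 : ℝ), 0 < C ∧ 3 ≤ X0 ∧
    ∀ X : ℕ, X0 ≤ X → ∀ Y : ℕ, Y ≤ X → ∀ α : ℝ,
      ‖∑ n ∈ Icc 1 Y, ((Λ n - rz (zB B X) n / Vz (zB B X) : ℝ) : ℂ) * e (n * α)‖ ≤
        C * X / (Real.log X) ^ A := by
  obtain ⟨C1, hC1, hminor⟩ := TS5_minor A B (A + 5) le_rfl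
  obtain ⟨C2, hC2, hmajor⟩ := TS5_major A B (A + 5) hB
  obtain ⟨C3, hC3, hlog⟩ := FourierSW_log_pow (2 * (A + 5)) 1 one_pos
  obtain ⟨C4, hC4, hlog4⟩ := FourierSW_log_pow (2 * (A + 5)) (1 / 2) (by norm_num)
  refine ⟨C1 + C2, 3 + C4 ^ 2, by positivity, by nlinarith [sq_nonneg C4], ?_⟩
  intro X hX Y hY α
  have hXr : (3 : ℝ) ≤ X := by nlinarith [sq_nonneg C4]
  have hX3 : 3 ≤ X := by exact_mod_cast hXr
  have hXpos : (0 : ℝ) < X := by linarith
  have hL1 := FourierSW_log_three hXr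
  have hL : 0 < Real.log X := by linarith
  obtain ⟨L, hLdef⟩ : ∃ L, L = Real.log X := ⟨_, rfl⟩
  obtain ⟨R, hR⟩ : ∃ R : ℝ, R = X / L ^ (2 * (A + 5)) := ⟨_, rfl⟩
  have hR1 : 1 ≤ R := by
    rw [hR, hLdef, le_div_iff₀ (pow_pos hL _), one_mul]
    have h1 := hlog4 X (by linarith)
    rw [← Real.sqrt_eq_rpow] at h1
    have h2 : C4 ≤ Real.sqrt X := Real.le_sqrt_of_sq_le (by linarith)
    calc (Real.log X) ^ (2 * (A + 5)) ≤ C4 * Real.sqrt X := h1
      _ ≤ Real.sqrt X * Real.sqrt X := mul_le_mul_of_nonneg_right h2 (Real.sqrt_nonneg _)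
      _ = X := Real.mul_self_sqrt hXpos.le
  have hRpos : 0 < R := by linarith
  have hN : 0 < ⌊R⌋₊ := Nat.floor_pos.2 hR1
  obtain ⟨r, hr1, hr2⟩ := Real.exists_rat_abs_sub_le_and_den_le α hN
  obtain ⟨q, hqdef⟩ : ∃ q : ℕ, q = r.den := ⟨_, rfl⟩
  obtain ⟨a, hadef⟩ : ∃ a : ℤ, a = r.num := ⟨_, rfl⟩
  have hq : 1 ≤ q := by rw [hqdef]; exact r.den_pos
  have hq0 : (0 : ℝ) < q := by exact_mod_cast hq
  have ha : IsCoprime a (q : ℤ) := by
    rw [hadef, hqdef]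
    rw [Int.isCoprime_iff_gcd_eq_one]
    exact r.reduced
  have hr : ((r : ℚ) : ℝ) = (a : ℝ) / q := by
    rw [hadef, hqdef]
    exact_mod_cast (Rat.num_div_den r).symm
  have hqR : (q : ℝ) ≤ R := by
    rw [hqdef]
    exact (Nat.cast_le.2 hr2).trans (Nat.floor_le hRpos.le)
  have hαR : |α - a / q| ≤ 1 / (R * q) := by
    rw [← hr]
    refine hr1.trans ?_
    rw [← hqdef]
    refine one_div_le_one_div_of_le (by positivity) ?_
    exact mul_le_mul_of_nonneg_right (Nat.lt_floor_add_one R).le hq0.le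
  have hαq : |α - a / q| ≤ 1 / (q : ℝ) ^ 2 := by
    refine hαR.trans ?_
    refine one_div_le_one_div_of_le (by positivity) ?_
    rw [sq]
    exact mul_le_mul_of_nonneg_right hqR hq0.le
  have hLA : 0 < (Real.log X) ^ A := pow_pos hL A
  rcases le_or_gt ((Real.log X) ^ (2 * (A + 5))) (q : ℝ) with hc | hc
  · refine (hminor X Y q a α hX3 hY hq ha hαq hc (by rw [← hLdef, ← hR]; exact hqR)).trans ?_
    refine div_le_div_of_nonneg_right ?_ hLA.le
    refine mul_le_mul_of_nonneg_right ?_ hXpos.le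
    linarith
  · have hα2 : |α - a / q| ≤ (Real.log X) ^ (2 * (A + 5)) / X := by
      refine hαR.trans ?_
      have h1 : 1 / R = (Real.log X) ^ (2 * (A + 5)) / X := by rw [hR, hLdef, one_div_div]
      rw [← h1]
      refine one_div_le_one_div_of_le hRpos ?_
      have hq1 : (1 : ℝ) ≤ q := by exact_mod_cast hq
      nlinarith
    refine (hmajor X Y q a α hX3 hY hq ha hα2 hc.le).trans ?_
    refine div_le_div_of_nonneg_right ?_ hLA.le
    refine mul_le_mul_of_nonneg_right ?_ hXpos.le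
    linarith

theorem fourier_rz (A : ℕ) : ∃ B₀ : ℕ, ∀ B : ℕ, B₀ ≤ B → ∃ C : ℝ, 0 < C ∧ ∀ X : ℕ, 3 ≤ X →
    ∀ Y : ℕ, Y ≤ X → ∀ α : ℝ,
      ‖∑ n ∈ Icc 1 Y, ((lam n - rz (zB B X) n / Vz (zB B X) : ℝ) : ℂ) * e (n * α)‖ ≤
        C * X / (Real.log X) ^ A := by
  refine ⟨2 * (A + 5), fun B hB => ?_⟩
  obtain ⟨C1, X0, hC1, hX0, h1⟩ := TS5_Lambda A B hB
  obtain ⟨C2, hC2, h2⟩ := FourierSW_log_pow (A + 1) (1 / 2) (by norm_num)
  obtain ⟨C5, hC5, h5⟩ := TS5_inv B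
  obtain ⟨L0, hL0def⟩ : ∃ L0 : ℝ, L0 = Real.log X0 := ⟨_, rfl⟩
  have hL01 : 1 ≤ L0 := by rw [hL0def]; exact FourierSW_log_three hX0
  refine ⟨C1 + 2 * C2 + (1 + C5) * L0 ^ (A + 1), by positivity, fun X hX Y hY α => ?_⟩
  have hX' : (3 : ℝ) ≤ X := by exact_mod_cast hX
  have hXpos : (0 : ℝ) < X := by linarith
  have hL1 := FourierSW_log_three hX'
  have hL : 0 < Real.log X := by linarith
  have hLA : 0 < (Real.log X) ^ A := pow_pos hL A
  rcases lt_or_ge (X : ℝ) X0 with hsmall | hlarge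
  · have h3 := TS5_trivial (zB B X) X Y hY α
    refine h3.trans ?_
    rw [le_div_iff₀ hLA]
    have h4 : Real.log X ≤ L0 := by
      rw [hL0def]
      exact Real.log_le_log hXpos hsmall.le
    have h6 : Real.log X + (Vz (zB B X))⁻¹ ≤ (1 + C5) * Real.log X := by
      have := h5 X hX
      linarith
    have h7 : (Real.log X + (Vz (zB B X))⁻¹) * (Real.log X) ^ A ≤ (1 + C5) * L0 ^ (A + 1) := by
      calc _ ≤ ((1 + C5) * Real.log X) * (Real.log X) ^ A :=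
            mul_le_mul_of_nonneg_right h6 hLA.le
        _ = (1 + C5) * (Real.log X) ^ (A + 1) := by ring
        _ ≤ (1 + C5) * L0 ^ (A + 1) :=
            mul_le_mul_of_nonneg_left (pow_le_pow_left₀ hL.le h4 _) (by positivity)
    calc (X : ℝ) * (Real.log X + (Vz (zB B X))⁻¹) * (Real.log X) ^ A
        = ((Real.log X + (Vz (zB B X))⁻¹) * (Real.log X) ^ A) * X := by ring
      _ ≤ (C1 + 2 * C2 + (1 + C5) * L0 ^ (A + 1)) * X := by
          refine mul_le_mul_of_nonneg_right ?_ hXpos.le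
          linarith
  · have h3 := h1 X hlarge Y hY α
    have h4 : ‖∑ n ∈ Icc 1 Y, ((Λ n - lam n : ℝ) : ℂ) * e (n * α)‖ ≤
        2 * C2 * X / (Real.log X) ^ A := by
      rcases Nat.eq_zero_or_pos Y with h5 | h5
      · rw [h5, Icc_eq_empty (by norm_num), sum_empty, norm_zero]
        positivity
      · refine (FourierSW_lam_diff Y h5 α).trans ?_
        have hY1 : (1 : ℝ) ≤ Y := by exact_mod_cast h5
        have hYX : (Y : ℝ) ≤ X := by exact_mod_cast hY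
        have h6 : Real.log Y ≤ Real.log X := Real.log_le_log (by linarith) hYX
        have h7 : Real.sqrt Y ≤ Real.sqrt X := Real.sqrt_le_sqrt hYX
        have h8 := h2 X (by linarith)
        rw [← Real.sqrt_eq_rpow] at h8
        rw [le_div_iff₀ hLA]
        calc 2 * Real.sqrt Y * Real.log Y * (Real.log X) ^ A ≤
              2 * Real.sqrt X * Real.log X * (Real.log X) ^ A := by
              refine mul_le_mul_of_nonneg_right ?_ hLA.le
              exact mul_le_mul (by linarith) h6 (Real.log_nonneg hY1) (by positivity)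
          _ = 2 * Real.sqrt X * (Real.log X) ^ (A + 1) := by ring
          _ ≤ 2 * Real.sqrt X * (C2 * Real.sqrt X) :=
              mul_le_mul_of_nonneg_left h8 (by positivity)
          _ = 2 * C2 * (Real.sqrt X * Real.sqrt X) := by ring
          _ = 2 * C2 * X := by rw [Real.mul_self_sqrt hXpos.le]
    have h6 : ∑ n ∈ Icc 1 Y, ((lam n - rz (zB B X) n / Vz (zB B X) : ℝ) : ℂ) * e (n * α) =
        ∑ n ∈ Icc 1 Y, ((Λ n - rz (zB B X) n / Vz (zB B X) : ℝ) : ℂ) * e (n * α) -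
          ∑ n ∈ Icc 1 Y, ((Λ n - lam n : ℝ) : ℂ) * e (n * α) := by
      rw [← sum_sub_distrib]
      refine sum_congr rfl fun n _ => ?_
      push_cast
      ring
    rw [h6]
    have h7 : 0 ≤ (1 + C5) * L0 ^ (A + 1) := by positivity
    calc _ ≤ C1 * X / (Real.log X) ^ A + 2 * C2 * X / (Real.log X) ^ A :=
          (norm_sub_le _ _).trans (add_le_add h3 h4)
      _ = (C1 + 2 * C2) * X / (Real.log X) ^ A := by ring
      _ ≤ _ := by
          refine div_le_div_of_nonneg_right ?_ hLA.le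
          refine mul_le_mul_of_nonneg_right ?_ hXpos.le
          linarith

end Pool.Agent.Lib.SW
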