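import Pool.Agent.Lib.SW.TS.TS0
import Pool.Agent.Lib.MP_7b7e48_nt.GT.FL3

/-!
# TS-6: upper bound sieve for `N` with `N - s` rough for all `s ∈ σ`

PROOF.  `P = pr w z`, bad set of `N`: `bad N = {p ∈ P : p ∣ N - s for some s ∈ σ}` (`p ∣ N - s` iff `N % p = s % p`).  Bonferroni: for every `m`,
`1_{bad N = ∅} ≤ ∑_{D ⊆ P, #D ≤ 2m} (-1)^#D 1_{D ⊆ bad N}` (`∑_{j ≤ 2m} (-1)^j C(n, j) = C(n-1, 2m) ≥ 0` for `n ≥ 1`).
`#{N ∈ Icc 1 X : D ⊆ bad N} = X ∏_{p ∈ D} nu σ p / p + O(∏_{p ∈ D} nu σ p)` (CRT: the condition is a union of `∏ nu σ p` residue classes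
modulo `∏_{p ∈ D} p`).  Hence the count is at most
`X (∏ (1 - nu/p) + ∑_{#D > 2m} ∏_{p ∈ D} nu/p) + ∑_{#D ≤ 2m} ∏_{p ∈ D} nu`.
`λ := ∑_{p ∈ P} nu/p ≤ k ∑_{n ≤ z} 1/n`-type bounds: `λ ≤ k (1 + log z) ≤ k (1 + B log log X)`; `m := ⌈4 λ⌉ + 1` or simply `m = ⌈4 k (1 + B log log X)⌉₊`,
`Λ := k (1 + B log log X) ≥ λ`: `∑_{#D = j} ∏ nu/p ≤ λ^j/j! ≤ (e λ/j)^j ≤ (e/8)^j` for `j > 2m ≥ 8 Λ`, the tail is `≤ 2 (e/8)^(8 Λ) ≤ 2 e^(-8Λ) · ...`
(`8/e ≥ e`, so `(e/8)^(8Λ) ≤ e^(-8Λ)`), and `RR ≥ e^(-2λ) ≥ e^(-2Λ)` because `nu/p ≤ k/w ≤ 1/2` (`1 - x ≥ e^(-2x)` on `[0, 1/2]`).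
Last term: `∑_{#D ≤ 2m} k^#D ≤ (k z + 1)^(2m) ≤ exp ((log log X)^4) ≤ X e^(-2Λ)` for large `X` (`k ≤ C log log X`).
-/

set_option autoImplicit false

open Finset Pool.Agent.Lib.GT

namespace Pool.Agent.Lib.SW

theorem ts6_dvd (p N s : ℕ) : ((p : ℤ) ∣ (N : ℤ) - s) ↔ N % p = s % p := by
  rw [← Int.modEq_iff_dvd, Int.natCast_modEq_iff]
  unfold Nat.ModEq
  exact eq_comm

theorem ts6_rough (w z : ℕ) (σ : Finset ℕ) (N : ℕ) :
    Rough w z σ N ↔ ∀ p ∈ pr w z, N % p ∉ σ.image (fun s => s % p) := by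
  unfold Rough
  constructor
  · intro h p hp hN
    obtain ⟨s, hs, he⟩ := mem_image.1 hN
    exact h s hs p hp ((ts6_dvd p N s).2 he.symm)
  · intro h s hs p hp hd
    exact h p hp (mem_image.2 ⟨s, hs, ((ts6_dvd p N s).1 hd).symm⟩)

theorem ts6_main (P : Finset ℕ) (hP : ∀ r ∈ P, r.Prime) (Ω : ℕ → Finset ℕ)
    (hΩ : ∀ r ∈ P, ∀ x ∈ Ω r, x < r) (m : ℕ) (hm : Even m) (X : ℕ) :
    (((Icc 1 X).filter (fun N => ∀ p ∈ P, N % p ∉ Ω p)).card : ℝ) ≤
      X * ∑ d ∈ P.powerset with d.card ≤ m, ((-1 : ℝ) ^ d.card * ∏ r ∈ d, ((Ω r).card : ℝ) / r) +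
        ∑ d ∈ P.powerset with d.card ≤ m, ∏ r ∈ d, ((Ω r).card : ℝ) := by
  classical
  have h0 : Icc 1 X = Ico 1 (1 + X) := by
    ext n
    rw [mem_Icc, mem_Ico]
    omega
  have h1 : (((Icc 1 X).filter (fun N => ∀ p ∈ P, N % p ∉ Ω p)).card : ℝ) =
      ∑ N ∈ Ico 1 (1 + X), (if P.filter (fun r => N % r ∈ Ω r) = ∅ then (1 : ℝ) else 0) := by
    rw [h0, Finset.card_filter]
    push_cast
    refine sum_congr rfl fun N _ => ?_
    congr 1
    rw [filter_eq_empty_iff]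
  have h2 : ∑ N ∈ Ico 1 (1 + X), (if P.filter (fun r => N % r ∈ Ω r) = ∅ then (1 : ℝ) else 0) ≤
      ∑ N ∈ Ico 1 (1 + X), ∑ d ∈ P.powerset with d.card ≤ m,
        ((-1 : ℝ) ^ d.card * if ∀ r ∈ d, N % r ∈ Ω r then 1 else 0) := by
    refine sum_le_sum fun N _ => ?_
    rw [trunc_eq]
    exact bonf_lower _ m hm
  rw [h1]
  refine h2.trans ?_
  rw [sum_comm, mul_sum, ← sum_add_distrib]
  refine sum_le_sum fun d hd => ?_
  have hdP := mem_powerset.1 (mem_filter.1 hd).1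
  rw [← mul_sum]
  have h3 : ∑ N ∈ Ico 1 (1 + X), (if ∀ r ∈ d, N % r ∈ Ω r then (1 : ℝ) else 0) =
      ((((Ico 1 (1 + X)).filter (fun N => ∀ r ∈ d, N % r ∈ Ω r)).card : ℝ)) := by
    rw [Finset.card_filter]
    push_cast
    rfl
  rw [h3]
  have h4 := abs_card_sub_le d (fun r hr => hP r (hdP hr)) Ω (fun r hr => hΩ r (hdP hr)) 1 X
  set c : ℝ := ((((Ico 1 (1 + X)).filter (fun N => ∀ r ∈ d, N % r ∈ Ω r)).card : ℝ))
  set g : ℝ := ∏ r ∈ d, ((Ω r).card : ℝ) / r
  have h5 : (-1 : ℝ) ^ d.card * c - X * ((-1 : ℝ) ^ d.card * g) ≤ |c - X * g| := by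
    have h6 : (-1 : ℝ) ^ d.card * c - X * ((-1 : ℝ) ^ d.card * g) =
        (-1 : ℝ) ^ d.card * (c - X * g) := by ring
    rw [h6]
    rcases neg_one_pow_eq_or ℝ d.card with h7 | h7
    · rw [h7, one_mul]
      exact le_abs_self _
    · rw [h7, neg_one_mul]
      exact neg_le_abs _
  linarith

theorem ts6_trunc (P : Finset ℕ) (g : ℕ → ℝ) (hg : ∀ r ∈ P, 0 ≤ g r) (G : ℝ)
    (hG : ∑ r ∈ P, g r ≤ G) (m : ℕ) :
    ∑ d ∈ P.powerset with d.card ≤ m, ((-1 : ℝ) ^ d.card * ∏ r ∈ d, g r) ≤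
      ∏ r ∈ P, (1 - g r) + Real.exp (4 * G) / 4 ^ m := by
  classical
  have h1 : ∏ r ∈ P, (1 - g r) = ∑ d ∈ P.powerset, ((-1 : ℝ) ^ d.card * ∏ r ∈ d, g r) := by
    have h2 : ∏ r ∈ P, (1 - g r) = ∏ r ∈ P, (1 + (-1) * g r) := by
      refine prod_congr rfl fun r _ => ?_
      ring
    rw [h2, prod_one_add]
    refine sum_congr rfl fun d _ => ?_
    rw [prod_mul_distrib, prod_const]
  have h3 := sum_filter_add_sum_filter_not P.powerset (fun d => d.card ≤ m)
    (fun d => ((-1 : ℝ) ^ d.card * ∏ r ∈ d, g r))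
  have h4 : -(∑ d ∈ P.powerset with ¬ d.card ≤ m, ((-1 : ℝ) ^ d.card * ∏ r ∈ d, g r)) ≤
      Real.exp (4 * G) / 4 ^ m := by
    rw [← sum_neg_distrib, le_div_iff₀ (by positivity), sum_mul]
    calc ∑ d ∈ P.powerset with ¬ d.card ≤ m, -((-1 : ℝ) ^ d.card * ∏ r ∈ d, g r) * 4 ^ m
        ≤ ∑ d ∈ P.powerset with ¬ d.card ≤ m, ∏ r ∈ d, (4 * g r) := by
          refine sum_le_sum fun d hd => ?_
          obtain ⟨hd1, hd2⟩ := mem_filter.1 hd
          have hd3 := mem_powerset.1 hd1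
          have h5 : 0 ≤ ∏ r ∈ d, g r := prod_nonneg fun r hr => hg r (hd3 hr)
          have h6 : -((-1 : ℝ) ^ d.card * ∏ r ∈ d, g r) ≤ ∏ r ∈ d, g r := by
            rcases neg_one_pow_eq_or ℝ d.card with h7 | h7
            · rw [h7]; linarith
            · rw [h7]; linarith
          have h7 : (4 : ℝ) ^ m ≤ 4 ^ d.card := pow_le_pow_right₀ (by norm_num) (by omega)
          rw [prod_mul_distrib, prod_const]
          calc _ ≤ (∏ r ∈ d, g r) * 4 ^ m := mul_le_mul_of_nonneg_right h6 (by positivity)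
            _ ≤ (∏ r ∈ d, g r) * 4 ^ d.card := mul_le_mul_of_nonneg_left h7 h5
            _ = _ := mul_comm _ _
      _ ≤ ∑ d ∈ P.powerset, ∏ r ∈ d, (4 * g r) := by
          refine sum_le_sum_of_subset_of_nonneg (filter_subset _ _) fun d hd _ => ?_
          have hd3 := mem_powerset.1 hd
          exact prod_nonneg fun r hr => mul_nonneg (by norm_num) (hg r (hd3 hr))
      _ = ∏ r ∈ P, (1 + 4 * g r) := by rw [prod_one_add]
      _ ≤ ∏ r ∈ P, Real.exp (4 * g r) := by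
          refine prod_le_prod (fun r hr => ?_) fun r _ => ?_
          · have := hg r hr
            positivity
          · have := Real.add_one_le_exp (4 * g r)
            linarith
      _ = Real.exp (4 * ∑ r ∈ P, g r) := by rw [← Real.exp_sum, mul_sum]
      _ ≤ _ := Real.exp_le_exp.2 (by linarith)
  linarith

theorem ts6_low (P : Finset ℕ) (v : ℕ → ℝ) (hv : ∀ r ∈ P, 0 ≤ v r) (T : ℝ) (hT : 1 ≤ T)
    (m : ℕ) (G : ℝ) (hG : ∑ r ∈ P, v r ≤ G * T) :
    ∑ d ∈ P.powerset with d.card ≤ m, ∏ r ∈ d, v r ≤ T ^ m * Real.exp G := by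
  classical
  have hT0 : 0 < T := by linarith
  calc ∑ d ∈ P.powerset with d.card ≤ m, ∏ r ∈ d, v r
      ≤ ∑ d ∈ P.powerset with d.card ≤ m, T ^ m * ∏ r ∈ d, (v r / T) := by
        refine sum_le_sum fun d hd => ?_
        obtain ⟨hd1, hd2⟩ := mem_filter.1 hd
        have hd3 := mem_powerset.1 hd1
        have h5 : 0 ≤ ∏ r ∈ d, (v r / T) := prod_nonneg fun r hr => div_nonneg (hv r (hd3 hr)) hT0.le
        have h6 : ∏ r ∈ d, v r = T ^ d.card * ∏ r ∈ d, (v r / T) := by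
          rw [← prod_const, ← prod_mul_distrib]
          refine prod_congr rfl fun r _ => ?_
          field_simp
        rw [h6]
        exact mul_le_mul_of_nonneg_right (pow_le_pow_right₀ hT hd2) h5
    _ = T ^ m * ∑ d ∈ P.powerset with d.card ≤ m, ∏ r ∈ d, (v r / T) := by rw [mul_sum]
    _ ≤ T ^ m * ∑ d ∈ P.powerset, ∏ r ∈ d, (v r / T) := by
        refine mul_le_mul_of_nonneg_left ?_ (by positivity)
        refine sum_le_sum_of_subset_of_nonneg (filter_subset _ _) fun d hd _ => ?_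
        have hd3 := mem_powerset.1 hd
        exact prod_nonneg fun r hr => div_nonneg (hv r (hd3 hr)) hT0.le
    _ = T ^ m * ∏ r ∈ P, (1 + v r / T) := by rw [prod_one_add]
    _ ≤ T ^ m * ∏ r ∈ P, Real.exp (v r / T) := by
        refine mul_le_mul_of_nonneg_left ?_ (by positivity)
        refine prod_le_prod (fun r hr => ?_) fun r _ => ?_
        · have := div_nonneg (hv r hr) hT0.le
          linarith
        · have := Real.add_one_le_exp (v r / T)
          linarith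
    _ ≤ _ := by
        refine mul_le_mul_of_nonneg_left ?_ (by positivity)
        rw [← Real.exp_sum]
        refine Real.exp_le_exp.2 ?_
        rw [← sum_div, div_le_iff₀ hT0]
        exact hG

/-- sum of reciprocals of the primes up to `z` -/
theorem ts6_recip (w z : ℕ) : ∑ p ∈ pr w z, 1 / (p : ℝ) ≤ 1 + Real.log z := by
  have h1 : ∑ p ∈ pr w z, 1 / (p : ℝ) ≤ ∑ p ∈ Icc 1 z, 1 / (p : ℝ) := by
    refine sum_le_sum_of_subset_of_nonneg ?_ fun p _ _ => by positivity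
    intro p hp
    have := mem_pr.1 hp
    rw [mem_Icc]
    exact ⟨this.2.2.one_lt.le, this.2.1⟩
  refine h1.trans ?_
  have h2 := harmonic_le_one_add_log z
  have h3 : ((harmonic z : ℚ) : ℝ) = ∑ p ∈ Icc 1 z, 1 / (p : ℝ) := by
    rw [harmonic_eq_sum_Icc]
    push_cast
    refine sum_congr rfl fun p _ => ?_
    rw [one_div]
  rw [← h3]
  exact h2

theorem ts6_ev (A : ℝ) (n : ℕ) : ∃ X₀ : ℕ, ∀ X : ℕ, X₀ ≤ X →
    1 ≤ Real.log (Real.log X) ∧ 1 ≤ Real.log X ∧ Real.exp (Real.log (Real.log X)) = Real.log X ∧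
      A * Real.log (Real.log X) ^ n ≤ Real.log X := by
  have h1 : Filter.Tendsto (fun X : ℕ => Real.log (Real.log (X : ℝ))) Filter.atTop Filter.atTop :=
    Real.tendsto_log_atTop.comp (Real.tendsto_log_atTop.comp tendsto_natCast_atTop_atTop)
  have h2 : Filter.Tendsto (fun X : ℕ => Real.log (X : ℝ)) Filter.atTop Filter.atTop :=
    Real.tendsto_log_atTop.comp tendsto_natCast_atTop_atTop
  have h3 : ∀ᶠ y : ℝ in Filter.atTop, A * y ^ n ≤ Real.exp y := by
    have h4 := (Real.isLittleO_pow_exp_atTop (n := n)).def (show (0 : ℝ) < 1 / (|A| + 1) by positivity)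
    filter_upwards [h4, Filter.eventually_ge_atTop 0] with y hy hy0
    rw [Real.norm_of_nonneg (by positivity), Real.norm_of_nonneg (Real.exp_pos y).le,
      one_div, inv_mul_eq_div, le_div_iff₀ (by positivity)] at hy
    have h5 : A * y ^ n ≤ |A| * y ^ n := mul_le_mul_of_nonneg_right (le_abs_self A) (by positivity)
    have h6 : 0 ≤ y ^ n := by positivity
    linarith
  have h4 := (h1.eventually h3).and ((h1.eventually_ge_atTop 1).and (h2.eventually_ge_atTop 1))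
  obtain ⟨X₀, hX₀⟩ := Filter.eventually_atTop.1 h4
  refine ⟨X₀, fun X hX => ?_⟩
  obtain ⟨h5, h6, h7⟩ := hX₀ X hX
  have h8 : Real.exp (Real.log (Real.log X)) = Real.log X := Real.exp_log (by linarith)
  refine ⟨h6, h7, h8, ?_⟩
  rw [h8] at h5
  exact h5

theorem ts6_zB (B X : ℕ) (h1 : 1 ≤ Real.log X) :
    1 ≤ zB B X ∧ Real.log (zB B X) ≤ B * Real.log (Real.log X) := by
  have h3 : (1 : ℝ) ≤ Real.log X ^ B := one_le_pow₀ h1
  have h4 : 1 ≤ zB B X := by
    unfold zB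
    exact Nat.le_floor (by exact_mod_cast h3)
  refine ⟨h4, ?_⟩
  have h5 : ((zB B X : ℕ) : ℝ) ≤ Real.log X ^ B := by
    unfold zB
    exact Nat.floor_le (by positivity)
  have h6 : (0 : ℝ) < (zB B X : ℕ) := by exact_mod_cast h4
  have h7 := Real.log_le_log h6 h5
  rwa [Real.log_pow] at h7

theorem ts6_nu_le (σ : Finset ℕ) (p : ℕ) : nu σ p ≤ σ.card := card_image_le

open Classical in
theorem sieve_count (B C : ℕ) : ∃ X₀ : ℕ, ∀ X : ℕ, X₀ ≤ X → ∀ w k : ℕ, 2 * k ≤ w →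
    (k : ℝ) ≤ C * Real.log (Real.log X) → ∀ σ : Finset ℕ, σ.card ≤ k →
      (((Icc 1 X).filter (fun N => Rough w (zB B X) σ N)).card : ℝ) ≤ 8 * X * RR w (zB B X) σ := by
  set a : ℝ := (B : ℝ) with ha
  set c : ℝ := (C : ℝ) with hc
  have ha0 : 0 ≤ a := Nat.cast_nonneg _
  have hc0 : 0 ≤ c := Nat.cast_nonneg _
  obtain ⟨X₀, hX₀⟩ := ts6_ev (1 + (6 * c * (1 + a) + 2) * (a + c) + 2 * c * (1 + a)) 3
  refine ⟨X₀ + 1, fun X hX w k hkw hk σ hσ => ?_⟩
  obtain ⟨hL1, hl1, hexp, hA⟩ := hX₀ X (by omega)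
  set L : ℝ := Real.log (Real.log X) with hL
  obtain ⟨hz1, hzl⟩ := ts6_zB B X hl1
  set z := zB B X with hz
  have hzr : (1 : ℝ) ≤ z := by exact_mod_cast hz1
  have hX0 : 0 < (X : ℝ) := by
    have : 0 < X := by omega
    exact_mod_cast this
  set P := pr w z with hPdef
  have hPp : ∀ r ∈ P, r.Prime := fun r hr => (mem_pr.1 hr).2.2
  have hPw : ∀ r ∈ P, w < r := fun r hr => (mem_pr.1 hr).1
  set Ω : ℕ → Finset ℕ := fun p => σ.image (fun s => s % p) with hΩ
  have hΩlt : ∀ r ∈ P, ∀ x ∈ Ω r, x < r := by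
    intro r hr x hx
    obtain ⟨s, _, hs⟩ := mem_image.1 hx
    rw [← hs]
    exact Nat.mod_lt _ (hPp r hr).pos
  set G : ℝ := k * (1 + a * L) with hG
  have hk0 : (0 : ℝ) ≤ k := Nat.cast_nonneg _
  have hL0 : 0 ≤ L := by linarith
  have hG0 : 0 ≤ G := by positivity
  have hcard : ∀ r, ((Ω r).card : ℝ) ≤ k := fun r => by
    have h1 : (Ω r).card ≤ k := card_image_le.trans hσ
    exact_mod_cast h1
  have hg0 : ∀ r ∈ P, (0 : ℝ) ≤ ((Ω r).card : ℝ) / r := fun r _ => by positivity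
  have hgG : ∑ r ∈ P, ((Ω r).card : ℝ) / r ≤ G := by
    calc ∑ r ∈ P, ((Ω r).card : ℝ) / r ≤ ∑ r ∈ P, (k : ℝ) * (1 / r) := by
          refine sum_le_sum fun r hr => ?_
          rw [mul_one_div]
          exact div_le_div_of_nonneg_right (hcard r) (Nat.cast_nonneg r)
      _ = k * ∑ r ∈ P, 1 / (r : ℝ) := by rw [mul_sum]
      _ ≤ k * (1 + Real.log z) := mul_le_mul_of_nonneg_left (ts6_recip w z) hk0
      _ ≤ _ := mul_le_mul_of_nonneg_left (by linarith) hk0
  set m : ℕ := 2 * ⌈3 * G⌉₊ with hm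
  have hm1 : 6 * G ≤ m := by
    have := Nat.le_ceil (3 * G)
    rw [hm]; push_cast; linarith
  have hm2 : (m : ℝ) ≤ 6 * G + 2 := by
    have := (Nat.ceil_lt_add_one (show 0 ≤ 3 * G by positivity)).le
    rw [hm]; push_cast; linarith
  have hcount := ts6_main P hPp Ω hΩlt m (even_two_mul _) X
  have e1 : (Icc 1 X).filter (fun N => Rough w z σ N) =
      (Icc 1 X).filter (fun N => ∀ p ∈ P, N % p ∉ Ω p) := by
    refine filter_congr fun N _ => ?_
    exact ts6_rough w z σ N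
  rw [e1]
  have hRR : RR w z σ = ∏ r ∈ P, (1 - ((Ω r).card : ℝ) / r) := rfl
  have htr := ts6_trunc P (fun r => ((Ω r).card : ℝ) / r) hg0 G hgG m
  have hRlow : Real.exp (-(2 * G)) ≤ RR w z σ := by
    rw [hRR]
    calc Real.exp (-(2 * G)) ≤ Real.exp (∑ r ∈ P, -(2 * (((Ω r).card : ℝ) / r))) := by
          refine Real.exp_le_exp.2 ?_
          rw [sum_neg_distrib, ← mul_sum]
          linarith
      _ = ∏ r ∈ P, Real.exp (-(2 * (((Ω r).card : ℝ) / r))) := Real.exp_sum _ _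
      _ ≤ _ := by
          refine prod_le_prod (fun _ _ => (Real.exp_pos _).le) fun r hr => ?_
          have h1 := hg0 r hr
          have hr0 : (0 : ℝ) < r := by exact_mod_cast (hPp r hr).pos
          have h2 : ((Ω r).card : ℝ) / r ≤ 1 / 2 := by
            rw [div_le_iff₀ hr0]
            have h3 : 2 * k ≤ r := hkw.trans (hPw r hr).le
            have h4 : (2 : ℝ) * k ≤ r := by exact_mod_cast h3
            have := hcard r
            linarith
          set g := ((Ω r).card : ℝ) / r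
          rw [Real.exp_neg, inv_le_comm₀ (Real.exp_pos _) (by linarith)]
          have h3 := Real.add_one_le_exp (2 * g)
          refine le_trans ?_ h3
          rw [inv_le_comm₀ (by linarith) (by linarith), inv_eq_one_div, div_le_iff₀ (by linarith)]
          nlinarith
  have h4m : Real.exp (4 * G) / 4 ^ m ≤ Real.exp (-(2 * G)) := by
    rw [div_le_iff₀ (by positivity)]
    have h1 : Real.exp (6 * G) ≤ 4 ^ m := by
      calc Real.exp (6 * G) ≤ Real.exp m := Real.exp_le_exp.2 hm1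
        _ = Real.exp 1 ^ m := by rw [← Real.exp_nat_mul, mul_one]
        _ ≤ 4 ^ m := pow_le_pow_left₀ (Real.exp_pos 1).le (by linarith [Real.exp_one_lt_d9]) m
    calc Real.exp (4 * G) = Real.exp (-(2 * G)) * Real.exp (6 * G) := by
          rw [← Real.exp_add]
          congr 1
          ring
      _ ≤ _ := mul_le_mul_of_nonneg_left h1 (Real.exp_pos _).le
  set T : ℝ := z * (k + 1) with hT
  have hT1 : 1 ≤ T := by
    rw [hT]
    nlinarith
  have hlow := ts6_low P (fun r => ((Ω r).card : ℝ)) (fun r _ => Nat.cast_nonneg _) T hT1 m 1 (by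
    have h1 : (P.card : ℝ) ≤ z := by
      have h2 : P.card ≤ z := by
        calc P.card ≤ (Ioc w z).card := card_filter_le _ _
          _ = z - w := by rw [Nat.card_Ioc]
          _ ≤ z := Nat.sub_le _ _
      exact_mod_cast h2
    calc ∑ r ∈ P, ((Ω r).card : ℝ) ≤ ∑ r ∈ P, (k : ℝ) := sum_le_sum fun r _ => hcard r
      _ = P.card * k := by rw [sum_const, nsmul_eq_mul]
      _ ≤ z * k := mul_le_mul_of_nonneg_right h1 hk0
      _ ≤ 1 * T := by rw [hT]; nlinarith)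
  have hlast : T ^ m * Real.exp 1 ≤ X * Real.exp (-(2 * G)) := by
    have hlogT : Real.log T ≤ (a + c) * L := by
      rw [hT, Real.log_mul (by positivity) (by positivity)]
      have h1 : Real.log (k + 1) ≤ k := by
        have := Real.log_le_sub_one_of_pos (show (0 : ℝ) < k + 1 by positivity)
        linarith
      have h2 : (k : ℝ) ≤ c * L := hk
      have h3 : Real.log z ≤ a * L := hzl
      have h4 : (a + c) * L = a * L + c * L := by ring
      rw [h4]
      linarith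
    have hlogT0 : 0 ≤ Real.log T := Real.log_nonneg hT1
    have hGle : G ≤ c * (1 + a) * L ^ 2 := by
      rw [hG]
      calc (k : ℝ) * (1 + a * L) ≤ (c * L) * (1 + a * L) :=
            mul_le_mul_of_nonneg_right hk (by positivity)
        _ ≤ (c * L) * (L + a * L) := mul_le_mul_of_nonneg_left (by linarith) (by positivity)
        _ = _ := by ring
    have hfin : 1 + m * Real.log T + 2 * G ≤ Real.log X := by
      refine le_trans ?_ hA
      have h1 : (m : ℝ) * Real.log T ≤ (6 * (c * (1 + a) * L ^ 2) + 2) * ((a + c) * L) := by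
        refine mul_le_mul (by linarith) hlogT hlogT0 (by positivity)
      have h2 : (1 : ℝ) ≤ L ^ 3 := one_le_pow₀ hL1
      have h3 : L ≤ L ^ 3 := by
        calc L = L ^ 1 := (pow_one L).symm
          _ ≤ L ^ 3 := pow_le_pow_right₀ hL1 (by norm_num)
      have h4 : L ^ 2 ≤ L ^ 3 := pow_le_pow_right₀ hL1 (by norm_num)
      have h5 : (a + c) * L ≤ (a + c) * L ^ 3 := mul_le_mul_of_nonneg_left h3 (by positivity)
      have h6 : 2 * (c * (1 + a) * L ^ 2) ≤ 2 * (c * (1 + a) * L ^ 3) := by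
        have := mul_le_mul_of_nonneg_left h4 (show 0 ≤ c * (1 + a) by positivity)
        linarith
      have h7 : (6 * (c * (1 + a) * L ^ 2) + 2) * ((a + c) * L) =
          6 * (c * (1 + a)) * (a + c) * L ^ 3 + 2 * ((a + c) * L) := by ring
      have h8 : (1 + (6 * c * (1 + a) + 2) * (a + c) + 2 * c * (1 + a)) * L ^ 3 =
          L ^ 3 + 6 * (c * (1 + a)) * (a + c) * L ^ 3 + 2 * ((a + c) * L ^ 3) +
            2 * (c * (1 + a) * L ^ 3) := by ring
      rw [h8]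
      linarith
    have hT0 : 0 < T := by linarith
    calc T ^ m * Real.exp 1 = Real.exp (m * Real.log T) * Real.exp 1 := by
          rw [Real.exp_nat_mul, Real.exp_log hT0]
      _ = Real.exp (1 + m * Real.log T + 2 * G) * Real.exp (-(2 * G)) := by
          rw [← Real.exp_add, ← Real.exp_add]
          congr 1
          ring
      _ ≤ Real.exp (Real.log X) * Real.exp (-(2 * G)) :=
          mul_le_mul_of_nonneg_right (Real.exp_le_exp.2 hfin) (Real.exp_pos _).le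
      _ = _ := by rw [Real.exp_log hX0]
  have hXR : X * Real.exp (-(2 * G)) ≤ X * RR w z σ := mul_le_mul_of_nonneg_left hRlow hX0.le
  have htr2 : (X : ℝ) * ∑ d ∈ P.powerset with d.card ≤ m,
      ((-1 : ℝ) ^ d.card * ∏ r ∈ d, ((Ω r).card : ℝ) / r) ≤ X * (2 * RR w z σ) := by
    refine mul_le_mul_of_nonneg_left ?_ hX0.le
    rw [hRR] at hRlow ⊢
    linarith
  have hRpos : 0 ≤ X * RR w z σ := le_trans (by positivity) hXR
  have : (X : ℝ) * (2 * RR w z σ) = 2 * (X * RR w z σ) := by ring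
  have : 8 * (X : ℝ) * RR w z σ = 8 * (X * RR w z σ) := by ring
  linarith

end Pool.Agent.Lib.SW
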