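import Pool.Agent.Lib.SW.LG3

/-!
# TS-11: sums of two sparse sets of primes, sharpness

PROOF.  `z = ⌊(1/4) log log X⌋`, `W' = primorial z ≤ √(log X)`, `j` minimal with `2^j ≥ (log X)^(K+1)`, `W = 2^j W'` (`≤ 2 (log X)^(K+2)`), `φ(W)/W = φ(W')/W' = LG3V z`
(`z ≥ 2`), `φ(W) ≥ 2^j ≥ (log X)^(K+1)`.  `A` = primes `≤ δ X` congruent to `1` modulo `W`: `#A ≥ δ X/(2 φ(W) log X) ≥ X/(log X)^(K+4)` (`theta_ap` with large
savings).  `U` = a set of `u = min(φ(W), ⌈(1+δ) M φ(W) log X/X⌉)` reduced classes modulo `W`, `B` = primes `≤ X` in the classes of `U` and primes `≤ z`; by `theta_ap` each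
class has at least `(1 - δ/2) X/(φ(W) log X)` primes `≤ X` (`log p ≤ log X`); if `u = φ(W)` then `B` contains all
primes `≤ X`.  So `#B ≥ M`.  All sums `a + b`, `a ∈ A`, `b ∈ B`, `b > z`, lie in
`[1, (1+δ) X]` and in `u` classes modulo `W` (those of `1 + b`): their number is at most `u ((1+δ) X/W + 1)`.
The `n` with `2n = a + b` inject into the sums.
-/

set_option autoImplicit false

open Finset Pool.Agent.Lib.GT

namespace Pool.Agent.Lib.SW

theorem TS11_tot (j m : ℕ) (h : 2 ∣ m) : (2 ^ j * m).totient = 2 ^ j * m.totient := by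
  induction j with
  | zero => simp
  | succ j ih =>
    rw [pow_succ', mul_assoc, Nat.totient_mul_of_prime_of_dvd Nat.prime_two (h.mul_left _), ih,
      mul_assoc]

theorem TS11_class (W N : ℕ) (U : Finset ℕ) :
    ((range (N + 1)).filter (fun n => n % W ∈ U)).card ≤ U.card * (N / W + 1) := by
  have h : ((range (N + 1)).filter (fun n => n % W ∈ U)).card ≤
      (U ×ˢ range (N / W + 1)).card := by
    refine Finset.card_le_card_of_injOn (fun n => (n % W, n / W)) ?_ ?_
    · intro n hn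
      obtain ⟨h1, h2⟩ := mem_filter.1 (Finset.mem_coe.1 hn)
      refine Finset.mem_coe.2 (mem_product.2 ⟨h2, mem_range.2 ?_⟩)
      exact Nat.lt_succ_of_le (Nat.div_le_div_right (Nat.lt_succ_iff.1 (mem_range.1 h1)))
    · intro a _ b _ hab
      simp only [Prod.mk.injEq] at hab
      rw [← Nat.div_add_mod a W, ← Nat.div_add_mod b W, hab.1, hab.2]
  rwa [card_product, card_range] at h

theorem TS11_primes (W c Y : ℕ) (E : ℝ)
    (h : |∑ n ∈ (Icc 1 Y).filter (fun n => n.Prime ∧ n ≡ c [MOD W]), Real.log n -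
      (Y : ℝ) / W.totient| ≤ E) :
    (Y : ℝ) / W.totient - E ≤
      (((Icc 1 Y).filter (fun n => n.Prime ∧ n ≡ c [MOD W])).card : ℝ) * Real.log Y := by
  have h3 : ∑ n ∈ (Icc 1 Y).filter (fun n => n.Prime ∧ n ≡ c [MOD W]), Real.log n ≤
      (((Icc 1 Y).filter (fun n => n.Prime ∧ n ≡ c [MOD W])).card : ℝ) * Real.log Y := by
    rw [← nsmul_eq_mul, ← sum_const]
    refine sum_le_sum fun n hn => ?_
    obtain ⟨hn1, hn2⟩ := mem_Icc.1 (mem_filter.1 hn).1
    exact Real.log_le_log (by exact_mod_cast hn1) (by exact_mod_cast hn2)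
  have h8 := (abs_le.1 h).1
  linarith

theorem TS11_sums (X D W z : ℕ) (U A B : Finset ℕ)
    (hA : ∀ a ∈ A, a ≤ D ∧ a % W = 1 % W) (hB : ∀ b ∈ B, b ≤ X ∧ (b % W ∈ U ∨ b ≤ z)) :
    ((Icc 1 X).filter (fun n => ∃ a ∈ A, ∃ b ∈ B, a ≠ b ∧ a + b = 2 * n)).card ≤
      U.card * ((D + X) / W + 1) + (z + 1) * (D / W + 1) := by
  have hcov : (Icc 1 X).filter (fun n => ∃ a ∈ A, ∃ b ∈ B, a ≠ b ∧ a + b = 2 * n) ⊆
      (A ×ˢ range (z + 1)).image (fun p => (p.1 + p.2) / 2) ∪
      (Icc 1 X).filter (fun n => 2 * n ≤ D + X ∧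
        (2 * n) % W ∈ U.image (fun c => (c + 1) % W)) := by
    intro n hn
    obtain ⟨hn1, a, ha, b, hb, hab, hsum⟩ := mem_filter.1 hn
    obtain ⟨ha1, ha2⟩ := hA a ha
    obtain ⟨hb1, hb2⟩ := hB b hb
    rw [mem_union]
    rcases hb2 with hb2 | hb2
    · right
      refine mem_filter.2 ⟨hn1, by omega, mem_image.2 ⟨b % W, hb2, ?_⟩⟩
      rw [← hsum, add_comm a b, Nat.add_mod b a W, ha2, Nat.add_mod (b % W) 1 W, Nat.mod_mod]
    · left
      refine mem_image.2 ⟨(a, b), mem_product.2 ⟨ha, mem_range.2 (by omega)⟩, ?_⟩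
      simp only
      omega
  have h1 : ((A ×ˢ range (z + 1)).image (fun p => (p.1 + p.2) / 2)).card ≤
      (z + 1) * (D / W + 1) := by
    refine card_image_le.trans ?_
    rw [card_product, card_range, mul_comm]
    refine Nat.mul_le_mul_left _ ?_
    have h2 : A ⊆ (range (D + 1)).filter (fun n => n % W ∈ ({1 % W} : Finset ℕ)) := by
      intro a ha
      obtain ⟨ha1, ha2⟩ := hA a ha
      exact mem_filter.2 ⟨mem_range.2 (by omega), mem_singleton.2 ha2⟩
    refine (card_le_card h2).trans ((TS11_class W D _).trans ?_)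
    rw [card_singleton, one_mul]
  have h2 : ((Icc 1 X).filter (fun n => 2 * n ≤ D + X ∧
      (2 * n) % W ∈ U.image (fun c => (c + 1) % W))).card ≤ U.card * ((D + X) / W + 1) := by
    have h3 : ((Icc 1 X).filter (fun n => 2 * n ≤ D + X ∧
        (2 * n) % W ∈ U.image (fun c => (c + 1) % W))).card ≤
        ((range (D + X + 1)).filter
          (fun n => n % W ∈ U.image (fun c => (c + 1) % W))).card := by
      refine Finset.card_le_card_of_injOn (fun n => 2 * n) ?_ ?_
      · intro n hn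
        obtain ⟨hn1, hn2, hn3⟩ := mem_filter.1 (Finset.mem_coe.1 hn)
        refine Finset.mem_coe.2 (mem_filter.2 ⟨mem_range.2 ?_, hn3⟩)
        show 2 * n < D + X + 1
        omega
      · intro a _ b _ hab
        simp only at hab
        omega
    refine h3.trans ((TS11_class W (D + X) _).trans ?_)
    exact Nat.mul_le_mul_right _ card_image_le
  calc _ ≤ _ := (card_le_card hcov).trans (card_union_le _ _)
    _ ≤ (z + 1) * (D / W + 1) + U.card * ((D + X) / W + 1) := add_le_add h1 h2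
    _ = _ := add_comm _ _

theorem TS11_B (X W z : ℕ) (P : ℝ) (U : Finset ℕ) (hU : ∀ c ∈ U, c < W)
    (h : ∀ c ∈ U, P ≤ (((Icc 1 X).filter (fun n => n.Prime ∧ n ≡ c [MOD W])).card : ℝ)) :
    (U.card : ℝ) * P ≤
      (((Icc 1 X).filter (fun p => p.Prime ∧ (p % W ∈ U ∨ p ≤ z))).card : ℝ) := by
  have h1 : ((Icc 1 X).filter (fun p => p.Prime ∧ p % W ∈ U)).card =
      ∑ c ∈ U, (((Icc 1 X).filter (fun p => p.Prime ∧ p % W ∈ U)).filter
        (fun p => p % W = c)).card :=
    card_eq_sum_card_fiberwise (fun p hp => (mem_filter.1 (mem_coe.1 hp)).2.2)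
  have h2 : (U.card : ℝ) * P ≤
      (((Icc 1 X).filter (fun p => p.Prime ∧ p % W ∈ U)).card : ℝ) := by
    rw [h1]
    push_cast
    rw [← nsmul_eq_mul, ← sum_const]
    refine sum_le_sum fun c hc => (h c hc).trans ?_
    refine Nat.cast_le.2 (card_le_card fun p hp => ?_)
    obtain ⟨hp1, hp2, hp3⟩ := mem_filter.1 hp
    have hp4 : p % W = c := by
      have := hp3
      unfold Nat.ModEq at this
      rwa [Nat.mod_eq_of_lt (hU c hc)] at this
    exact mem_filter.2 ⟨mem_filter.2 ⟨hp1, hp2, by rw [hp4]; exact hc⟩, hp4⟩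
  refine h2.trans (Nat.cast_le.2 (card_le_card fun p hp => ?_))
  obtain ⟨hp1, hp2, hp3⟩ := mem_filter.1 hp
  exact mem_filter.2 ⟨hp1, hp2, Or.inl hp3⟩

/-- the final real inequality -/
theorem TS11_real (K : ℕ) {X L MM T M u φ W D z δ ε g : ℝ} (hε : 0 < ε) (hδ : 0 < δ)
    (hδ1 : δ ≤ 1) (hδε : δ ≤ ε / 14) (hg : g ≤ 1) (hX : 0 < X) (hL : 1 ≤ L)
    (hT : 1 ≤ T) (hTM : T ≤ MM) (hML : MM ≤ L) (hMM : MM ^ 2 ≤ 2 * L) (hM : X / L ^ K ≤ M)
    (hMε : 16 / ε ≤ M) (hLε : 16 / ε ≤ L) (hφ0 : 0 < φ)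
    (hφT : φ * T ≤ ε / 8 * (M * L))
    (hu : u ≤ (1 + δ) * (M * φ * L / X) + 1) (huφ : u ≤ φ) (hW : L ^ (K + 1) ≤ W)
    (hD0 : 0 ≤ D) (hD : D ≤ δ * X) (hz0 : 0 ≤ z) (hz : z + 1 ≤ MM) (hV : φ / W * T ≤ g + δ) :
    (u * ((D + X) / W + 1) + (z + 1) * (D / W + 1)) * T ≤ (g + ε) * M * L := by
  have hL0 : 0 < L := by linarith
  have hW0 : 0 < W := lt_of_lt_of_le (by positivity) hW
  have hM0 : 0 < M := lt_of_lt_of_le (by positivity) hM
  have hXW : X / W ≤ M / L := by
    rw [div_le_div_iff₀ hW0 hL0]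
    rw [div_le_iff₀ (by positivity)] at hM
    calc X * L ≤ (M * L ^ K) * L := mul_le_mul_of_nonneg_right hM hL0.le
      _ = M * L ^ (K + 1) := by ring
      _ ≤ M * W := mul_le_mul_of_nonneg_left hW hM0.le
  have hDW : D / W ≤ X / W := div_le_div_of_nonneg_right (by nlinarith) hW0.le
  have hDX : (D + X) / W ≤ (1 + δ) * (X / W) := by
    rw [← mul_div_assoc]
    exact div_le_div_of_nonneg_right (by linarith) hW0.le
  have hXW0 : 0 ≤ X / W := by positivity
  have h1 : u * ((D + X) / W) ≤ (1 + δ) ^ 2 * (M * L * (φ / W)) + 2 * (M / L) := by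
    calc u * ((D + X) / W) ≤ ((1 + δ) * (M * φ * L / X) + 1) * ((1 + δ) * (X / W)) :=
          mul_le_mul hu hDX (by positivity) (by positivity)
      _ = (1 + δ) ^ 2 * (M * L * (φ / W)) + (1 + δ) * (X / W) := by
          field_simp
      _ ≤ (1 + δ) ^ 2 * (M * L * (φ / W)) + 2 * (M / L) := by
          have : (1 + δ) * (X / W) ≤ 2 * (M / L) :=
            mul_le_mul (by linarith) hXW hXW0 (by norm_num)
          linarith
  have hT0 : 0 < T := by linarith
  have hLε' : 16 ≤ ε * L := by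
    rw [div_le_iff₀ hε] at hLε
    linarith
  have hMε' : 16 ≤ ε * M := by
    rw [div_le_iff₀ hε] at hMε
    linarith
  -- the five terms
  have e1 : (1 + δ) ^ 2 * (M * L * (φ / W)) * T ≤ (g + ε / 2) * (M * L) := by
    have h2 : (1 + δ) ^ 2 * (g + δ) ≤ g + ε / 2 := by
      have h3 : δ ^ 2 ≤ δ := by nlinarith
      have h4 : δ ^ 3 ≤ δ := by nlinarith
      have h5 : (2 * δ + δ ^ 2) * g ≤ (2 * δ + δ ^ 2) * 1 :=
        mul_le_mul_of_nonneg_left hg (by positivity)
      nlinarith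
    have hML0 : 0 ≤ M * L := by positivity
    calc (1 + δ) ^ 2 * (M * L * (φ / W)) * T = (1 + δ) ^ 2 * (φ / W * T) * (M * L) := by ring
      _ ≤ (1 + δ) ^ 2 * (g + δ) * (M * L) :=
          mul_le_mul_of_nonneg_right (mul_le_mul_of_nonneg_left hV (by positivity)) hML0
      _ ≤ (g + ε / 2) * (M * L) := mul_le_mul_of_nonneg_right h2 hML0
  have hML2 : 2 * M ≤ ε / 8 * (M * L) := by nlinarith
  have e2 : 2 * (M / L) * T ≤ ε / 8 * (M * L) := by
    refine le_trans ?_ hML2
    have h3 : M / L * T ≤ M := by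
      rw [div_mul_eq_mul_div, div_le_iff₀ hL0]
      exact mul_le_mul_of_nonneg_left (hTM.trans hML) hM0.le
    linarith
  have hzT : (z + 1) * T ≤ 2 * L := by
    calc (z + 1) * T ≤ MM * MM := mul_le_mul hz hTM hT0.le (by linarith)
      _ = MM ^ 2 := by ring
      _ ≤ 2 * L := hMM
  have e4 : (z + 1) * (M / L) * T ≤ ε / 8 * (M * L) := by
    refine le_trans ?_ hML2
    calc (z + 1) * (M / L) * T = ((z + 1) * T) * (M / L) := by ring
      _ ≤ (2 * L) * (M / L) := mul_le_mul_of_nonneg_right hzT (by positivity)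
      _ = 2 * M := by field_simp
  have e5 : (z + 1) * T ≤ ε / 8 * (M * L) := by
    refine hzT.trans ?_
    nlinarith
  have hz1 : 0 ≤ z + 1 := by linarith
  calc (u * ((D + X) / W + 1) + (z + 1) * (D / W + 1)) * T
      = u * ((D + X) / W) * T + u * T + (z + 1) * (D / W) * T + (z + 1) * T := by ring
    _ ≤ ((1 + δ) ^ 2 * (M * L * (φ / W)) + 2 * (M / L)) * T + φ * T +
        (z + 1) * (M / L) * T + (z + 1) * T := by
        have f1 := mul_le_mul_of_nonneg_right h1 hT0.le
        have f2 := mul_le_mul_of_nonneg_right huφ hT0.le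
        have f3 := mul_le_mul_of_nonneg_right
          (mul_le_mul_of_nonneg_left (hDW.trans hXW) hz1) hT0.le
        linarith
    _ ≤ (g + ε) * M * L := by linarith

theorem two_sets_sharp (K : ℕ) (ε : ℝ) (hε : 0 < ε) : ∃ X₀ : ℕ, ∀ X : ℕ, X₀ ≤ X →
    ∀ M : ℝ, X / (Real.log X) ^ K ≤ M → M ≤ (Nat.primeCounting X : ℝ) →
      ∃ A B : Finset ℕ, (∀ a ∈ A, a.Prime ∧ a ≤ X) ∧ (∀ b ∈ B, b.Prime ∧ b ≤ X) ∧
        X / (Real.log X) ^ (K + 4) ≤ (A.card : ℝ) ∧ M ≤ (B.card : ℝ) ∧
        (((Icc 1 X).filter (fun n => ∃ a ∈ A, ∃ b ∈ B, a ≠ b ∧ a + b = 2 * n)).card : ℝ) ≤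
          (Real.exp (-Real.eulerMascheroniConstant) + ε) * M * Real.log X /
            Real.log (Real.log (Real.log X)) := by
  obtain ⟨δ, hδ, hδ1, hδε⟩ : ∃ δ : ℝ, 0 < δ ∧ δ ≤ 1 ∧ δ ≤ ε / 14 :=
    ⟨min 1 (ε / 14), lt_min one_pos (by linarith), min_le_left _ _, min_le_right _ _⟩
  obtain ⟨C, hC, hθ⟩ := theta_ap (2 * K + 5) 1 one_pos
  have hm : ∀ᶠ X : ℕ in Filter.atTop, (Real.log (Real.log (Real.log X)) *
      LG3V ⌊1 / 4 * Real.log (Real.log X)⌋₊) ≤
      Real.exp (-Real.eulerMascheroniConstant) + δ := by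
    have h1 := (LG3_mertens (1 / 4) (by norm_num)).comp LG3_loglog
    exact (h1.eventually_lt_const (by linarith)).mono fun X hX => hX.le
  have hcast : Filter.Tendsto (fun X : ℕ => (X : ℝ)) Filter.atTop Filter.atTop :=
    tendsto_natCast_atTop_atTop
  obtain ⟨X₀, hX₀⟩ := Filter.eventually_atTop.1 (hm.and ((LG3_log3_ev 1).and
    ((LG3_log_ev 16).and ((LG3_log_ev (16 / ε)).and ((LG3_log_ev (8 / δ)).and
    ((LG3_log_ev (8 * C * 2 ^ (2 * K + 5))).and ((LG3_log_ev (8 * C / δ)).and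
    ((LG3_log_ev (16 * (2 * K + 3).factorial / ε)).and
    ((LG3_log_ev (16 * (K + 1).factorial / ε)).and ((LG3_loglog_ev 8).and
    ((hcast.eventually_ge_atTop (4 / δ ^ 2)).and (Filter.eventually_ge_atTop 16))))))))))))
  refine ⟨X₀, fun X hX M hM1 hM2 => ?_⟩
  obtain ⟨k1, k2, k3, k4, k5, k6, k7, k8, k9, k10, k11, k12⟩ := hX₀ X hX
  obtain ⟨L, hL⟩ : ∃ L, L = Real.log X := ⟨_, rfl⟩
  obtain ⟨MM, hMM⟩ : ∃ MM, MM = Real.log L := ⟨_, rfl⟩
  obtain ⟨T, hT⟩ : ∃ T, T = Real.log MM := ⟨_, rfl⟩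
  rw [← hL, ← hMM, ← hT] at k1
  rw [← hL, ← hMM, ← hT] at k2
  rw [← hL] at k3 k4 k5 k6 k7 k8 k9 hM1
  rw [← hL, ← hMM] at k10
  rw [← hL, ← hMM, ← hT]
  have hXr : (16 : ℝ) ≤ X := by exact_mod_cast k12
  have hX0 : (0 : ℝ) < X := by linarith
  have hL0 : 0 < L := by linarith
  obtain ⟨z, hz⟩ : ∃ z, z = ⌊1 / 4 * MM⌋₊ := ⟨_, rfl⟩
  rw [← hz] at k1
  have hzM : (z : ℝ) ≤ 1 / 4 * MM := by
    rw [hz]
    exact Nat.floor_le (by linarith)
  have hz2 : 2 ≤ z := by
    rw [hz]
    exact Nat.le_floor (by push_cast; linarith)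
  -- the modulus
  obtain ⟨W', hW'⟩ : ∃ W', W' = primorial z := ⟨_, rfl⟩
  have hW'0 : 0 < W' := by
    rw [hW']
    exact primorial_pos z
  have hW'L : (W' : ℝ) ≤ √L := by
    have h1 := LG3_four_pow (by linarith : 0 ≤ MM) hzM
    rw [← hW'] at h1
    refine h1.trans (le_of_eq ?_)
    rw [Real.exp_half, hMM, Real.exp_log (by linarith)]
  have hsL : √L ≤ L := by
    rw [Real.sqrt_le_left (by linarith)]
    nlinarith
  have h2W' : 2 ∣ W' := by
    rw [hW', Nat.prime_two.dvd_primorial_iff]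
    exact hz2
  obtain ⟨j', hj1, hj2⟩ := exists_nat_pow_near (one_le_pow₀ (by linarith : (1 : ℝ) ≤ L) :
    (1 : ℝ) ≤ L ^ (K + 1)) (by norm_num : (1 : ℝ) < 2)
  obtain ⟨W, hW⟩ : ∃ W, W = 2 ^ (j' + 1) * W' := ⟨_, rfl⟩
  have hW0 : 0 < W := by
    rw [hW]
    positivity
  have hWr : (0 : ℝ) < W := by exact_mod_cast hW0
  have htot : W.totient = 2 ^ (j' + 1) * W'.totient := by
    rw [hW, TS11_tot _ _ h2W']
  have hφW' : 0 < W'.totient := Nat.totient_pos.2 hW'0
  have hφ : 0 < W.totient := Nat.totient_pos.2 hW0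
  have hφ' : (0 : ℝ) < W.totient := by exact_mod_cast hφ
  have hφW : (W.totient : ℝ) ≤ W := by exact_mod_cast Nat.totient_le W
  have hWlow : L ^ (K + 1) ≤ W := by
    rw [hW]
    push_cast
    have h1 : (1 : ℝ) ≤ W' := by exact_mod_cast hW'0
    nlinarith [pow_pos (show (0 : ℝ) < 2 by norm_num) (j' + 1)]
  have hWup : (W : ℝ) ≤ 2 * L ^ (K + 2) := by
    rw [hW]
    push_cast
    have h1 : (2 : ℝ) ^ (j' + 1) ≤ 2 * L ^ (K + 1) := by
      rw [pow_succ]
      linarith
    calc (2 : ℝ) ^ (j' + 1) * W' ≤ (2 * L ^ (K + 1)) * L :=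
          mul_le_mul h1 (hW'L.trans hsL) (Nat.cast_nonneg _) (by positivity)
      _ = 2 * L ^ (K + 2) := by ring
  have hφup : (W.totient : ℝ) ≤ 2 * L ^ (K + 2) := hφW.trans hWup
  have hV : (W.totient : ℝ) / W = LG3V z := by
    rw [← LG3_V, htot, hW, ← hW']
    push_cast
    have h1 : (W' : ℝ) ≠ 0 := by exact_mod_cast hW'0.ne'
    field_simp
  have hWφ : 2 * C * W * W.totient ≤ 8 * C * L ^ (2 * K + 4) := by
    calc 2 * C * W * W.totient ≤ 2 * C * (2 * L ^ (K + 2)) * (2 * L ^ (K + 2)) := by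
          refine mul_le_mul (mul_le_mul_of_nonneg_left hWup (by positivity)) hφup hφ'.le
            (by positivity)
      _ = 8 * C * L ^ (2 * K + 4) := by ring
  -- the number of classes
  obtain ⟨m, hm'⟩ : ∃ m, m = ⌈(1 + δ) * (M * W.totient * L / X)⌉₊ := ⟨_, rfl⟩
  have hM0 : 0 < M := lt_of_lt_of_le (by positivity) hM1
  have hmle : (m : ℝ) ≤ (1 + δ) * (M * W.totient * L / X) + 1 := by
    rw [hm']
    exact (Nat.ceil_lt_add_one (by positivity)).le
  have hmge : (1 + δ) * (M * W.totient * L / X) ≤ m := by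
    rw [hm']
    exact Nat.le_ceil _
  obtain ⟨U, hU1, hU2⟩ := exists_subset_card_eq
    (show min W.totient m ≤ ((range W).filter (fun x => W.Coprime x)).card from
      (min_le_left _ _).trans (le_of_eq (Nat.totient_eq_card_coprime W)))
  have hUlt : ∀ c ∈ U, c < W := fun c hc => mem_range.1 (mem_filter.1 (hU1 hc)).1
  have hUco : ∀ c ∈ U, Nat.Coprime c W := fun c hc => (mem_filter.1 (hU1 hc)).2.symm
  have huφ : (U.card : ℝ) ≤ W.totient := by
    rw [hU2]
    exact_mod_cast min_le_left _ _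
  have hum : (U.card : ℝ) ≤ (1 + δ) * (M * W.totient * L / X) + 1 := by
    refine le_trans ?_ hmle
    rw [hU2]
    exact_mod_cast min_le_right _ _
  -- the range of A
  obtain ⟨D, hD⟩ : ∃ D, D = ⌊δ * X⌋₊ := ⟨_, rfl⟩
  have hDle : (D : ℝ) ≤ δ * X := by
    rw [hD]
    exact Nat.floor_le (by positivity)
  have h2δ : 2 ≤ δ * √X := by
    have h1 : 2 / δ ≤ √X := by
      rw [Real.le_sqrt (by positivity) hX0.le, div_pow]
      norm_num
      exact k11
    rw [div_le_iff₀ hδ] at h1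
    linarith
  have hsX : 1 ≤ √X := by
    rw [Real.one_le_sqrt]
    linarith
  have hsXX : √X * √X = X := Real.mul_self_sqrt hX0.le
  have hDge : δ * X / 2 ≤ D := by
    have h1 := Nat.lt_floor_add_one (δ * X)
    rw [← hD] at h1
    have h2 : 2 ≤ δ * X := by nlinarith
    linarith
  have hDs : √X ≤ D := by
    refine le_trans ?_ hDge
    nlinarith
  have hD1 : (1 : ℝ) ≤ D := hsX.trans hDs
  have hDX : (D : ℝ) ≤ X := by nlinarith
  have hDX' : D ≤ X := by exact_mod_cast hDX
  have hlD : L / 2 ≤ Real.log D := by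
    rw [hL, ← Real.log_sqrt (by linarith)]
    exact Real.log_le_log (by linarith) hDs
  have hlD' : Real.log D ≤ L := by
    rw [hL]
    exact Real.log_le_log (by linarith) hDX
  have hD2 : (2 : ℝ) ≤ D := by
    have h1 : (4 : ℝ) ≤ √X := by
      rw [Real.le_sqrt (by norm_num) (by linarith)]
      linarith
    linarith
  refine ⟨(Icc 1 D).filter (fun n => n.Prime ∧ n ≡ 1 [MOD W]),
    (Icc 1 X).filter (fun p => p.Prime ∧ (p % W ∈ U ∨ p ≤ z)), ?_, ?_, ?_, ?_, ?_⟩
  · intro a ha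
    obtain ⟨ha1, ha2, -⟩ := mem_filter.1 ha
    exact ⟨ha2, (mem_Icc.1 ha1).2.trans hDX'⟩
  · intro b hb
    obtain ⟨hb1, hb2, -⟩ := mem_filter.1 hb
    exact ⟨hb2, (mem_Icc.1 hb1).2⟩
  · -- many primes in A
    have h1 := hθ W 1 hW0 (Nat.coprime_one_left W) D hD2
    rw [Nat.floor_natCast, Real.rpow_one] at h1
    have h2 := TS11_primes W 1 D _ h1
    generalize (((Icc 1 D).filter (fun n => n.Prime ∧ n ≡ 1 [MOD W])).card : ℝ) = c at *
    generalize hl : Real.log (D : ℝ) = l at *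
    have hl0 : 0 < l := by linarith
    have h3 : C * W * D / l ^ (2 * K + 5) ≤ D / W.totient / 2 := by
      rw [div_div, div_le_div_iff₀ (by positivity) (by positivity)]
      have h4 : 2 * C * W * W.totient ≤ l ^ (2 * K + 5) := by
        refine hWφ.trans ?_
        have h5 : (L / 2) ^ (2 * K + 5) ≤ l ^ (2 * K + 5) :=
          pow_le_pow_left₀ (by linarith) hlD _
        refine le_trans ?_ h5
        rw [div_pow, le_div_iff₀ (by positivity)]
        calc 8 * C * L ^ (2 * K + 4) * 2 ^ (2 * K + 5) =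
              (8 * C * 2 ^ (2 * K + 5)) * L ^ (2 * K + 4) := by ring
          _ ≤ L * L ^ (2 * K + 4) := mul_le_mul_of_nonneg_right k6 (by positivity)
          _ = L ^ (2 * K + 5) := by ring
      have hD0 : (0 : ℝ) ≤ D := by linarith
      calc C * W * D * (W.totient * 2) = (2 * C * W * W.totient) * D := by ring
        _ ≤ l ^ (2 * K + 5) * D := mul_le_mul_of_nonneg_right h4 hD0
        _ = D * l ^ (2 * K + 5) := by ring
    have hc0 : 0 ≤ c * l := by
      have : 0 ≤ (D : ℝ) / W.totient := by positivity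
      linarith
    have hc1 : 0 ≤ c := nonneg_of_mul_nonneg_left hc0 hl0
    have h4 : D / W.totient / 2 ≤ c * L := by
      have h5 : c * l ≤ c * L := mul_le_mul_of_nonneg_left hlD' hc1
      linarith
    have h5 : δ * X / 2 / (2 * L ^ (K + 2)) / 2 ≤ c * L := by
      refine le_trans ?_ h4
      refine div_le_div_of_nonneg_right ?_ (by norm_num)
      exact div_le_div₀ (by linarith) hDge hφ' hφup
    rw [div_le_iff₀ (by positivity)]
    rw [div_div, div_div, div_le_iff₀ (by positivity)] at h5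
    have h6 : 8 ≤ δ * L := by
      rw [div_le_iff₀ hδ] at k5
      linarith
    have h7 : 8 * X ≤ 8 * (c * L ^ (K + 4)) := by
      calc 8 * X ≤ δ * L * X := mul_le_mul_of_nonneg_right h6 hX0.le
        _ = (δ * X) * L := by ring
        _ ≤ (c * L * (2 * (2 * L ^ (K + 2) * 2))) * L := mul_le_mul_of_nonneg_right h5 hL0.le
        _ = 8 * (c * L ^ (K + 4)) := by ring
    linarith
  · -- many primes in B
    by_cases hcase : m ≤ W.totient
    · have hu : (U.card : ℝ) = m := by
        rw [hU2, min_eq_right hcase]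
      have hP : ∀ c ∈ U, (1 - δ / 2) * (X / (W.totient * L)) ≤
          (((Icc 1 X).filter (fun n => n.Prime ∧ n ≡ c [MOD W])).card : ℝ) := by
        intro c hc
        have h1 := hθ W c hW0 (hUco c hc) X (by linarith)
        rw [Nat.floor_natCast, Real.rpow_one] at h1
        have h2 := TS11_primes W c X _ h1
        rw [← hL] at h2
        generalize (((Icc 1 X).filter (fun n => n.Prime ∧ n ≡ c [MOD W])).card : ℝ) = c' at *
        have h3 : C * W * X / L ^ (2 * K + 5) ≤ δ / 2 * (X / W.totient) := by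
          rw [← mul_div_assoc, div_le_div_iff₀ (by positivity) hφ']
          have h4 : 2 * C * W * W.totient ≤ δ * L ^ (2 * K + 5) := by
            refine hWφ.trans ?_
            rw [div_le_iff₀ hδ] at k7
            calc 8 * C * L ^ (2 * K + 4) ≤ (L * δ) * L ^ (2 * K + 4) :=
                  mul_le_mul_of_nonneg_right k7 (by positivity)
              _ = δ * L ^ (2 * K + 5) := by ring
          calc C * W * X * W.totient = (2 * C * W * W.totient) * (X / 2) := by ring
            _ ≤ (δ * L ^ (2 * K + 5)) * (X / 2) :=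
                mul_le_mul_of_nonneg_right h4 (by positivity)
            _ = δ / 2 * X * L ^ (2 * K + 5) := by ring
        have h4 : (1 - δ / 2) * (X / (W.totient * L)) * L = (1 - δ / 2) * (X / W.totient) := by
          field_simp
        have h5 : (1 - δ / 2) * (X / (W.totient * L)) * L ≤ c' * L := by
          rw [h4]
          linarith
        exact le_of_mul_le_mul_right h5 hL0
      refine le_trans ?_ (TS11_B X W z _ U hUlt hP)
      rw [hu]
      have h1 : (1 + δ) * (M * W.totient * L / X) * ((1 - δ / 2) * (X / (W.totient * L))) =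
          (1 + δ) * (1 - δ / 2) * M := by
        field_simp
      have h2 : 0 ≤ (1 - δ / 2) * (X / (W.totient * L)) := by
        have : 0 ≤ 1 - δ / 2 := by linarith
        positivity
      have h3 : 1 ≤ (1 + δ) * (1 - δ / 2) := by nlinarith
      calc M ≤ (1 + δ) * (1 - δ / 2) * M := by nlinarith
        _ = _ := h1.symm
        _ ≤ _ := mul_le_mul_of_nonneg_right hmge h2
    · refine hM2.trans ?_
      have hU3 : U = (range W).filter (fun x => W.Coprime x) := by
        refine eq_of_subset_of_card_le hU1 ?_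
        rw [hU2, min_eq_left (by omega), Nat.totient_eq_card_coprime]
      rw [← Nat.primesLE_card_eq_primeCounting X]
      refine Nat.cast_le.2 (card_le_card fun p hp => ?_)
      have hp' := Nat.mem_primesLE.mp hp
      refine mem_filter.2 ⟨mem_Icc.2 ⟨hp'.2.one_lt.le, hp'.1⟩, hp'.2, ?_⟩
      by_cases hpz : p ≤ z
      · exact Or.inr hpz
      · left
        rw [hU3, mem_filter, mem_range]
        refine ⟨Nat.mod_lt _ hW0, ?_⟩
        have h1 : Nat.Coprime W p := by
          rw [hW]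
          refine Nat.Coprime.mul_left ?_ ?_
          · refine Nat.Coprime.pow_left _ ?_
            rw [Nat.coprime_primes Nat.prime_two hp'.2]
            omega
          · rw [Nat.coprime_comm, Nat.Prime.coprime_iff_not_dvd hp'.2, hW',
              hp'.2.dvd_primorial_iff]
            exact hpz
        rw [Nat.Coprime, Nat.gcd_comm, ← Nat.gcd_rec]
        exact h1
  · -- few sums
    have h1 := TS11_sums X D W z U ((Icc 1 D).filter (fun n => n.Prime ∧ n ≡ 1 [MOD W]))
      ((Icc 1 X).filter (fun p => p.Prime ∧ (p % W ∈ U ∨ p ≤ z)))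
      (fun a ha => ⟨(mem_Icc.1 (mem_filter.1 ha).1).2, (mem_filter.1 ha).2.2⟩)
      (fun b hb => ⟨(mem_Icc.1 (mem_filter.1 hb).1).2, (mem_filter.1 hb).2.2⟩)
    have h2 := (Nat.cast_le (α := ℝ)).2 h1
    push_cast at h2
    have hT0 : 0 < T := by linarith
    have hML : MM ≤ L := by
      rw [hMM]
      exact (Real.log_le_sub_one_of_pos (by linarith)).trans (by linarith)
    have hTM : T ≤ MM := by
      rw [hT]
      exact (Real.log_le_sub_one_of_pos (by linarith)).trans (by linarith)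
    have hMM2 : MM ^ 2 ≤ 2 * L := by
      have h3 := LG3_pow 2 (by linarith : (1 : ℝ) ≤ L)
      rw [← hMM] at h3
      norm_num [Nat.factorial] at h3
      exact h3
    have hpow : ∀ i : ℕ, L ^ i ≤ (i.factorial : ℝ) * X := by
      intro i
      have h3 := LG3_pow i (by linarith : (1 : ℝ) ≤ X)
      rwa [← hL] at h3
    have hMε : 16 / ε ≤ M := by
      refine le_trans ?_ hM1
      rw [div_le_div_iff₀ hε (by positivity)]
      rw [div_le_iff₀ hε] at k9
      have h3 := hpow (K + 1)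
      have hf : (0 : ℝ) < ((K + 1).factorial : ℝ) := by exact_mod_cast Nat.factorial_pos _
      have h4 : ((K + 1).factorial : ℝ) * (16 * L ^ K) ≤ ((K + 1).factorial : ℝ) * (X * ε) := by
        calc ((K + 1).factorial : ℝ) * (16 * L ^ K) = (16 * (K + 1).factorial) * L ^ K := by ring
          _ ≤ (L * ε) * L ^ K := mul_le_mul_of_nonneg_right k9 (by positivity)
          _ = L ^ (K + 1) * ε := by ring
          _ ≤ (((K + 1).factorial : ℝ) * X) * ε := mul_le_mul_of_nonneg_right h3 hε.le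
          _ = ((K + 1).factorial : ℝ) * (X * ε) := by ring
      exact le_of_mul_le_mul_left h4 hf
    have hφT : (W.totient : ℝ) * T ≤ ε / 8 * (M * L) := by
      have h3 := hpow (2 * K + 3)
      rw [div_le_iff₀ hε] at k8
      have hf : (0 : ℝ) < ((2 * K + 3).factorial : ℝ) := by exact_mod_cast Nat.factorial_pos _
      have h4 : 16 * L ^ (2 * K + 2) ≤ ε * X := by
        have h5 : ((2 * K + 3).factorial : ℝ) * (16 * L ^ (2 * K + 2)) ≤
            ((2 * K + 3).factorial : ℝ) * (ε * X) := by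
          calc ((2 * K + 3).factorial : ℝ) * (16 * L ^ (2 * K + 2)) =
                (16 * (2 * K + 3).factorial) * L ^ (2 * K + 2) := by ring
            _ ≤ (L * ε) * L ^ (2 * K + 2) := mul_le_mul_of_nonneg_right k8 (by positivity)
            _ = L ^ (2 * K + 3) * ε := by ring
            _ ≤ (((2 * K + 3).factorial : ℝ) * X) * ε := mul_le_mul_of_nonneg_right h3 hε.le
            _ = ((2 * K + 3).factorial : ℝ) * (ε * X) := by ring
        exact le_of_mul_le_mul_left h5 hf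
      have h5 : (W.totient : ℝ) * T ≤ 2 * L ^ (K + 2) * L :=
        mul_le_mul hφup (hTM.trans hML) hT0.le (by positivity)
      refine h5.trans ?_
      have h6 : X / L ^ K * L ≤ M * L := mul_le_mul_of_nonneg_right hM1 hL0.le
      refine le_trans ?_ (mul_le_mul_of_nonneg_left h6 (by positivity))
      have h7 : ε / 8 * (X / L ^ K * L) = ε * X * L / (8 * L ^ K) := by
        field_simp
      rw [h7, le_div_iff₀ (by positivity)]
      calc 2 * L ^ (K + 2) * L * (8 * L ^ K) = (16 * L ^ (2 * K + 2)) * L := by ring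
        _ ≤ ε * X * L := mul_le_mul_of_nonneg_right h4 hL0.le
    rw [le_div_iff₀ hT0]
    refine le_trans (mul_le_mul_of_nonneg_right ?_ hT0.le)
      (TS11_real K (X := X) (L := L) (MM := MM) (T := T) (M := M) (u := U.card)
        (φ := W.totient) (W := W) (D := D) (z := z) (δ := δ) (ε := ε)
        (g := Real.exp (-Real.eulerMascheroniConstant)) hε hδ hδ1 hδε LG3_gamma hX0
        (by linarith) k2 hTM hML hMM2 hM1 hMε k4 hφ' hφT hum huφ hWlow
        (Nat.cast_nonneg _) hDle (Nat.cast_nonneg _) (by linarith) ?_)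
    · refine h2.trans ?_
      have h3 : (((D + X) / W : ℕ) : ℝ) ≤ ((D : ℝ) + X) / W := by
        refine (Nat.cast_div_le).trans (le_of_eq ?_)
        push_cast
        ring
      have h4 : ((D / W : ℕ) : ℝ) ≤ (D : ℝ) / W := Nat.cast_div_le
      have h5 : (0 : ℝ) ≤ U.card := Nat.cast_nonneg _
      have h6 : (0 : ℝ) ≤ (z : ℝ) + 1 := by positivity
      exact add_le_add (mul_le_mul_of_nonneg_left (by linarith) h5)
        (mul_le_mul_of_nonneg_left (by linarith) h6)
    · rw [hV, mul_comm]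
      exact k1

end Pool.Agent.Lib.SW
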