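import Pool.Agent.Lib.SW.TS.TS8
import Pool.Agent.Lib.SW.TS.TS5
import Pool.Agent.Lib.SW.LG3

/-!
# TS-9: no integer outside a set of size `X/(log X)^K` has too many representations

PROOFS.  `large_FF`: Markov for the `k`-th moment, `k = ⌊C log log X⌋`: `#{N : FF ≥ (1+4ε) Vw #S} ≤ 8X (e^(2ε)/(1+4ε))^k`, and
`e^(2ε) ≤ (1-ε)(1+4ε)` for `ε ≤ 1/8`, `(1-ε)^k ≤ e^(-εk)`, `C ≥ (K+2)/ε + 1`.
`upper_all`: apply everything with `2X` in place of `X` (`S ⊆ Icc 1 X ⊆ Icc 1 (2X)`, `#S ≥ 2X/(log 2X)^(K+1)`).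
`rS S N = ∑_{s < N} lam (N-s)`; the difference to `(1/Vz z) ∑_{s ∈ S, s < N} rz z (N-s)` has second moment at most
`(C · 2X/(log 2X)^A)² #S` (`Transfer.conv_l2` as in `E2_bound` of SP3, with `fourier_rz A`, `A = K + 1`), so it is `≥ ε #S` for at most
`X/(2 (log X)^K)` integers `N`.  `rz z (N-s) ≤ 1[Rough w z {s} N]` for `s < N`, so the sum is at most `FF w z S N / Vz z ≤
(1+4ε) Vw w z #S / Vz z = (1+4ε) #S / Vz w` (`Vz z = Vz w · Vw w z`, `w ≤ z`) and `1/Vz w ≤ (1+ε) e^γ log log log X`, `w = ⌈C' log log X⌉`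
(`LG3_mertens`, `LG3_V`; ceiling instead of floor: `Vz` is decreasing and `⌈C' y⌉ ≤ ⌊(C'+1) y⌋`).
-/

set_option autoImplicit false

open Finset Pool.Agent.Lib.GT

namespace Pool.Agent.Lib.SW

/-! ### Auxiliary lemmas -/

/-- Markov's inequality for the `k`-th moment -/
theorem TS9_markov (I : Finset ℕ) (F : ℕ → ℝ) (hF : ∀ N, 0 ≤ F N) (t M : ℝ) (ht : 0 < t) (k : ℕ)
    (h : ∑ N ∈ I, F N ^ k ≤ M) : ((I.filter (fun N => t ≤ F N)).card : ℝ) * t ^ k ≤ M := by
  refine le_trans ?_ h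
  rw [← nsmul_eq_mul, ← Finset.sum_const]
  calc ∑ _N ∈ I.filter (fun N => t ≤ F N), t ^ k
      ≤ ∑ N ∈ I.filter (fun N => t ≤ F N), F N ^ k := by
        apply Finset.sum_le_sum
        intro N hN
        exact pow_le_pow_left₀ ht.le (Finset.mem_filter.mp hN).2 k
    _ ≤ ∑ N ∈ I, F N ^ k := Finset.sum_le_sum_of_subset_of_nonneg (Finset.filter_subset _ _)
        (fun N _ _ => pow_nonneg (hF N) k)

theorem TS9_exp (ε : ℝ) (h0 : 0 < ε) (h1 : ε ≤ 1 / 8) :
    Real.exp (2 * ε) ≤ (1 - ε) * (1 + 4 * ε) := by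
  have h := Real.abs_exp_sub_one_sub_id_le (x := 2 * ε) (by
    rw [abs_of_nonneg (by linarith)]; linarith)
  have h2 := le_abs_self (Real.exp (2 * ε) - 1 - 2 * ε)
  have h3 : ε * ε ≤ 1 / 8 * ε := mul_le_mul_of_nonneg_right h1 h0.le
  nlinarith

theorem TS9_Vw_pos (w z : ℕ) : 0 < Vw w z := by
  unfold Vw
  apply Finset.prod_pos
  intro p hp
  rw [mem_pr] at hp
  have h2 : (2 : ℝ) ≤ p := by exact_mod_cast hp.2.2.two_le
  have h3 : 1 / (p : ℝ) ≤ 1 / 2 := one_div_le_one_div_of_le (by norm_num) h2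
  linarith

theorem TS9_Vw_le (w z : ℕ) : Vw w z ≤ 1 := by
  unfold Vw
  apply Finset.prod_le_one
  · intro p hp
    rw [mem_pr] at hp
    have h2 : (2 : ℝ) ≤ p := by exact_mod_cast hp.2.2.two_le
    have h3 : 1 / (p : ℝ) ≤ 1 / 2 := one_div_le_one_div_of_le (by norm_num) h2
    linarith
  · intro p _
    have h3 : 0 ≤ 1 / (p : ℝ) := by positivity
    linarith

theorem TS9_LG3V_pos (z : ℕ) : 0 < LG3V z := by
  unfold LG3V
  apply Finset.prod_pos
  intro p hp
  rw [Finset.mem_filter] at hp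
  have h2 : (2 : ℝ) ≤ p := by exact_mod_cast hp.2.two_le
  have h3 : 1 / (p : ℝ) ≤ 1 / 2 := one_div_le_one_div_of_le (by norm_num) h2
  linarith

theorem TS9_V_mul (w z : ℕ) (h : w ≤ z) : LG3V z = LG3V w * Vw w z := by
  unfold LG3V Vw
  rw [← Finset.prod_union]
  · apply Finset.prod_congr _ (fun _ _ => rfl)
    ext p
    rw [Finset.mem_union, Finset.mem_filter, Finset.mem_filter, Finset.mem_range,
      Finset.mem_range, mem_pr]
    constructor
    · rintro ⟨h1, h2⟩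
      by_cases h3 : p < w + 1
      · exact Or.inl ⟨h3, h2⟩
      · exact Or.inr ⟨by omega, by omega, h2⟩
    · rintro (⟨h1, h2⟩ | ⟨h1, h2, h3⟩)
      · exact ⟨by omega, h2⟩
      · exact ⟨by omega, h3⟩
  · rw [Finset.disjoint_left]
    intro p hp hp'
    rw [Finset.mem_filter, Finset.mem_range] at hp
    rw [mem_pr] at hp'
    omega

theorem TS9_V_anti {w z : ℕ} (h : w ≤ z) : LG3V z ≤ LG3V w := by
  rw [TS9_V_mul w z h]
  exact mul_le_of_le_one_right (TS9_LG3V_pos w).le (TS9_Vw_le w z)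

theorem TS9_Vz (z : ℕ) : Vz z = LG3V z := LG3_V z

open Classical in
theorem TS9_sum_rz (w z N : ℕ) (S : Finset ℕ) :
    ∑ s ∈ S.filter (fun s => s < N), rz z (N - s) ≤ (FF w z S N : ℝ) := by
  unfold FF
  rw [Finset.card_filter, Finset.sum_filter]
  push_cast
  apply Finset.sum_le_sum
  intro s _
  by_cases hs : s < N
  · rw [if_pos hs]
    unfold rz
    by_cases h1 : Nat.Coprime (N - s) (primorial z)
    · have h2 : Rough w z {s} N := by
        intro s' hs' p hp hd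
        rw [Finset.mem_singleton] at hs'
        subst hs'
        rw [mem_pr] at hp
        have hd' : p ∣ N - s' := by
          rw [← Int.natCast_dvd_natCast, Nat.cast_sub hs.le]
          exact hd
        have hd2 : p ∣ primorial z := (hp.2.2.dvd_primorial_iff).mpr hp.2.1
        exact Nat.not_coprime_of_dvd_of_dvd hp.2.2.one_lt hd' hd2 h1
      rw [if_pos h1, if_pos h2]
    · rw [if_neg h1]
      split_ifs
      · exact zero_le_one
      · exact le_rfl
  · rw [if_neg hs]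
    split_ifs
    · exact zero_le_one
    · exact le_rfl

/-- second moment of the convolution with a function with small Fourier transform -/
theorem TS9_conv (X : ℕ) (S' : Finset ℕ) (hS' : S' ⊆ Icc 1 X) (f : ℕ → ℝ) (B : ℝ)
    (hB : ∀ α : ℝ, ‖∑ n ∈ Icc 1 (2 * X), ((f n : ℝ) : ℂ) * e (n * α)‖ ≤ B) :
    ∑ N ∈ Icc 1 (2 * X), (∑ s ∈ S'.filter (fun s => s < N), f (N - s)) ^ 2 ≤
      B ^ 2 * S'.card := by
  classical
  set u : ℕ → ℝ := fun n => if 1 ≤ n ∧ n ≤ 2 * X then f n else 0 with hu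
  set v : ℕ → ℝ := fun n => if n ∈ S' then 1 else 0 with hv
  have h := Transfer.conv_l2 (X := 2 * X) (u := u) (v := v) (S := B)
    (fun n hn => by rw [hu]; simp only; rw [if_neg (by omega)])
    (fun n hn => by
      rw [hv]; simp only; rw [if_neg]
      intro h
      have := Finset.mem_Icc.mp (hS' h)
      omega)
    (fun α => by
      have h1 : ∑ n ∈ range (2 * X + 1), (u n : ℂ) * e (α * n) =
          ∑ n ∈ Icc 1 (2 * X), ((f n : ℝ) : ℂ) * e (n * α) := by
        symm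
        have h2 : ∑ n ∈ Icc 1 (2 * X), ((f n : ℝ) : ℂ) * e (n * α) =
            ∑ n ∈ Icc 1 (2 * X), (u n : ℂ) * e (α * n) := by
          apply Finset.sum_congr rfl
          intro n hn
          rw [Finset.mem_Icc] at hn
          rw [hu]
          simp only
          rw [if_pos hn, mul_comm (n : ℝ) α]
        rw [h2]
        apply Finset.sum_subset
        · intro n hn
          rw [Finset.mem_Icc] at hn
          rw [Finset.mem_range]
          omega
        · intro n hn hn'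
          rw [Finset.mem_range] at hn
          rw [Finset.mem_Icc] at hn'
          rw [hu]
          simp only
          rw [if_neg (by omega)]
          simp
      rw [h1]
      exact hB α)
  have h3 : ∑ n ∈ range (2 * X + 1), (v n) ^ 2 = S'.card := by
    rw [hv]
    simp only
    have : ∀ n : ℕ, (if n ∈ S' then (1 : ℝ) else 0) ^ 2 = if n ∈ S' then 1 else 0 := by
      intro n
      split_ifs <;> simp
    rw [Finset.sum_congr rfl (fun n _ => this n), ← Finset.sum_filter, Finset.sum_const,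
      nsmul_eq_mul, mul_one]
    congr 2
    ext n
    rw [Finset.mem_filter, Finset.mem_range]
    constructor
    · exact fun h => h.2
    · intro h
      have := Finset.mem_Icc.mp (hS' h)
      exact ⟨by omega, h⟩
  rw [h3] at h
  refine le_trans ?_ h
  have h4 : ∀ N ∈ Icc 1 (2 * X), ∑ x ∈ range (N + 1), u x * v (N - x) =
      ∑ s ∈ S'.filter (fun s => s < N), f (N - s) := by
    intro N hN
    rw [Finset.mem_Icc] at hN
    rw [← Finset.sum_range_reflect]
    have h5 : ∀ j ∈ range (N + 1), u (N + 1 - 1 - j) * v (N - (N + 1 - 1 - j)) =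
        if j ∈ S' then u (N - j) else 0 := by
      intro j hj
      rw [Finset.mem_range] at hj
      rw [show N + 1 - 1 - j = N - j by omega, show N - (N - j) = j by omega, hv]
      simp only
      split_ifs <;> simp
    rw [Finset.sum_congr rfl h5, ← Finset.sum_filter]
    symm
    have h6 : ∀ s ∈ S'.filter (fun s => s < N), f (N - s) = u (N - s) := by
      intro s hs
      rw [Finset.mem_filter] at hs
      rw [hu]
      simp only
      rw [if_pos ⟨by omega, by omega⟩]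
    rw [Finset.sum_congr rfl h6]
    apply Finset.sum_subset
    · intro s hs
      rw [Finset.mem_filter] at hs ⊢
      rw [Finset.mem_range]
      exact ⟨by omega, hs.1⟩
    · intro s hs hs'
      rw [Finset.mem_filter, Finset.mem_range] at hs
      rw [Finset.mem_filter] at hs'
      have : N - s = 0 := by
        by_contra h0
        exact hs' ⟨hs.2, by omega⟩
      rw [this, hu]
      simp
  have h7 : ∑ N ∈ Icc 1 (2 * X), (∑ s ∈ S'.filter (fun s => s < N), f (N - s)) ^ 2 =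
      ∑ N ∈ Icc 1 (2 * X), (∑ x ∈ range (N + 1), u x * v (N - x)) ^ 2 := by
    apply Finset.sum_congr rfl
    intro N hN
    rw [h4 N hN]
  rw [h7]
  apply Finset.sum_le_sum_of_subset_of_nonneg
  · intro N hN
    rw [Finset.mem_Icc] at hN
    rw [Finset.mem_range]
    omega
  · intro N _ _
    positivity

/-- a constant multiple of `log x` plus one is eventually at most `x` -/
theorem TS9_log_small (C : ℝ) (hC : 0 ≤ C) :
    ∀ᶠ x : ℝ in Filter.atTop, C * Real.log x + 1 ≤ x := by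
  have h1 := Real.isLittleO_log_id_atTop.bound (show (0 : ℝ) < 1 / (2 * (C + 1)) by positivity)
  filter_upwards [h1, Filter.eventually_ge_atTop 2] with x hx hx2
  have hx' : Real.log x ≤ 1 / (2 * (C + 1)) * x := by
    have h2 := le_abs_self (Real.log x)
    rw [Real.norm_eq_abs, Real.norm_eq_abs, id, abs_of_nonneg (show (0 : ℝ) ≤ x by linarith)] at hx
    linarith
  have h3 : C * Real.log x ≤ x / 2 := by
    have h4 : C * Real.log x ≤ C * (1 / (2 * (C + 1)) * x) := mul_le_mul_of_nonneg_left hx' hC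
    have h5 : C * (1 / (2 * (C + 1)) * x) ≤ (C + 1) * (1 / (2 * (C + 1)) * x) := by
      apply mul_le_mul_of_nonneg_right (by linarith)
      have : 0 ≤ x := by linarith
      positivity
    have h6 : (C + 1) * (1 / (2 * (C + 1)) * x) = x / 2 := by
      have : C + 1 ≠ 0 := by positivity
      field_simp
    linarith
  linarith

/-! ### Markov's inequality for the `k`-th moment -/

open Classical in
theorem large_FF (B K : ℕ) (ε : ℝ) (hε : 0 < ε) (hε1 : ε ≤ 1 / 8) : ∃ C' : ℕ, ∃ X₀ : ℕ, ∀ X : ℕ,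
    X₀ ≤ X → ∀ w : ℕ, w = ⌈C' * Real.log (Real.log X)⌉₊ →
      ∀ S : Finset ℕ, S ⊆ Icc 1 X → X / (Real.log X) ^ K ≤ (S.card : ℝ) →
        (((Icc 1 X).filter (fun N => (1 + 4 * ε) * (Vw w (zB B X) * S.card) ≤
          (FF w (zB B X) S N : ℝ))).card : ℝ) ≤ X / (Real.log X) ^ K := by
  obtain ⟨C, hC⟩ := exists_nat_ge (((K : ℝ) + 2) / ε)
  obtain ⟨C₀, hC₀⟩ := moment B C K ε hε
  obtain ⟨X₁, hX₁⟩ := hC₀ C₀ le_rfl
  obtain ⟨X₂, hX₂⟩ := Filter.eventually_atTop.1 ((LG3_log_ev 4).and (Filter.eventually_ge_atTop 2))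
  refine ⟨C₀, max X₁ X₂, fun X hX w hw S hS hcard => ?_⟩
  obtain ⟨hL, hX2⟩ := hX₂ X ((le_max_right _ _).trans hX)
  have hm := hX₁ X ((le_max_left _ _).trans hX) w hw S hS hcard
  have hCε : (K : ℝ) + 2 ≤ C * ε := by
    rw [div_le_iff₀ hε] at hC
    exact hC
  obtain ⟨L, hLdef⟩ : ∃ L : ℝ, L = Real.log X := ⟨_, rfl⟩
  rw [← hLdef] at hL hm hcard ⊢
  have hL0 : 0 < L := by linarith
  have hLL : 0 ≤ Real.log L := Real.log_nonneg (by linarith)
  obtain ⟨k, hkdef⟩ : ∃ k : ℕ, k = ⌊C * Real.log L⌋₊ := ⟨_, rfl⟩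
  have hk : (k : ℝ) ≤ C * Real.log L := by
    rw [hkdef]
    exact Nat.floor_le (by positivity)
  have hk' : C * Real.log L - 1 ≤ (k : ℝ) := by
    have := Nat.lt_floor_add_one (C * Real.log L)
    rw [← hkdef] at this
    linarith
  have hm' := hm k hk
  have hX0 : (0 : ℝ) < X := by
    have : (2 : ℝ) ≤ X := by exact_mod_cast hX2
    linarith
  have hcard0 : (0 : ℝ) < S.card := lt_of_lt_of_le (by positivity) hcard
  obtain ⟨μ, hμdef⟩ : ∃ μ : ℝ, μ = Vw w (zB B X) * S.card := ⟨_, rfl⟩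
  have hμ : 0 < μ := by
    rw [hμdef]
    exact mul_pos (TS9_Vw_pos _ _) hcard0
  rw [← hμdef] at hm' ⊢
  have ht : 0 < (1 + 4 * ε) * μ := by positivity
  have hmk := TS9_markov (Icc 1 X) (fun N => (FF w (zB B X) S N : ℝ)) (fun N => Nat.cast_nonneg _)
    ((1 + 4 * ε) * μ) _ ht k hm'
  have hexp := TS9_exp ε hε hε1
  have h1 : (μ * Real.exp (2 * ε)) ^ k ≤ (1 - ε) ^ k * ((1 + 4 * ε) * μ) ^ k := by
    rw [← mul_pow]
    apply pow_le_pow_left₀ (by positivity)
    calc μ * Real.exp (2 * ε) ≤ μ * ((1 - ε) * (1 + 4 * ε)) :=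
          mul_le_mul_of_nonneg_left hexp hμ.le
      _ = _ := by ring
  have h2 : (((Icc 1 X).filter (fun N => (1 + 4 * ε) * μ ≤
      (FF w (zB B X) S N : ℝ))).card : ℝ) ≤ 8 * X * (1 - ε) ^ k := by
    have h3 : (0 : ℝ) < ((1 + 4 * ε) * μ) ^ k := by positivity
    apply le_of_mul_le_mul_right _ h3
    refine hmk.trans ?_
    calc 8 * (X : ℝ) * (μ * Real.exp (2 * ε)) ^ k
        ≤ 8 * X * ((1 - ε) ^ k * ((1 + 4 * ε) * μ) ^ k) :=
          mul_le_mul_of_nonneg_left h1 (by positivity)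
      _ = _ := by ring
  have h3 : (1 - ε) ^ k ≤ Real.exp (-ε * k) := by
    rw [mul_comm, Real.exp_nat_mul]
    exact pow_le_pow_left₀ (by linarith) (Real.one_sub_le_exp_neg ε) k
  have h4 : Real.exp (-ε * k) ≤ 2 * (L ^ (K + 2))⁻¹ := by
    have h5 : -ε * k ≤ 2 * ε + -(((K + 2 : ℕ) : ℝ) * Real.log L) := by
      have h6 : ε * (C * Real.log L - 1) ≤ ε * k := mul_le_mul_of_nonneg_left hk' hε.le
      have h7 : ((K : ℝ) + 2) * Real.log L ≤ C * ε * Real.log L :=
        mul_le_mul_of_nonneg_right hCε hLL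
      push_cast
      nlinarith
    calc Real.exp (-ε * k) ≤ Real.exp (2 * ε + -(((K + 2 : ℕ) : ℝ) * Real.log L)) :=
          Real.exp_le_exp.mpr h5
      _ = Real.exp (2 * ε) * (L ^ (K + 2))⁻¹ := by
          rw [Real.exp_add, Real.exp_neg, Real.exp_nat_mul, Real.exp_log hL0]
      _ ≤ 2 * (L ^ (K + 2))⁻¹ := by
          apply mul_le_mul_of_nonneg_right _ (by positivity)
          refine hexp.trans ?_
          nlinarith
  have h5 : 8 * (X : ℝ) * (1 - ε) ^ k ≤ 8 * X * (2 * (L ^ (K + 2))⁻¹) :=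
    mul_le_mul_of_nonneg_left (h3.trans h4) (by positivity)
  refine (h2.trans h5).trans ?_
  have h6 : 8 * (X : ℝ) * (2 * (L ^ (K + 2))⁻¹) = 16 / L ^ 2 * (X / L ^ K) := by
    rw [pow_add]
    field_simp
    ring
  rw [h6]
  have h7 : 16 / L ^ 2 ≤ 1 := by
    rw [div_le_one (by positivity)]
    nlinarith
  exact mul_le_of_le_one_left (by positivity) h7

/-! ### The upper bound for the number of representations -/

/-- the final comparison of constants -/
theorem TS9_const (δ ε G y LLL n V r FFn g : ℝ) (hδ : 0 < δ) (hδ8 : δ ≤ 1 / 8) (hδε : 10 * δ ≤ ε)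
    (hG : 1 ≤ G) (hLLL : 1 ≤ LLL) (hy : y ≤ (1 + δ) * LLL) (hn : 0 ≤ n)
    (_hV : 0 < V) (hVy : V⁻¹ ≤ (1 + δ) * G * y)
    (hr : r = g + FFn) (hg : g ≤ δ * n) (hF : FFn ≤ (1 + 4 * δ) * n * V⁻¹) :
    r ≤ (1 + ε) * G * LLL * n := by
  have hGL : 1 ≤ G * LLL := by nlinarith
  have h1 : V⁻¹ ≤ (1 + δ) ^ 2 * (G * LLL) := by
    calc V⁻¹ ≤ (1 + δ) * G * y := hVy
      _ ≤ (1 + δ) * G * ((1 + δ) * LLL) := mul_le_mul_of_nonneg_left hy (by positivity)
      _ = _ := by ring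
  have h2 : FFn ≤ (1 + 4 * δ) * n * ((1 + δ) ^ 2 * (G * LLL)) :=
    hF.trans (mul_le_mul_of_nonneg_left h1 (by positivity))
  have h3 : δ * n ≤ δ * n * (G * LLL) := by
    have : 0 ≤ δ * n := by positivity
    nlinarith
  have h4 : (1 + 4 * δ) * (1 + δ) ^ 2 + δ ≤ 1 + ε := by
    have h5 : δ ^ 2 ≤ 1 / 8 * δ := by nlinarith
    have h6 : δ ^ 3 ≤ 1 / 64 * δ := by nlinarith [sq_nonneg δ, mul_nonneg hδ.le hδ.le]
    nlinarith
  calc r = g + FFn := hr
    _ ≤ δ * n * (G * LLL) + (1 + 4 * δ) * n * ((1 + δ) ^ 2 * (G * LLL)) := by linarith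
    _ = ((1 + 4 * δ) * (1 + δ) ^ 2 + δ) * (n * (G * LLL)) := by ring
    _ ≤ (1 + ε) * (n * (G * LLL)) := mul_le_mul_of_nonneg_right h4 (by positivity)
    _ = _ := by ring

/-- Chebyshev's inequality -/
theorem TS9_cheb (I : Finset ℕ) (g : ℕ → ℝ) (t M : ℝ) (ht : 0 < t)
    (h : ∑ N ∈ I, g N ^ 2 ≤ M) : ((I.filter (fun N => t ≤ |g N|)).card : ℝ) * t ^ 2 ≤ M := by
  apply TS9_markov I (fun N => |g N|) (fun N => abs_nonneg _) t M ht 2
  simpa only [sq_abs] using h

/-- the reciprocal of the density of `w`-rough numbers for `w = ⌈C' log log (2X)⌉` -/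
theorem TS9_Vinv (C' : ℕ) (δ : ℝ) (hδ : 0 < δ) : ∀ᶠ y : ℝ in Filter.atTop,
    (LG3V ⌈C' * y⌉₊)⁻¹ ≤ (1 + δ) * Real.exp Real.eulerMascheroniConstant * Real.log y := by
  have h1 := LG3_mertens ((C' : ℝ) + 1) (by positivity)
  have h2 : Real.exp (-Real.eulerMascheroniConstant) / (1 + δ) <
      Real.exp (-Real.eulerMascheroniConstant) := by
    rw [div_lt_iff₀ (by linarith)]
    have := Real.exp_pos (-Real.eulerMascheroniConstant)
    nlinarith
  filter_upwards [h1.eventually_const_lt h2, Filter.eventually_ge_atTop 3] with y hy hy3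
  have hlog : 0 < Real.log y := Real.log_pos (by linarith)
  have hle : ⌈C' * y⌉₊ ≤ ⌊((C' : ℝ) + 1) * y⌋₊ := by
    apply Nat.le_floor
    have h3 : ((⌈C' * y⌉₊ : ℕ) : ℝ) < C' * y + 1 := Nat.ceil_lt_add_one (by positivity)
    linarith
  have h4 := TS9_V_anti hle
  have h5 := TS9_LG3V_pos ⌈C' * y⌉₊
  have h6 : Real.exp (-Real.eulerMascheroniConstant) / (1 + δ) ≤
      Real.log y * LG3V ⌈C' * y⌉₊ :=
    hy.le.trans (mul_le_mul_of_nonneg_left h4 hlog.le)
  rw [inv_le_iff_one_le_mul₀ h5]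
  have h7 : Real.exp Real.eulerMascheroniConstant * Real.exp (-Real.eulerMascheroniConstant) = 1 := by
    rw [← Real.exp_add]
    simp
  have h8 : (1 + δ) * Real.exp Real.eulerMascheroniConstant *
      (Real.exp (-Real.eulerMascheroniConstant) / (1 + δ)) = 1 := by
    have h9 : (1 + δ) * Real.exp Real.eulerMascheroniConstant *
      (Real.exp (-Real.eulerMascheroniConstant) / (1 + δ)) =
      Real.exp Real.eulerMascheroniConstant * Real.exp (-Real.eulerMascheroniConstant) := by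
      field_simp
    rw [h9, h7]
  calc (1 : ℝ) = (1 + δ) * Real.exp Real.eulerMascheroniConstant *
      (Real.exp (-Real.eulerMascheroniConstant) / (1 + δ)) := h8.symm
    _ ≤ (1 + δ) * Real.exp Real.eulerMascheroniConstant * (Real.log y * LG3V ⌈C' * y⌉₊) :=
      mul_le_mul_of_nonneg_left h6 (by positivity)
    _ = _ := by ring

theorem TS9_log2 (L LLL δ : ℝ) (hL : 4 ≤ L) (hLLL : LLL = Real.log (Real.log L)) (hδ : 0 < δ)
    (h1 : 1 / δ ≤ LLL) (L' : ℝ) (hL' : L' ≤ 2 * L) (hLL' : L ≤ L') :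
    Real.log (Real.log L') ≤ (1 + δ) * LLL := by
  have h2 : Real.log 2 ≤ 1 := by
    have := Real.log_two_lt_d9
    linarith
  have h20 : 0 ≤ Real.log 2 := Real.log_nonneg (by norm_num)
  have hlogL : 1 ≤ Real.log L := by
    rw [Real.le_log_iff_exp_le (by linarith)]
    have := Real.exp_one_lt_d9
    linarith
  have h3 : Real.log L' ≤ 2 * Real.log L := by
    have h4 : Real.log L' ≤ Real.log (2 * L) := Real.log_le_log (by linarith) hL'
    rw [Real.log_mul (by norm_num) (by linarith)] at h4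
    linarith
  have h5 : 0 < Real.log L' := Real.log_pos (by linarith)
  have h6 : Real.log (Real.log L') ≤ Real.log (2 * Real.log L) := Real.log_le_log h5 h3
  rw [Real.log_mul (by norm_num) (by linarith)] at h6
  rw [div_le_iff₀ hδ] at h1
  rw [hLLL] at h1 ⊢
  linarith

theorem upper_all (K : ℕ) (ε : ℝ) (hε : 0 < ε) : ∃ X₀ : ℕ, ∀ X : ℕ, X₀ ≤ X →
    ∀ S : Finset ℕ, S ⊆ Icc 1 X → X / (Real.log X) ^ K ≤ (S.card : ℝ) →
      (((Icc 1 (2 * X)).filter (fun N =>
        (1 + ε) * Real.exp Real.eulerMascheroniConstant * Real.log (Real.log (Real.log X)) *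
          S.card < rS S N)).card : ℝ) ≤ X / (Real.log X) ^ K := by
  obtain ⟨δ, hδ, hδ8, hδε⟩ : ∃ δ : ℝ, 0 < δ ∧ δ ≤ 1 / 8 ∧ 10 * δ ≤ ε :=
    ⟨min (1 / 8) (ε / 10), lt_min (by norm_num) (by linarith), min_le_left _ _, by
      have := min_le_right (1 / 8 : ℝ) (ε / 10)
      linarith⟩
  obtain ⟨B₀, hB₀⟩ := fourier_rz (K + 1)
  obtain ⟨C, hC, hF⟩ := hB₀ (max B₀ 1) (le_max_left _ _)
  obtain ⟨B, hBdef⟩ : ∃ B : ℕ, B = max B₀ 1 := ⟨_, rfl⟩
  rw [← hBdef] at hF
  have hB1 : 1 ≤ B := by rw [hBdef]; exact le_max_right _ _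
  obtain ⟨C', X₁, hX₁⟩ := large_FF B (K + 1) δ hδ hδ8
  have htwo : Filter.Tendsto (fun X : ℕ => 2 * X) Filter.atTop Filter.atTop :=
    Filter.tendsto_id.const_mul_atTop' (by norm_num)
  have hlog2 : Filter.Tendsto (fun X : ℕ => Real.log ((2 * X : ℕ) : ℝ))
      Filter.atTop Filter.atTop :=
    Real.tendsto_log_atTop.comp (tendsto_natCast_atTop_atTop.comp htwo)
  have hloglog2 : Filter.Tendsto (fun X : ℕ => Real.log (Real.log ((2 * X : ℕ) : ℝ)))
      Filter.atTop Filter.atTop := Real.tendsto_log_atTop.comp hlog2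
  obtain ⟨X₂, hX₂⟩ := Filter.eventually_atTop.1 ((LG3_log_ev (max 4 (8 * C ^ 2 / δ ^ 2))).and
    ((Filter.eventually_ge_atTop (max 3 X₁)).and ((LG3_log3_ev (1 / δ)).and
      ((hlog2.eventually (TS9_log_small (C' : ℝ) (Nat.cast_nonneg _))).and
        (hloglog2.eventually (TS9_Vinv C' δ hδ))))))
  refine ⟨X₂, fun X hX S hS hcard => ?_⟩
  obtain ⟨hL, hX3, hLLL, hsmall, hVinv⟩ := hX₂ X hX
  have hL4 : 4 ≤ Real.log X := (le_max_left _ _).trans hL
  have hL8 : 8 * C ^ 2 / δ ^ 2 ≤ Real.log X := (le_max_right _ _).trans hL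
  have hX3' : 3 ≤ X := (le_max_left _ _).trans hX3
  have hXX₁ : X₁ ≤ X := (le_max_right _ _).trans hX3
  have hX0 : (0 : ℝ) < X := by
    have : (3 : ℝ) ≤ X := by exact_mod_cast hX3'
    linarith
  obtain ⟨L, hLdef⟩ : ∃ L : ℝ, L = Real.log X := ⟨_, rfl⟩
  obtain ⟨L', hL'def⟩ : ∃ L' : ℝ, L' = Real.log ((2 * X : ℕ) : ℝ) := ⟨_, rfl⟩
  have hLL' : L ≤ L' := by
    rw [hLdef, hL'def]
    apply Real.log_le_log hX0
    push_cast
    linarith
  have hL'2 : L' ≤ 2 * L := by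
    rw [hLdef, hL'def]
    push_cast
    rw [Real.log_mul (by norm_num) hX0.ne']
    have := Real.log_two_lt_d9
    linarith
  rw [← hLdef] at hL4 hL8 hcard hLLL ⊢
  rw [← hL'def] at hsmall hVinv
  have hL0 : 0 < L := by linarith
  obtain ⟨P, hPdef⟩ : ∃ P : ℝ, P = X / L ^ K := ⟨_, rfl⟩
  have hP0 : 0 < P := by rw [hPdef]; positivity
  obtain ⟨n, hndef⟩ : ∃ n : ℝ, n = (S.card : ℝ) := ⟨_, rfl⟩
  have hn0 : 0 < n := by
    rw [hndef]
    exact lt_of_lt_of_le (by positivity) hcard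
  have hnP : P ≤ n := by rw [hndef, hPdef]; exact hcard
  -- the first exceptional set
  have hS2 : S ⊆ Icc 1 (2 * X) := by
    intro s hs
    have := Finset.mem_Icc.mp (hS hs)
    rw [Finset.mem_Icc]
    omega
  have hP' : ((2 * X : ℕ) : ℝ) / L' ^ (K + 1) ≤ P / 2 := by
    have h1 : ((2 * X : ℕ) : ℝ) / L' ^ (K + 1) ≤ ((2 * X : ℕ) : ℝ) / L ^ (K + 1) :=
      div_le_div_of_nonneg_left (Nat.cast_nonneg _) (by positivity)
        (pow_le_pow_left₀ hL0.le hLL' _)
    refine h1.trans ?_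
    rw [hPdef, pow_succ]
    push_cast
    rw [div_div, div_le_div_iff₀ (by positivity) (by positivity)]
    have h2 : 0 < (X : ℝ) * L ^ K := by positivity
    nlinarith
  have hbad1 := hX₁ (2 * X) (by omega) ⌈C' * Real.log L'⌉₊ (by rw [hL'def]) S hS2 (by
    rw [← hL'def, ← hndef]
    linarith)
  rw [← hL'def, ← hndef] at hbad1
  obtain ⟨w, hwdef⟩ : ∃ w : ℕ, w = ⌈C' * Real.log L'⌉₊ := ⟨_, rfl⟩
  obtain ⟨z, hzdef⟩ : ∃ z : ℕ, z = zB B (2 * X) := ⟨_, rfl⟩
  rw [← hwdef, ← hzdef] at hbad1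
  rw [← hwdef] at hVinv
  have hlogL'0 : 0 ≤ Real.log L' := Real.log_nonneg (by linarith)
  have hwz : w ≤ z := by
    rw [hwdef, hzdef]
    unfold zB
    apply Nat.le_floor
    rw [← hL'def]
    have h1 : ((⌈C' * Real.log L'⌉₊ : ℕ) : ℝ) < C' * Real.log L' + 1 :=
      Nat.ceil_lt_add_one (by positivity)
    have h2 : L' ≤ L' ^ B := le_self_pow₀ (by linarith) (by omega)
    linarith
  -- the second exceptional set
  have hF2 := TS9_conv X S hS (fun n => lam n - rz z n / Vz z) (C * ((2 * X : ℕ) : ℝ) / L' ^ (K + 1))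
    (fun α => by
      have := hF (2 * X) (by omega) (2 * X) le_rfl α
      rw [← hzdef, ← hL'def] at this
      exact this)
  have hbad2 := TS9_cheb (Icc 1 (2 * X)) (fun N => ∑ s ∈ S.filter (fun s => s < N),
    (lam (N - s) - rz z (N - s) / Vz z)) (δ * n) _ (by positivity) hF2
  have hbad2' : (((Icc 1 (2 * X)).filter (fun N => δ * n ≤ |∑ s ∈ S.filter (fun s => s < N),
      (lam (N - s) - rz z (N - s) / Vz z)|)).card : ℝ) ≤ P / 2 := by
    obtain ⟨c, hc⟩ : ∃ c : ℝ, c = (((Icc 1 (2 * X)).filter (fun N => δ * n ≤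
      |∑ s ∈ S.filter (fun s => s < N), (lam (N - s) - rz z (N - s) / Vz z)|)).card : ℝ) := ⟨_, rfl⟩
    have hc0 : 0 ≤ c := by rw [hc]; exact Nat.cast_nonneg _
    rw [← hc, ← hndef] at hbad2
    rw [← hc]
    have h1 : C * ((2 * X : ℕ) : ℝ) / L' ^ (K + 1) ≤ 2 * C * P / L := by
      have h2 : C * ((2 * X : ℕ) : ℝ) / L' ^ (K + 1) ≤ C * ((2 * X : ℕ) : ℝ) / L ^ (K + 1) :=
        div_le_div_of_nonneg_left (by positivity) (by positivity)
          (pow_le_pow_left₀ hL0.le hLL' _)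
      refine h2.trans (le_of_eq ?_)
      rw [hPdef, pow_succ]
      push_cast
      field_simp
    have h2 : (C * ((2 * X : ℕ) : ℝ) / L' ^ (K + 1)) ^ 2 ≤ (2 * C * P / L) ^ 2 := by
      apply pow_le_pow_left₀ _ h1
      have : 0 < L' := by linarith
      positivity
    have h3 : c * (δ * n) ^ 2 ≤ (2 * C * P / L) ^ 2 * n :=
      hbad2.trans (mul_le_mul_of_nonneg_right h2 hn0.le)
    have h4 : c * δ ^ 2 * n ≤ (2 * C * P / L) ^ 2 := by
      apply le_of_mul_le_mul_right _ hn0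
      calc c * δ ^ 2 * n * n = c * (δ * n) ^ 2 := by ring
        _ ≤ _ := h3
    have h5 : c * δ ^ 2 * P ≤ c * δ ^ 2 * n := mul_le_mul_of_nonneg_left hnP (by positivity)
    have h6 : c * δ ^ 2 ≤ (2 * C / L) ^ 2 * P := by
      apply le_of_mul_le_mul_right _ hP0
      calc c * δ ^ 2 * P ≤ (2 * C * P / L) ^ 2 := h5.trans h4
        _ = (2 * C / L) ^ 2 * P * P := by
          field_simp
    have h7 : (2 * C / L) ^ 2 ≤ δ ^ 2 / 2 := by
      rw [div_le_iff₀ (by positivity)] at hL8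
      rw [div_pow, div_le_iff₀ (by positivity)]
      have h8 : L ≤ L ^ 2 := le_self_pow₀ (by linarith) (by norm_num)
      have h9 : L * δ ^ 2 ≤ L ^ 2 * δ ^ 2 := mul_le_mul_of_nonneg_right h8 (by positivity)
      have h10 : (2 * C) ^ 2 = 4 * C ^ 2 := by ring
      have h11 : δ ^ 2 / 2 * L ^ 2 = L ^ 2 * δ ^ 2 / 2 := by ring
      rw [h10, h11]
      linarith
    have h8 : c * δ ^ 2 ≤ (P / 2) * δ ^ 2 := by
      calc c * δ ^ 2 ≤ (2 * C / L) ^ 2 * P := h6
        _ ≤ δ ^ 2 / 2 * P := mul_le_mul_of_nonneg_right h7 hP0.le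
        _ = _ := by ring
    exact le_of_mul_le_mul_right h8 (by positivity)
  -- the union
  obtain ⟨LLL, hLLLdef⟩ : ∃ LLL : ℝ, LLL = Real.log (Real.log L) := ⟨_, rfl⟩
  have hlog3 := TS9_log2 L LLL δ hL4 hLLLdef hδ (by rw [hLLLdef]; exact hLLL) L' hL'2 hLL'
  have hLLL1 : 1 ≤ LLL := by
    rw [hLLLdef]
    refine le_trans ?_ hLLL
    rw [le_div_iff₀ hδ]
    linarith
  rw [← hPdef, ← hLLLdef, ← hndef]
  classical
  have hsub : (Icc 1 (2 * X)).filter (fun N =>
      (1 + ε) * Real.exp Real.eulerMascheroniConstant * LLL * n < rS S N) ⊆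
      ((Icc 1 (2 * X)).filter (fun N => (1 + 4 * δ) * (Vw w z * n) ≤ (FF w z S N : ℝ))) ∪
      ((Icc 1 (2 * X)).filter (fun N => δ * n ≤ |∑ s ∈ S.filter (fun s => s < N),
      (lam (N - s) - rz z (N - s) / Vz z)|)) := by
    intro N hN
    rw [Finset.mem_filter] at hN
    rw [Finset.mem_union, Finset.mem_filter, Finset.mem_filter]
    by_contra hcon
    push Not at hcon
    have h1 := hcon.1 hN.1
    have h2 := hcon.2 hN.1
    apply absurd hN.2
    rw [not_lt]
    have hVz0 : 0 < Vz z := by rw [TS9_Vz]; exact TS9_LG3V_pos z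
    apply TS9_const δ ε _ (Real.log (Real.log L')) LLL n (LG3V w) (rS S N)
      (∑ s ∈ S.filter (fun s => s < N), rz z (N - s) / Vz z)
      (∑ s ∈ S.filter (fun s => s < N), (lam (N - s) - rz z (N - s) / Vz z)) hδ hδ8 hδε
      (Real.one_le_exp (by have := Real.one_half_lt_eulerMascheroniConstant; linarith)) hLLL1 hlog3
      hn0.le (TS9_LG3V_pos w) hVinv
    · unfold rS
      rw [← Finset.sum_add_distrib]
      apply Finset.sum_congr rfl
      intro s _
      ring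
    · exact (le_abs_self _).trans h2.le
    · rw [← Finset.sum_div]
      have h3 := TS9_sum_rz w z N S
      have h4 : Vz z = LG3V w * Vw w z := by rw [TS9_Vz, TS9_V_mul w z hwz]
      rw [div_le_iff₀ hVz0, h4]
      have h5 := TS9_LG3V_pos w
      calc ∑ s ∈ S.filter (fun s => s < N), rz z (N - s) ≤ (FF w z S N : ℝ) := h3
        _ ≤ (1 + 4 * δ) * (Vw w z * n) := h1.le
        _ = (1 + 4 * δ) * n * (LG3V w)⁻¹ * (LG3V w * Vw w z) := by
            field_simp
  have hcard2 : (((Icc 1 (2 * X)).filter (fun N =>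
      (1 + ε) * Real.exp Real.eulerMascheroniConstant * LLL * n < rS S N)).card : ℝ) ≤
      ((((Icc 1 (2 * X)).filter (fun N => (1 + 4 * δ) * (Vw w z * n) ≤
        (FF w z S N : ℝ))).card : ℝ) +
      (((Icc 1 (2 * X)).filter (fun N => δ * n ≤ |∑ s ∈ S.filter (fun s => s < N),
      (lam (N - s) - rz z (N - s) / Vz z)|)).card : ℝ)) := by
    have := (Finset.card_le_card hsub).trans (Finset.card_union_le _ _)
    exact_mod_cast this
  refine hcard2.trans ?_
  have h9 : (((Icc 1 (2 * X)).filter (fun N => (1 + 4 * δ) * (Vw w z * n) ≤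
        (FF w z S N : ℝ))).card : ℝ) ≤ P / 2 := by
    refine le_trans ?_ (hbad1.trans hP')
    apply le_of_eq
    congr 2
  linarith

end Pool.Agent.Lib.SW
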