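import Pool.Agent.Lib.SW.SP3
import Pool.Agent.Lib.SW.LG2

/-!
# TS-0: definitions for sumsets of sparse sets of primes

`rz z n = 1` if `n` has no prime factor `≤ z`, `0` otherwise; `Vz z = ∏_{p ≤ z} (1 - 1/p)`; `zB B X = ⌊(log X)^B⌋`.
`pr w z` is the set of primes in `(w, z]`; `nu σ p` the number of residue classes modulo `p` of the finite set
`σ`; `RR w z σ = ∏_{w < p ≤ z} (1 - nu σ p / p)`; `Rough w z σ N`: no prime in `(w, z]` divides `N - s`, `s ∈ σ`;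
`YY w z σ s = ∑ 1/(p-1)` over the primes `p ∈ (w, z]` with `s ≡ t mod p` for some `t ∈ σ`;
`FF w z S N` is the number of `s ∈ S` with `N - s` free of primes in `(w, z]`.
-/

set_option autoImplicit false

open Finset Pool.Agent.Lib.GT

namespace Pool.Agent.Lib.SW

noncomputable def rz (z n : ℕ) : ℝ := if Nat.Coprime n (primorial z) then 1 else 0

noncomputable def Vz (z : ℕ) : ℝ := ((primorial z).totient : ℝ) / (primorial z : ℝ)

noncomputable def zB (B X : ℕ) : ℕ := ⌊(Real.log X) ^ B⌋₊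

def pr (w z : ℕ) : Finset ℕ := (Ioc w z).filter Nat.Prime

def nu (σ : Finset ℕ) (p : ℕ) : ℕ := (σ.image (fun s => s % p)).card

noncomputable def RR (w z : ℕ) (σ : Finset ℕ) : ℝ := ∏ p ∈ pr w z, (1 - (nu σ p : ℝ) / p)

def Rough (w z : ℕ) (σ : Finset ℕ) (N : ℕ) : Prop :=
  ∀ s ∈ σ, ∀ p ∈ pr w z, ¬ (p : ℤ) ∣ (N : ℤ) - s

noncomputable def Vw (w z : ℕ) : ℝ := ∏ p ∈ pr w z, (1 - 1 / (p : ℝ))

noncomputable def YY (w z : ℕ) (σ : Finset ℕ) (s : ℕ) : ℝ :=
  ∑ p ∈ (pr w z).filter (fun p => ∃ t ∈ σ, s % p = t % p), 1 / ((p : ℝ) - 1)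

open Classical in
noncomputable def FF (w z : ℕ) (S : Finset ℕ) (N : ℕ) : ℕ :=
  (S.filter (fun s => Rough w z {s} N)).card

theorem mem_pr {w z p : ℕ} : p ∈ pr w z ↔ w < p ∧ p ≤ z ∧ p.Prime := by
  unfold pr
  rw [mem_filter, mem_Ioc, and_assoc]

theorem rough_insert {w z N s : ℕ} {σ : Finset ℕ} :
    Rough w z (insert s σ) N ↔ Rough w z {s} N ∧ Rough w z σ N := by
  unfold Rough
  simp only [mem_insert, mem_singleton, forall_eq_or_imp, forall_eq]

end Pool.Agent.Lib.SW
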