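import Pool.Agent.Lib.SW.TS.TS0

/-!
# TS-1: Rankin's trick

PROOF.  `z = zB B X`, `L = log X ≥ 1`, `z1 = max z 3`, `η = 1/log z1`.
`∑_{d | P, d > D} 1/d ≤ D^(-η) ∏_{p ≤ z} (1 + p^η/p)`, `p^η ≤ e`, `∏ ≤ exp (e ∑_{n ≤ z} 1/n) ≤ exp (e (1 + log z1))`,
`log z1 ≤ B log L + 2`.  `D = X^(1/4)`: `D^(-η) ≤ exp (- L / (4 (B log L + 2))) ≤ exp (- √L / (8 (B + 1)))`.
Finally `L^(3B + M) exp (- a √L) ≤ (2 (3B + M))! / a^(2 (3B + M))`.
-/

set_option autoImplicit false

open Finset Pool.Agent.Lib.GT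

namespace Pool.Agent.Lib.SW

theorem TS1_sqf (w : ℕ) : Squarefree (primorial w) := by
  unfold primorial
  apply Finset.squarefree_prod_of_pairwise_isCoprime
  · intro p hp q hq hpq
    rw [Finset.mem_coe, Finset.mem_filter] at hp hq
    exact Nat.coprime_iff_isRelPrime.mp ((Nat.coprime_primes hp.2 hq.2).mpr hpq)
  · intro p hp
    simp only [Finset.mem_filter] at hp
    exact hp.2.squarefree

theorem TS1_sum (W : ℕ) (hW : Squarefree W) (s : ℝ) :
    ∑ d ∈ W.divisors, (d : ℝ) ^ s = ∏ p ∈ W.primeFactors, (1 + (p : ℝ) ^ s) := by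
  have hmult : (ArithmeticFunction.prodPrimeFactors
    (fun p => (p : ℝ) ^ s)).IsMultiplicative := ArithmeticFunction.IsMultiplicative.prodPrimeFactors _
  have h1 : ∀ p ∈ W.primeFactors, 1 + (p : ℝ) ^ s
      = 1 + ArithmeticFunction.prodPrimeFactors (fun p => (p : ℝ) ^ s) p := by
    intro p hp
    have hpp := Nat.prime_of_mem_primeFactors hp
    rw [ArithmeticFunction.prodPrimeFactors_apply hpp.ne_zero, hpp.primeFactors,
      Finset.prod_singleton]
  rw [Finset.prod_congr rfl h1, hmult.prodPrimeFactors_one_add_of_squarefree hW]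
  refine Finset.sum_congr rfl fun d hd => ?_
  have hd0 : d ≠ 0 := (Nat.pos_of_mem_divisors hd).ne'
  have hds : Squarefree d := hW.squarefree_of_dvd (Nat.dvd_of_mem_divisors hd)
  rw [ArithmeticFunction.prodPrimeFactors_apply hd0]
  rw [Real.finsetProd_rpow _ _ (fun i _ => Nat.cast_nonneg i)]
  congr 1
  rw [← Nat.cast_prod, Nat.prod_primeFactors_of_squarefree hds]

theorem TS1_prod (z : ℕ) (η : ℝ) (hη : ∀ p : ℕ, 1 ≤ p → p ≤ z → (p : ℝ) ^ η ≤ Real.exp 1) :
    ∏ p ∈ (primorial z).primeFactors, (1 + (p : ℝ) ^ (η - 1))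
      ≤ Real.exp (Real.exp 1 * (1 + Real.log z)) := by
  have h1 : ∏ p ∈ (primorial z).primeFactors, (1 + (p : ℝ) ^ (η - 1))
      ≤ ∏ p ∈ (primorial z).primeFactors, Real.exp (Real.exp 1 * ((p : ℝ))⁻¹) := by
    refine Finset.prod_le_prod (fun p _ => by positivity) fun p hp => ?_
    have hpp := Nat.prime_of_mem_primeFactors hp
    have hpz : p ≤ z := hpp.dvd_primorial_iff.1 (Nat.dvd_of_mem_primeFactors hp)
    have hp0 : (0 : ℝ) < p := by exact_mod_cast hpp.pos
    have h2 : (p : ℝ) ^ (η - 1) ≤ Real.exp 1 * ((p : ℝ))⁻¹ := by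
      rw [Real.rpow_sub hp0, Real.rpow_one, div_eq_mul_inv]
      exact mul_le_mul_of_nonneg_right (hη p hpp.one_le hpz) (by positivity)
    calc 1 + (p : ℝ) ^ (η - 1) ≤ 1 + Real.exp 1 * ((p : ℝ))⁻¹ := by linarith
      _ ≤ Real.exp (Real.exp 1 * ((p : ℝ))⁻¹) := by
          have := Real.add_one_le_exp (Real.exp 1 * ((p : ℝ))⁻¹)
          linarith
  refine h1.trans ?_
  rw [← Real.exp_sum, ← Finset.mul_sum]
  apply Real.exp_le_exp.mpr
  apply mul_le_mul_of_nonneg_left _ (Real.exp_pos 1).le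
  have h3 : ∑ p ∈ (primorial z).primeFactors, ((p : ℝ))⁻¹
      ≤ ∑ i ∈ Finset.range z, (((i : ℝ) + 1))⁻¹ := by
    have h4 : ∑ i ∈ Finset.range z, (((i : ℝ) + 1))⁻¹
        = ∑ n ∈ (Finset.range z).image (fun i : ℕ => i + 1), ((n : ℕ) : ℝ)⁻¹ := by
      rw [Finset.sum_image (by intro a _ b _ h; exact Nat.succ_injective h)]
      exact Finset.sum_congr rfl fun i _ => by push_cast; rfl
    rw [h4]
    refine Finset.sum_le_sum_of_subset_of_nonneg (fun p hp => ?_) fun _ _ _ => by positivity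
    have hpp := Nat.prime_of_mem_primeFactors hp
    have hpz : p ≤ z := hpp.dvd_primorial_iff.1 (Nat.dvd_of_mem_primeFactors hp)
    rw [Finset.mem_image]
    exact ⟨p - 1, Finset.mem_range.mpr (by have := hpp.one_le; omega), by
      have := hpp.one_le; omega⟩
  refine h3.trans ?_
  have h5 := harmonic_le_one_add_log z
  have h6 : ((harmonic z : ℚ) : ℝ) = ∑ i ∈ Finset.range z, (((i : ℝ) + 1))⁻¹ := by
    unfold harmonic
    push_cast
    rfl
  rw [← h6]
  exact h5

theorem TS1_poly (K : ℕ) (a t : ℝ) (ha : 0 < a) (ht : 0 ≤ t) :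
    t ^ K * Real.exp (-(a * t)) ≤ (Nat.factorial K : ℝ) / a ^ K := by
  have h := Real.pow_div_factorial_le_exp (a * t) (by positivity) K
  rw [Real.exp_neg, ← div_eq_mul_inv, div_le_div_iff₀ (Real.exp_pos _) (by positivity)]
  rw [div_le_iff₀ (by positivity), mul_pow] at h
  nlinarith [h]

theorem rankin_tail (B M : ℕ) : ∃ C : ℝ, 0 < C ∧ ∀ X : ℕ, 3 ≤ X →
    ∑ d ∈ (primorial (zB B X)).divisors.filter (fun d : ℕ => (X : ℝ) ^ (1 / 4 : ℝ) < d), 1 / (d : ℝ) ≤
      C / (Real.log X) ^ M := by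
  set a : ℝ := 1 / (8 * ((B : ℝ) + 1)) with ha
  have hapos : 0 < a := by rw [ha]; positivity
  set K : ℕ := 2 * (3 * B + M) with hK
  refine ⟨Real.exp 9 * ((Nat.factorial K : ℝ) / a ^ K), by positivity, fun X hX => ?_⟩
  have hXr : (3 : ℝ) ≤ X := by exact_mod_cast hX
  have hX0 : (0 : ℝ) < X := by linarith
  set L : ℝ := Real.log X with hL
  have hL1 : 1 ≤ L := by
    rw [hL, Real.le_log_iff_exp_le hX0]
    have := Real.exp_one_lt_d9
    linarith
  have hL0 : 0 < L := by linarith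
  set z : ℕ := zB B X with hz
  set z1 : ℝ := max (z : ℝ) 3 with hz1
  have hz13 : 3 ≤ z1 := le_max_right _ _
  have hz1z : (z : ℝ) ≤ z1 := le_max_left _ _
  have hz10 : 0 < z1 := by linarith
  have hlz1 : 1 ≤ Real.log z1 := by
    rw [Real.le_log_iff_exp_le hz10]
    have := Real.exp_one_lt_d9
    linarith
  have hlz10 : 0 < Real.log z1 := by linarith
  have hlogL : 0 ≤ Real.log L := Real.log_nonneg hL1
  have hzL : (z : ℝ) ≤ L ^ B := by
    rw [hz]
    unfold zB
    exact Nat.floor_le (by positivity)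
  have hlog3 : Real.log 3 ≤ 2 := by
    rw [Real.log_le_iff_le_exp (by norm_num)]
    have h2 : (2 : ℝ) ≤ Real.exp 1 := by
      have := Real.add_one_le_exp (1 : ℝ); linarith
    have h3 : Real.exp 2 = Real.exp 1 * Real.exp 1 := by rw [← Real.exp_add]; norm_num
    nlinarith
  have hlz1W : Real.log z1 ≤ B * Real.log L + 2 := by
    have h1 : 0 ≤ (B : ℝ) * Real.log L := by positivity
    rcases le_total (z : ℝ) 3 with h | h
    · rw [hz1, max_eq_right h]; linarith
    · rw [hz1, max_eq_left h]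
      have h2 : Real.log (z : ℝ) ≤ Real.log (L ^ B) :=
        Real.log_le_log (by linarith) hzL
      rw [Real.log_pow] at h2
      linarith
  set η : ℝ := 1 / Real.log z1 with hη
  have hη0 : 0 < η := by rw [hη]; positivity
  set D : ℝ := (X : ℝ) ^ (1 / 4 : ℝ) with hD
  have hD0 : 0 < D := by rw [hD]; positivity
  have hp : ∀ p : ℕ, 1 ≤ p → p ≤ z → (p : ℝ) ^ η ≤ Real.exp 1 := by
    intro p hp1 hpz
    have hp0 : (0 : ℝ) < p := by exact_mod_cast hp1
    rw [Real.rpow_def_of_pos hp0]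
    apply Real.exp_le_exp.mpr
    have h1 : Real.log p ≤ Real.log z1 :=
      Real.log_le_log hp0 (le_trans (by exact_mod_cast hpz) hz1z)
    calc Real.log p * η ≤ Real.log z1 * η := by gcongr
      _ = 1 := by rw [hη]; field_simp
  have hsum : ∑ d ∈ (primorial z).divisors.filter (fun d : ℕ => D < d), 1 / (d : ℝ)
      ≤ D ^ (-η) * ∏ p ∈ (primorial z).primeFactors, (1 + (p : ℝ) ^ (η - 1)) := by
    rw [← TS1_sum _ (TS1_sqf z) (η - 1), Finset.mul_sum]
    calc ∑ d ∈ (primorial z).divisors.filter (fun d : ℕ => D < d), 1 / (d : ℝ)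
        ≤ ∑ d ∈ (primorial z).divisors.filter (fun d : ℕ => D < d),
            D ^ (-η) * (d : ℝ) ^ (η - 1) := by
          refine Finset.sum_le_sum fun d hd => ?_
          rw [Finset.mem_filter] at hd
          have hd0 : (0 : ℝ) < d := lt_trans hD0 hd.2
          rw [Real.rpow_sub hd0, Real.rpow_one, Real.rpow_neg hD0.le, ← mul_div_assoc]
          apply div_le_div_of_nonneg_right _ hd0.le
          rw [← div_eq_inv_mul, le_div_iff₀ (by positivity), one_mul]
          exact Real.rpow_le_rpow hD0.le hd.2.le hη0.le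
      _ ≤ _ := by
          refine Finset.sum_le_sum_of_subset_of_nonneg (Finset.filter_subset _ _) ?_
          intro d _ _
          positivity
  have hD1 : D ^ (-η) ≤ Real.exp (-(a * Real.sqrt L)) := by
    rw [hD, ← Real.rpow_mul hX0.le, Real.rpow_def_of_pos hX0]
    apply Real.exp_le_exp.mpr
    rw [← hL]
    have hs1 : 1 ≤ Real.sqrt L := by rw [Real.one_le_sqrt]; exact hL1
    have hs0 : 0 < Real.sqrt L := by linarith
    have hss : Real.sqrt L * Real.sqrt L = L := Real.mul_self_sqrt hL0.le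
    have hlogs : Real.log L ≤ 2 * Real.sqrt L := by
      have h1 : Real.log (Real.sqrt L) ≤ Real.sqrt L - 1 := Real.log_le_sub_one_of_pos hs0
      rw [Real.log_sqrt hL0.le] at h1
      linarith
    have hW : Real.log z1 ≤ 2 * ((B : ℝ) + 1) * Real.sqrt L := by
      calc Real.log z1 ≤ B * Real.log L + 2 := hlz1W
        _ ≤ B * (2 * Real.sqrt L) + 2 * Real.sqrt L := by
            gcongr
            linarith
        _ = _ := by ring
    have h2 : a * Real.sqrt L ≤ L * (1 / 4 * η) := by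
      rw [ha, hη]
      rw [show L * (1 / 4 * (1 / Real.log z1)) = L / (4 * Real.log z1) by field_simp]
      rw [show 1 / (8 * ((B : ℝ) + 1)) * Real.sqrt L = Real.sqrt L / (8 * ((B : ℝ) + 1)) by ring]
      rw [div_le_div_iff₀ (by positivity) (by positivity)]
      calc Real.sqrt L * (4 * Real.log z1)
          ≤ Real.sqrt L * (4 * (2 * ((B : ℝ) + 1) * Real.sqrt L)) := by gcongr
        _ = (Real.sqrt L * Real.sqrt L) * (8 * ((B : ℝ) + 1)) := by ring
        _ = L * (8 * ((B : ℝ) + 1)) := by rw [hss]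
    have h3 : L * (1 / 4 * -η) = -(L * (1 / 4 * η)) := by ring
    rw [h3]
    linarith
  have hprod : ∏ p ∈ (primorial z).primeFactors, (1 + (p : ℝ) ^ (η - 1))
      ≤ Real.exp 9 * L ^ (3 * B) := by
    refine (TS1_prod z η hp).trans ?_
    have he3 : Real.exp 1 ≤ 3 := by
      have := Real.exp_one_lt_d9
      linarith
    have hlz : Real.log z ≤ B * Real.log L + 2 := by
      rcases Nat.eq_zero_or_pos z with h0 | h0
      · rw [h0]
        simp only [Nat.cast_zero, Real.log_zero]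
        positivity
      · exact (Real.log_le_log (by exact_mod_cast h0) hz1z).trans hlz1W
    have h1 : Real.exp 1 * (1 + Real.log z) ≤ 9 + (3 * B : ℕ) * Real.log L := by
      have h2 : 1 + Real.log z ≤ 3 + B * Real.log L := by linarith
      have h3 : 0 ≤ 3 + B * Real.log L := by positivity
      calc Real.exp 1 * (1 + Real.log z) ≤ Real.exp 1 * (3 + B * Real.log L) := by gcongr
        _ ≤ 3 * (3 + B * Real.log L) := by gcongr
        _ = 9 + (3 * B : ℕ) * Real.log L := by push_cast; ring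
    calc Real.exp (Real.exp 1 * (1 + Real.log z))
        ≤ Real.exp (9 + (3 * B : ℕ) * Real.log L) := Real.exp_le_exp.mpr h1
      _ = Real.exp 9 * L ^ (3 * B) := by
          rw [Real.exp_add, ← Real.log_pow, Real.exp_log (by positivity)]
  have hfin : L ^ (3 * B + M) * Real.exp (-(a * Real.sqrt L))
      ≤ (Nat.factorial K : ℝ) / a ^ K := by
    have h1 := TS1_poly K a (Real.sqrt L) hapos (Real.sqrt_nonneg L)
    have h2 : Real.sqrt L ^ K = L ^ (3 * B + M) := by
      rw [hK, pow_mul, Real.sq_sqrt hL0.le]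
    rw [h2] at h1
    exact h1
  rw [le_div_iff₀ (by positivity)]
  calc (∑ d ∈ (primorial z).divisors.filter (fun d : ℕ => D < d), 1 / (d : ℝ)) * L ^ M
      ≤ (D ^ (-η) * ∏ p ∈ (primorial z).primeFactors, (1 + (p : ℝ) ^ (η - 1))) * L ^ M := by
        gcongr
    _ ≤ (Real.exp (-(a * Real.sqrt L)) * (Real.exp 9 * L ^ (3 * B))) * L ^ M := by
        gcongr
    _ = Real.exp 9 * (L ^ (3 * B + M) * Real.exp (-(a * Real.sqrt L))) := by
        rw [pow_add]; ring
    _ ≤ Real.exp 9 * ((Nat.factorial K : ℝ) / a ^ K) := by gcongr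

end Pool.Agent.Lib.SW
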