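import Pool.Agent.Lib.SW.TS.TS9
import Pool.Agent.Lib.SW.LG1

/-!
# TS-10: sums of two sparse sets of primes, lower bound

PROOF.  `upper_all (K+2) η` for `S = A`: exceptional set `E`, `#E ≤ X/(log X)^(K+2)`.  Count the pairs `(a, b) ∈ A × B` with `a ≠ b`, `a, b` odd,
`b > X/(log X)^(K+2)`, `a + b ∉ E`: at least `(1 - 4 η) #A #B` (for fixed `a` the map `b ↦ a + b` is
injective, so at most `#E` of the `b` have `a + b ∈ E`).  For `N = a + b` even, `N ∉ E`, the number of such pairs with sum `N` is at most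
`rS A N/log(X/(log X)^(K+2)) ≤ (1+η) e^γ log log log X #A/((1 - η/2) log X)` (each pair contributes `lam b = log b`).  Hence the number of such
`N = 2n`, `1 ≤ n ≤ X`, is at least `(1-6 η) #B log X/(e^γ log log log X)`.
-/

set_option autoImplicit false

open Finset Pool.Agent.Lib.GT

namespace Pool.Agent.Lib.SW

/-- the pairs `(a, b)` which are counted -/
noncomputable def TS10P (A B E : Finset ℕ) (T : ℝ) : Finset (ℕ × ℕ) :=
  (A ×ˢ B).filter (fun q => q.1 ≠ q.2 ∧ q.1 ≠ 2 ∧ T < (q.2 : ℝ) ∧ q.1 + q.2 ∉ E)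

theorem TS10_P_card (A B E : Finset ℕ) (T : ℝ) (hT : 0 ≤ T) (hB : ∀ b ∈ B, 1 ≤ b) :
    (A.card : ℝ) * B.card - A.card * T - B.card - A.card - A.card * E.card ≤
      ((TS10P A B E T).card : ℝ) := by
  classical
  have hsub : A ×ˢ B ⊆ TS10P A B E T ∪ ((A.filter (fun a => a ∈ B)).image (fun a => (a, a)) ∪
      (({2} : Finset ℕ) ×ˢ B ∪ (A ×ˢ (B.filter (fun b : ℕ => (b : ℝ) ≤ T)) ∪
        (A ×ˢ B).filter (fun q => q.1 + q.2 ∈ E)))) := by
    intro q hq
    have hq' := mem_product.1 hq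
    simp only [mem_union, TS10P, mem_filter, mem_image, mem_product, mem_singleton]
    by_cases h1 : q.1 = q.2
    · right; left
      exact ⟨q.1, ⟨hq'.1, h1 ▸ hq'.2⟩, Prod.ext rfl h1⟩
    · by_cases h2 : q.1 = 2
      · right; right; left
        exact ⟨h2, hq'.2⟩
      · by_cases h3 : (q.2 : ℝ) ≤ T
        · right; right; right; left
          exact ⟨hq'.1, hq'.2, h3⟩
        · by_cases h4 : q.1 + q.2 ∈ E
          · right; right; right; right
            exact ⟨⟨hq'.1, hq'.2⟩, h4⟩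
          · left
            exact ⟨⟨hq'.1, hq'.2⟩, h1, h2, lt_of_not_ge h3, h4⟩
  have h1 := card_le_card hsub
  have h2 : (A ×ˢ B).card = A.card * B.card := card_product _ _
  have h3 : ((A.filter (fun a => a ∈ B)).image (fun a => (a, a))).card ≤ A.card :=
    card_image_le.trans (card_filter_le _ _)
  have h4 : (({2} : Finset ℕ) ×ˢ B).card = B.card := by
    rw [card_product, card_singleton, one_mul]
  have h5 : (((A ×ˢ (B.filter (fun b : ℕ => (b : ℝ) ≤ T))).card : ℕ) : ℝ) ≤ A.card * T := by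
    rw [card_product]
    push_cast
    refine mul_le_mul_of_nonneg_left ?_ (Nat.cast_nonneg _)
    have h6 : B.filter (fun b : ℕ => (b : ℝ) ≤ T) ⊆ Icc 1 ⌊T⌋₊ := by
      intro b hb
      obtain ⟨hb1, hb2⟩ := mem_filter.1 hb
      exact mem_Icc.2 ⟨hB b hb1, Nat.le_floor hb2⟩
    have h7 := card_le_card h6
    rw [Nat.card_Icc, Nat.add_sub_cancel] at h7
    calc ((B.filter (fun b : ℕ => (b : ℝ) ≤ T)).card : ℝ) ≤ (⌊T⌋₊ : ℝ) := by exact_mod_cast h7
      _ ≤ T := Nat.floor_le hT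
  have h6 : ((A ×ˢ B).filter (fun q => q.1 + q.2 ∈ E)).card ≤ A.card * E.card := by
    rw [← card_product]
    refine card_le_card_of_injOn (fun q => (q.1, q.1 + q.2)) ?_ ?_
    · intro q hq
      obtain ⟨hq1, hq2⟩ := mem_filter.1 (mem_coe.1 hq)
      exact mem_coe.2 (mem_product.2 ⟨(mem_product.1 hq1).1, hq2⟩)
    · intro q _ q' _ h
      have h8 := congrArg Prod.fst h
      have h9 := congrArg Prod.snd h
      dsimp only at h8 h9
      refine Prod.ext h8 ?_
      omega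
  have h7 : (A ×ˢ B).card ≤ (TS10P A B E T).card +
      (((A.filter (fun a => a ∈ B)).image (fun a => (a, a))).card +
      ((({2} : Finset ℕ) ×ˢ B).card + ((A ×ˢ (B.filter (fun b : ℕ => (b : ℝ) ≤ T))).card +
        ((A ×ˢ B).filter (fun q => q.1 + q.2 ∈ E)).card))) := by
    refine h1.trans ((card_union_le _ _).trans (Nat.add_le_add_left ?_ _))
    refine (card_union_le _ _).trans (Nat.add_le_add_left ?_ _)
    refine (card_union_le _ _).trans (Nat.add_le_add_left ?_ _)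
    exact card_union_le _ _
  have h8 : ((A ×ˢ B).card : ℝ) ≤ ((TS10P A B E T).card : ℝ) +
      ((((A.filter (fun a => a ∈ B)).image (fun a => (a, a))).card : ℝ) +
      (((({2} : Finset ℕ) ×ˢ B).card : ℝ) + (((A ×ˢ (B.filter (fun b : ℕ => (b : ℝ) ≤ T))).card : ℝ) +
        (((A ×ˢ B).filter (fun q => q.1 + q.2 ∈ E)).card : ℝ)))) := by
    exact_mod_cast h7
  have h9 : ((A ×ˢ B).card : ℝ) = A.card * B.card := by rw [h2]; push_cast; rfl
  have h10 : (((A.filter (fun a => a ∈ B)).image (fun a => (a, a))).card : ℝ) ≤ A.card := by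
    exact_mod_cast h3
  have h11 : ((({2} : Finset ℕ) ×ˢ B).card : ℝ) = B.card := by rw [h4]
  have h12 : (((A ×ˢ B).filter (fun q => q.1 + q.2 ∈ E)).card : ℝ) ≤ A.card * E.card := by
    exact_mod_cast h6
  linarith

/-- the fibre of `(a, b) ↦ (a + b)/2` -/
theorem TS10_fibre (A B E : Finset ℕ) (T : ℝ) (hT : 2 ≤ T) (hA : ∀ a ∈ A, a.Prime)
    (hB : ∀ b ∈ B, b.Prime) (n : ℕ) :
    (((TS10P A B E T).filter (fun q => (q.1 + q.2) / 2 = n)).card : ℝ) * Real.log T ≤
      rS A (2 * n) := by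
  classical
  set F := (TS10P A B E T).filter (fun q => (q.1 + q.2) / 2 = n) with hF
  have hmem : ∀ q ∈ F, q.1 ∈ A ∧ q.2 ∈ B ∧ T < (q.2 : ℝ) ∧ q.1 + q.2 = 2 * n := by
    intro q hq
    rw [hF, mem_filter, TS10P, mem_filter, mem_product] at hq
    obtain ⟨⟨⟨hq1, hq2⟩, _, hq4, hq5, _⟩, hq7⟩ := hq
    refine ⟨hq1, hq2, hq5, ?_⟩
    have h1 : q.1 % 2 = 1 := (hA _ hq1).eq_two_or_odd.resolve_left hq4
    have h2 : q.2 % 2 = 1 := by
      refine (hB _ hq2).eq_two_or_odd.resolve_left ?_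
      intro h3
      rw [h3] at hq5
      push_cast at hq5
      linarith
    omega
  have h1 : (F.card : ℝ) * Real.log T ≤ ∑ q ∈ F, lam (2 * n - q.1) := by
    rw [← nsmul_eq_mul]
    refine card_nsmul_le_sum _ _ _ ?_
    intro q hq
    obtain ⟨_, hq2, hq3, hq4⟩ := hmem q hq
    have h2 : 2 * n - q.1 = q.2 := by omega
    rw [h2]
    unfold lam
    rw [if_pos (hB _ hq2)]
    exact Real.log_le_log (by linarith) hq3.le
  refine h1.trans ?_
  have hinj : Set.InjOn (fun q : ℕ × ℕ => q.1) F := by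
    intro q hq q' hq' h
    have h2 := (hmem q (mem_coe.1 hq)).2.2.2
    have h3 := (hmem q' (mem_coe.1 hq')).2.2.2
    dsimp only at h
    refine Prod.ext h ?_
    omega
  have h2 : ∑ q ∈ F, lam (2 * n - q.1) = ∑ a ∈ F.image (fun q => q.1), lam (2 * n - a) := by
    rw [sum_image hinj]
  rw [h2]
  unfold rS
  refine sum_le_sum_of_subset_of_nonneg ?_ ?_
  · intro a ha
    obtain ⟨q, hq, rfl⟩ := mem_image.1 ha
    obtain ⟨hq1, hq2, _, hq4⟩ := hmem q hq
    refine mem_filter.2 ⟨hq1, ?_⟩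
    have := (hB _ hq2).pos
    omega
  · intro a _ _
    unfold lam
    split_ifs
    · exact Real.log_natCast_nonneg _
    · exact le_rfl

/-- an element of `TS10P` is a pair of distinct odd primes with sum outside `E` -/
theorem TS10_mem {A B E : Finset ℕ} {T : ℝ} (hT : 2 ≤ T) {X : ℕ} (hA : ∀ a ∈ A, a.Prime ∧ a ≤ X)
    (hB : ∀ b ∈ B, b.Prime ∧ b ≤ X) {q : ℕ × ℕ} (hq : q ∈ TS10P A B E T) :
    q.1 ∈ A ∧ q.2 ∈ B ∧ q.1 ≠ q.2 ∧ q.1 + q.2 = 2 * ((q.1 + q.2) / 2) ∧
      (q.1 + q.2) / 2 ∈ Icc 1 X ∧ q.1 + q.2 ∈ Icc 1 (2 * X) ∧ q.1 + q.2 ∉ E := by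
  obtain ⟨h3, h4, h5, h6, h7⟩ := mem_filter.1 hq
  have h8 := mem_product.1 h3
  have h9 := hA _ h8.1
  have h10 := hB _ h8.2
  have h11 : q.1 % 2 = 1 := h9.1.eq_two_or_odd.resolve_left h5
  have h12 : q.2 % 2 = 1 := by
    refine h10.1.eq_two_or_odd.resolve_left ?_
    intro h13
    rw [h13] at h6
    push_cast at h6
    linarith
  have h14 := h9.1.pos
  have h15 := h9.2
  have h16 := h10.2
  refine ⟨h8.1, h8.2, h4, ?_, ?_, ?_, h7⟩
  · omega
  · exact mem_Icc.2 ⟨by omega, by omega⟩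
  · exact mem_Icc.2 ⟨by omega, by omega⟩

theorem TS10_real {a b T e η p : ℝ} (ha : 0 < a) (hb : 0 < b) (ha1 : 1 ≤ η * a) (hb1 : 1 ≤ η * b)
    (hT : T ≤ η * b) (he : e ≤ T) (hp : a * b - a * T - b - a - a * e ≤ p) :
    (1 - 4 * η) * (a * b) ≤ p := by
  have h1 : a * T ≤ a * (η * b) := mul_le_mul_of_nonneg_left hT ha.le
  have h2 : a * e ≤ a * (η * b) := mul_le_mul_of_nonneg_left (he.trans hT) ha.le
  have h3 : 1 * b ≤ η * a * b := mul_le_mul_of_nonneg_right ha1 hb.le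
  have h4 : a * 1 ≤ a * (η * b) := mul_le_mul_of_nonneg_left hb1 ha.le
  have h5 : η * a * b = a * (η * b) := by ring
  have h6 : (1 - 4 * η) * (a * b) = a * b - 4 * (a * (η * b)) := by ring
  linarith

theorem TS10_real2 {η : ℝ} (hη : 0 < η) :
    (1 - 6 * η) * (1 + η) ≤ (1 - 4 * η) * (1 - η / 2) := by
  have h1 : (1 - 4 * η) * (1 - η / 2) - (1 - 6 * η) * (1 + η) = η / 2 + 8 * η ^ 2 := by ring
  have h2 : 0 ≤ η / 2 + 8 * η ^ 2 := by positivity
  linarith

theorem two_sets (K : ℕ) (ε : ℝ) (hε : 0 < ε) : ∃ X₀ : ℕ, ∀ X : ℕ, X₀ ≤ X →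
    ∀ A B : Finset ℕ, (∀ a ∈ A, a.Prime ∧ a ≤ X) → (∀ b ∈ B, b.Prime ∧ b ≤ X) →
      X / (Real.log X) ^ K ≤ (A.card : ℝ) → X / (Real.log X) ^ K ≤ (B.card : ℝ) →
        (Real.exp (-Real.eulerMascheroniConstant) - ε) * B.card * Real.log X /
            Real.log (Real.log (Real.log X)) ≤
          (((Icc 1 X).filter (fun n => ∃ a ∈ A, ∃ b ∈ B, a ≠ b ∧ a + b = 2 * n)).card : ℝ) := by
  classical
  set η : ℝ := min ε 1 / 6 with hη
  have hmin : 0 < min ε 1 := lt_min hε one_pos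
  have hη0 : 0 < η := by rw [hη]; positivity
  have hη1 : η ≤ 1 / 6 := by
    rw [hη]
    have := min_le_right ε 1
    linarith
  have hηε : 6 * η ≤ ε := by
    rw [hη]
    have := min_le_left ε 1
    linarith
  obtain ⟨X₁, hX₁⟩ := upper_all (K + 2) η hη0
  obtain ⟨X₂, hX₂⟩ := eventually_range K η hη0
  obtain ⟨X₃, hX₃⟩ := Filter.eventually_atTop.1
    (((LG3_log_ev (max 1 (1 / η))).and (LG3_log3_ev 1)).and
      ((eventually_log_pow (K + 2) (1 / 2) (by norm_num)).and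
        (eventually_log_pow K η hη0)))
  refine ⟨max (max X₁ X₂) (max X₃ 1), fun X hX A B hA hB hAc hBc => ?_⟩
  have hXa : X₁ ≤ X := ((le_max_left _ _).trans (le_max_left _ _)).trans hX
  have hXb : X₂ ≤ X := ((le_max_right _ _).trans (le_max_left _ _)).trans hX
  have hXc : X₃ ≤ X := ((le_max_left _ _).trans (le_max_right _ _)).trans hX
  have hXd : 1 ≤ X := ((le_max_right _ _).trans (le_max_right _ _)).trans hX
  obtain ⟨⟨hL, hT3⟩, hL2, hLK⟩ := hX₃ X hXc
  obtain ⟨_, _, hT1, hTlog⟩ := hX₂ X hXb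
  have hL1 : 1 ≤ Real.log X := (le_max_left _ _).trans hL
  have hLη : 1 / η ≤ Real.log X := (le_max_right _ _).trans hL
  have hX0 : (0 : ℝ) < X := by exact_mod_cast hXd
  set L : ℝ := Real.log X with hLdef
  have hL0 : 0 < L := by linarith
  set T3 : ℝ := Real.log (Real.log L) with hT3def
  have hT30 : 0 < T3 := by linarith
  set T : ℝ := X / L ^ (K + 2) with hT
  have hT2 : 2 ≤ T := by
    rw [hT, le_div_iff₀ (by positivity)]
    linarith
  have hAsub : A ⊆ Icc 1 X := fun a ha => mem_Icc.2 ⟨(hA a ha).1.one_le, (hA a ha).2⟩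
  have hLsq : 1 / L ^ 2 ≤ η := by
    rw [div_le_iff₀ (by positivity)]
    rw [div_le_iff₀ hη0] at hLη
    nlinarith
  have hTB : ∀ c : ℝ, X / L ^ K ≤ c → T ≤ η * c := by
    intro c hc
    have h1 : T = 1 / L ^ 2 * (X / L ^ K) := by
      rw [hT, pow_add]
      field_simp
    rw [h1]
    exact mul_le_mul hLsq hc (by positivity) hη0.le
  set E := (Icc 1 (2 * X)).filter (fun N =>
        (1 + η) * Real.exp Real.eulerMascheroniConstant * Real.log (Real.log (Real.log X)) *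
          A.card < rS A N) with hE
  have hAc2 : X / (Real.log X) ^ (K + 2) ≤ (A.card : ℝ) := by
    refine le_trans ?_ hAc
    exact div_le_div_of_nonneg_left hX0.le (by positivity)
      (pow_le_pow_right₀ hL1 (by omega))
  have hEc : (E.card : ℝ) ≤ T := hX₁ X hXa A hAsub hAc2
  have hone : ∀ c : ℝ, X / L ^ K ≤ c → 1 ≤ η * c := by
    intro c hc
    have h1 : 1 / η ≤ X / L ^ K := by
      rw [div_le_div_iff₀ hη0 (by positivity)]
      linarith
    have h2 := h1.trans hc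
    rw [div_le_iff₀ hη0] at h2
    linarith
  have hPc := TS10_P_card A B E T (by linarith) (fun b hb => (hB b hb).1.one_le)
  set a : ℝ := (A.card : ℝ) with ha
  set b : ℝ := (B.card : ℝ) with hb
  have ha1 := hone a hAc
  have hb1 := hone b hBc
  have ha0 : 0 < a := lt_of_lt_of_le (by positivity) hAc
  have hb0 : 0 < b := lt_of_lt_of_le (by positivity) hBc
  have hTb := hTB b hBc
  have hP : (1 - 4 * η) * (a * b) ≤ ((TS10P A B E T).card : ℝ) :=
    TS10_real ha0 hb0 ha1 hb1 hTb hEc hPc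
  set D := (Icc 1 X).filter (fun n => ∃ a ∈ A, ∃ b ∈ B, a ≠ b ∧ a + b = 2 * n) with hD
  set G : ℝ := Real.exp Real.eulerMascheroniConstant with hG
  have hG0 : 0 < G := Real.exp_pos _
  have hlT : 0 < Real.log T := Real.log_pos hT1
  have hfib : ∀ n ∈ D, (((TS10P A B E T).filter (fun q => (q.1 + q.2) / 2 = n)).card : ℝ) ≤
      (1 + η) * G * T3 * a / Real.log T := by
    intro n hn
    rw [le_div_iff₀ hlT]
    by_cases hne : ((TS10P A B E T).filter (fun q => (q.1 + q.2) / 2 = n)) = ∅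
    · rw [hne]
      simp only [card_empty, Nat.cast_zero, zero_mul]
      positivity
    · obtain ⟨q, hq⟩ := nonempty_iff_ne_empty.2 hne
      refine (TS10_fibre A B E T hT2 (fun a ha => (hA a ha).1) (fun b hb => (hB b hb).1) n).trans ?_
      obtain ⟨hq1, hq2⟩ := mem_filter.1 hq
      obtain ⟨_, _, _, h4, _, h6, h7⟩ := TS10_mem hT2 hA hB hq1
      rw [hq2] at h4
      rw [h4] at h6 h7
      by_contra hcon
      exact h7 (mem_filter.2 ⟨h6, lt_of_not_ge hcon⟩)
  have hmaps : ∀ q ∈ TS10P A B E T, (q.1 + q.2) / 2 ∈ D := by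
    intro q hq
    obtain ⟨h1, h2, h3, h4, h5, h6, h7⟩ := TS10_mem hT2 hA hB hq
    exact mem_filter.2 ⟨h5, q.1, h1, q.2, h2, h3, h4⟩
  have hcount : ((TS10P A B E T).card : ℝ) ≤ D.card * ((1 + η) * G * T3 * a / Real.log T) := by
    have h1 := card_eq_sum_card_fiberwise (f := fun q : ℕ × ℕ => (q.1 + q.2) / 2) hmaps
    have h2 : ((TS10P A B E T).card : ℝ) =
        ∑ n ∈ D, (((TS10P A B E T).filter (fun q => (q.1 + q.2) / 2 = n)).card : ℝ) := by
      exact_mod_cast h1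
    rw [h2, ← nsmul_eq_mul]
    exact sum_le_card_nsmul _ _ _ hfib
  have hGinv : Real.exp (-Real.eulerMascheroniConstant) = 1 / G := by
    rw [hG, Real.exp_neg, one_div]
  have hG1 : 1 / G ≤ 1 := by
    rw [← hGinv]
    exact Real.exp_le_one_iff.2 (by
      have := Real.one_half_lt_eulerMascheroniConstant
      linarith)
  rw [hGinv, div_le_iff₀ hT30]
  have h1 : (1 - 4 * η) * (a * b) * Real.log T ≤ D.card * ((1 + η) * G * T3 * a) := by
    calc (1 - 4 * η) * (a * b) * Real.log T ≤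
          D.card * ((1 + η) * G * T3 * a / Real.log T) * Real.log T :=
          mul_le_mul_of_nonneg_right (hP.trans hcount) hlT.le
      _ = D.card * ((1 + η) * G * T3 * a) := by field_simp
  have h2 : (1 - 4 * η) * (a * b) * ((1 - η / 2) * L) ≤ D.card * ((1 + η) * G * T3 * a) := by
    refine le_trans ?_ h1
    refine mul_le_mul_of_nonneg_left hTlog ?_
    have : 0 ≤ 1 - 4 * η := by linarith
    positivity
  have h3 : (1 - 4 * η) * (1 - η / 2) * b * L ≤ D.card * ((1 + η) * G * T3) := by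
    refine le_of_mul_le_mul_right ?_ ha0
    calc (1 - 4 * η) * (1 - η / 2) * b * L * a = (1 - 4 * η) * (a * b) * ((1 - η / 2) * L) := by
          ring
      _ ≤ D.card * ((1 + η) * G * T3 * a) := h2
      _ = D.card * ((1 + η) * G * T3) * a := by ring
  have h4 : (1 - 6 * η) * (1 + η) ≤ (1 - 4 * η) * (1 - η / 2) := TS10_real2 hη0
  have h5 : (1 - 6 * η) * b * L ≤ D.card * (G * T3) := by
    have h6 : 0 < 1 + η := by linarith
    refine le_of_mul_le_mul_right ?_ h6
    calc (1 - 6 * η) * b * L * (1 + η) = (1 - 6 * η) * (1 + η) * (b * L) := by ring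
      _ ≤ (1 - 4 * η) * (1 - η / 2) * (b * L) := mul_le_mul_of_nonneg_right h4 (by positivity)
      _ = (1 - 4 * η) * (1 - η / 2) * b * L := by ring
      _ ≤ D.card * ((1 + η) * G * T3) := h3
      _ = D.card * (G * T3) * (1 + η) := by ring
  have h6 : (1 / G - ε) ≤ (1 - 6 * η) * (1 / G) := by
    have h7 : 6 * η * (1 / G) ≤ 6 * η * 1 := mul_le_mul_of_nonneg_left hG1 (by linarith)
    have h8 : (1 - 6 * η) * (1 / G) = 1 / G - 6 * η * (1 / G) := by ring
    linarith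
  calc (1 / G - ε) * b * L ≤ (1 - 6 * η) * (1 / G) * b * L := by gcongr
    _ = (1 - 6 * η) * b * L / G := by ring
    _ ≤ D.card * (G * T3) / G := div_le_div_of_nonneg_right h5 hG0.le
    _ = D.card * T3 := by field_simp

end Pool.Agent.Lib.SW
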