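import Pool.Agent.Lib.SW.TS.TS1

/-!
# TS-2: rough numbers in residue classes

PROOF.  `P = primorial z`, `z = zB B X`, `q ≤ z`, `(b, q) = 1`.  For `n ≡ b mod q`, `(n, P) = 1` iff `(n, P') = 1`, `P' = ∏_{p ≤ z, p ∤ q} p`
(every prime factor of `q` is `≤ z` and does not divide `n`).  `1_{(n, P') = 1} = ∑_{d | (n, P')} μ(d)`
(`sum_moebius`...).  With `D = X^(1/4)`: the part `d ≤ D` gives `∑_{d | P', d ≤ D} μ(d) (Y/(dq) + O(1))` (`d` is coprime to `q`, CRT),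
the part `d > D` is at most `∑_{n ≤ Y} ∑_{d | (n,P), d > D} 1 ≤ Y ∑_{d | P, d > D} 1/d`, and
`∑_{d | P', d ≤ D} μ(d)/d = ∏_{p | P'} (1 - 1/p) + O(∑_{d | P, d > D} 1/d)`; `(1/q) ∏_{p | P'} (1 - 1/p) = Vz z/φ(q)`.
Total error `D + 2 X ∑_{d > D} 1/d` and `rankin_tail`; `X^(1/4) ≤ C X/log^M X`.
-/

set_option autoImplicit false

open Finset Pool.Agent.Lib.GT

namespace Pool.Agent.Lib.SW

theorem TS2_log_pos {X : ℕ} (hX : 3 ≤ X) : 1 ≤ Real.log X := by
  have h3 : (3 : ℝ) ≤ X := by exact_mod_cast hX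
  rw [Real.le_log_iff_exp_le (by linarith)]
  exact (Real.exp_one_lt_d9.le.trans (by norm_num)).trans h3

theorem TS2_pow (M : ℕ) : ∃ C : ℝ, 0 < C ∧ ∀ X : ℕ, 3 ≤ X →
    (X : ℝ) ^ (1 / 4 : ℝ) ≤ C * X / (Real.log X) ^ M := by
  refine ⟨(2 * ((M : ℝ) + 1)) ^ M, by positivity, fun X hX => ?_⟩
  have hX0 : (1 : ℝ) ≤ X := by exact_mod_cast (by omega : 1 ≤ X)
  have hL := TS2_log_pos hX
  have hLM : 0 < (Real.log X) ^ M := by positivity
  rw [le_div_iff₀ hLM]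
  have h1 : Real.log X ≤ (X : ℝ) ^ (1 / (2 * ((M : ℝ) + 1))) / (1 / (2 * ((M : ℝ) + 1))) :=
    Real.log_le_rpow_div (by linarith) (by positivity)
  have h2 : (Real.log X) ^ M ≤ (2 * ((M : ℝ) + 1)) ^ M * (X : ℝ) ^ (3 / 4 : ℝ) := by
    calc (Real.log X) ^ M ≤ ((X : ℝ) ^ (1 / (2 * ((M : ℝ) + 1))) / (1 / (2 * ((M : ℝ) + 1)))) ^ M := by
          gcongr
      _ = (2 * ((M : ℝ) + 1)) ^ M * ((X : ℝ) ^ (1 / (2 * ((M : ℝ) + 1)))) ^ M := by
          rw [div_div_eq_mul_div, div_one, mul_comm, mul_pow]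
      _ ≤ (2 * ((M : ℝ) + 1)) ^ M * (X : ℝ) ^ (3 / 4 : ℝ) := by
          gcongr
          rw [← Real.rpow_natCast, ← Real.rpow_mul (by linarith)]
          apply Real.rpow_le_rpow_of_exponent_le hX0
          rw [div_mul_eq_mul_div, one_mul, div_le_div_iff₀ (by positivity) (by norm_num)]
          nlinarith [(Nat.cast_nonneg M : (0 : ℝ) ≤ M)]
  calc (X : ℝ) ^ (1 / 4 : ℝ) * (Real.log X) ^ M ≤
      (X : ℝ) ^ (1 / 4 : ℝ) * ((2 * ((M : ℝ) + 1)) ^ M * (X : ℝ) ^ (3 / 4 : ℝ)) := by gcongr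
    _ = (2 * ((M : ℝ) + 1)) ^ M * ((X : ℝ) ^ (1 / 4 : ℝ) * (X : ℝ) ^ (3 / 4 : ℝ)) := by ring
    _ = (2 * ((M : ℝ) + 1)) ^ M * X := by
        rw [← Real.rpow_add (by linarith)]
        norm_num

theorem TS2_sum_mu (m n : ℕ) (hm : m ≠ 0) :
    ∑ d ∈ m.divisors.filter (fun d => d ∣ n), ((ArithmeticFunction.moebius d : ℤ) : ℝ) =
      if Nat.Coprime n m then 1 else 0 := by
  have h1 : m.divisors.filter (fun d => d ∣ n) = (Nat.gcd n m).divisors := by
    ext d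
    rw [mem_filter, Nat.mem_divisors, Nat.mem_divisors, Nat.dvd_gcd_iff]
    have : Nat.gcd n m ≠ 0 := Nat.gcd_ne_zero_right hm
    tauto
  have h2 : ∑ d ∈ (Nat.gcd n m).divisors, ArithmeticFunction.moebius d =
      (1 : ArithmeticFunction ℤ) (Nat.gcd n m) := by
    rw [← ArithmeticFunction.moebius_mul_coe_zeta, ArithmeticFunction.coe_mul_zeta_apply]
  rw [h1, ← Int.cast_sum, h2, ArithmeticFunction.one_apply]
  unfold Nat.Coprime
  split_ifs <;> simp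

theorem TS2_count (Y d q b : ℕ) (hd : 0 < d) (hq : 0 < q) (hc : Nat.Coprime d q) :
    |(((Icc 1 Y).filter (fun n => n ≡ b [MOD q] ∧ d ∣ n)).card : ℝ) - Y / ((d : ℝ) * q)| ≤ 1 := by
  obtain ⟨c, hc1, hc2⟩ := Nat.chineseRemainder hc 0 b
  have h1 : (Icc 1 Y).filter (fun n => n ≡ b [MOD q] ∧ d ∣ n) =
      (Ioc 0 Y).filter (fun n => n ≡ c [MOD (d * q)]) := by
    ext n
    rw [mem_filter, mem_filter, mem_Icc, mem_Ioc, ← Nat.modEq_and_modEq_iff_modEq_mul hc]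
    have e1 : n ≡ b [MOD q] ↔ n ≡ c [MOD q] := ⟨fun h => h.trans hc2.symm, fun h => h.trans hc2⟩
    have e2 : d ∣ n ↔ n ≡ c [MOD d] := by
      rw [← Nat.modEq_zero_iff_dvd]
      exact ⟨fun h => h.trans hc1.symm, fun h => h.trans hc1⟩
    rw [e1, e2, Nat.lt_iff_add_one_le]
    tauto
  have hr : 0 < d * q := Nat.mul_pos hd hq
  have h2 := Nat.Ioc_filter_modEq_card 0 Y hr c
  rw [h1]
  set r : ℕ := d * q with hrdef
  have hrR : (0 : ℝ) < r := by exact_mod_cast hr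
  have h3 : (((Ioc 0 Y).filter (fun n => n ≡ c [MOD r])).card : ℤ) =
      ⌊((Y : ℚ) - c) / (r : ℚ)⌋ - ⌊(((0 : ℕ) : ℚ) - c) / (r : ℚ)⌋ := by
    rw [h2, max_eq_left]
    rw [sub_nonneg]
    apply Int.floor_le_floor
    gcongr
    exact_mod_cast Nat.zero_le Y
  have h4 : (((Ioc 0 Y).filter (fun n => n ≡ c [MOD r])).card : ℝ) =
      (⌊((Y : ℝ) - c) / (r : ℝ)⌋ : ℝ) - (⌊(((0 : ℕ) : ℝ) - c) / (r : ℝ)⌋ : ℝ) := by
    have e1 : ⌊((Y : ℝ) - c) / (r : ℝ)⌋ = ⌊((Y : ℚ) - c) / (r : ℚ)⌋ := by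
      have : ((Y : ℝ) - c) / (r : ℝ) = ((((Y : ℚ) - c) / (r : ℚ) : ℚ) : ℝ) := by push_cast; rfl
      rw [this, Rat.floor_cast]
    have e2 : ⌊(((0 : ℕ) : ℝ) - c) / (r : ℝ)⌋ = ⌊(((0 : ℕ) : ℚ) - c) / (r : ℚ)⌋ := by
      have : (((0 : ℕ) : ℝ) - c) / (r : ℝ) = (((((0 : ℕ) : ℚ) - c) / (r : ℚ) : ℚ) : ℝ) := by
        push_cast; rfl
      rw [this, Rat.floor_cast]
    rw [e1, e2, ← Int.cast_sub, ← h3, Int.cast_natCast]
  have f1 := Int.floor_le (((Y : ℝ) - c) / (r : ℝ))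
  have f2 := Int.lt_floor_add_one (((Y : ℝ) - c) / (r : ℝ))
  have f3 := Int.floor_le ((((0 : ℕ) : ℝ) - c) / (r : ℝ))
  have f4 := Int.lt_floor_add_one ((((0 : ℕ) : ℝ) - c) / (r : ℝ))
  have f5 : (Y : ℝ) / ((d : ℝ) * q) = ((Y : ℝ) - c) / (r : ℝ) - (((0 : ℕ) : ℝ) - c) / (r : ℝ) := by
    rw [hrdef]; push_cast; ring
  rw [h4, f5, abs_le]
  constructor <;> linarith

theorem TS2_count_le (Y d q b : ℕ) (hd : 0 < d) :
    (((Icc 1 Y).filter (fun n => n ≡ b [MOD q] ∧ d ∣ n)).card : ℝ) ≤ Y / (d : ℝ) := by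
  have h1 : ((Icc 1 Y).filter (fun n => n ≡ b [MOD q] ∧ d ∣ n)).card ≤ Y / d := by
    rw [← Nat.card_multiples Y d]
    refine card_le_card_of_injOn (fun n => n - 1) ?_ ?_
    · intro n hn
      rw [mem_coe, mem_filter, mem_Icc] at hn
      rw [mem_coe, mem_filter, mem_range]
      have e1 : n - 1 < Y := by omega
      refine ⟨e1, ?_⟩
      show d ∣ n - 1 + 1
      rw [Nat.sub_add_cancel hn.1.1]
      exact hn.2.2
    · intro n hn m hm h
      rw [mem_coe, mem_filter, mem_Icc] at hn hm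
      simp only at h
      omega
  calc (((Icc 1 Y).filter (fun n => n ≡ b [MOD q] ∧ d ∣ n)).card : ℝ) ≤ ((Y / d : ℕ) : ℝ) := by
        exact_mod_cast h1
    _ ≤ Y / (d : ℝ) := Nat.cast_div_le

theorem TS2_totient (n : ℕ) (hn : n ≠ 0) :
    (n.totient : ℝ) / n = ∏ p ∈ n.primeFactors, (1 - 1 / (p : ℝ)) := by
  have h := Nat.totient_eq_mul_prod_factors n
  have h2 : ((n.totient : ℚ) : ℝ) = ((n * ∏ p ∈ n.primeFactors, (1 - (p : ℚ)⁻¹) : ℚ) : ℝ) := by
    rw [h]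
  push_cast at h2
  rw [h2]
  have : (n : ℝ) ≠ 0 := by exact_mod_cast hn
  field_simp

theorem TS2_mu_div (n : ℕ) (hn : Squarefree n) :
    ∑ d ∈ n.divisors, ((ArithmeticFunction.moebius d : ℤ) : ℝ) / d =
      ∏ p ∈ n.primeFactors, (1 - 1 / (p : ℝ)) := by
  let f : ArithmeticFunction ℝ := ⟨fun d => 1 / (d : ℝ), by simp⟩
  have hf : f.IsMultiplicative := by
    refine ⟨by simp [f], ?_⟩
    intro m n _
    simp only [f, ArithmeticFunction.coe_mk, Nat.cast_mul]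
    rw [one_div_mul_one_div]
  have h := ArithmeticFunction.IsMultiplicative.prodPrimeFactors_one_sub_of_squarefree f hf hn
  have h2 : ∏ p ∈ n.primeFactors, (1 - 1 / (p : ℝ)) = ∏ p ∈ n.primeFactors, (1 - f p) := rfl
  rw [h2, h]
  apply sum_congr rfl
  intro d _
  simp only [f, ArithmeticFunction.coe_mk]
  rw [mul_one_div]

theorem rz_ap (B M : ℕ) : ∃ C : ℝ, 0 < C ∧ ∀ X : ℕ, 3 ≤ X → ∀ Y : ℕ, Y ≤ X → ∀ q b : ℕ, 1 ≤ q →
    q ≤ zB B X → Nat.Coprime b q →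
      |∑ n ∈ (Icc 1 Y).filter (fun n => n ≡ b [MOD q]), rz (zB B X) n -
        Y * Vz (zB B X) / (q.totient : ℝ)| ≤ C * X / (Real.log X) ^ M := by
  obtain ⟨C1, hC1, h1⟩ := rankin_tail B M
  obtain ⟨C2, hC2, h2⟩ := TS2_pow M
  refine ⟨C2 + 2 * C1, by positivity, fun X hX Y hY q b hq hqz hb => ?_⟩
  have hL := TS2_log_pos hX
  set z := zB B X with hz
  have hq0 : q ≠ 0 := by omega
  set s := (Nat.primesLE z).filter (fun p => ¬ p ∣ q) with hs
  set P' := ∏ p ∈ s, p with hP'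
  have hsp : ∀ p ∈ s, p.Prime := fun p hp => Nat.prime_of_mem_primesLE (mem_filter.1 hp).1
  have hP'pf : P'.primeFactors = s := Nat.primeFactors_prod hsp
  have hP'0 : P' ≠ 0 := prod_ne_zero_iff.2 fun p hp => (hsp p hp).ne_zero
  have hP'P : P' ∣ primorial z := by
    rw [primorial_eq_prod_primesLE]
    exact prod_dvd_prod_of_subset _ _ _ (filter_subset _ _)
  have hsq : Squarefree P' := by
    rw [hP']
    refine Finset.squarefree_prod_of_pairwise_isCoprime ?_ (fun p hp => (hsp p hp).prime.squarefree)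
    intro a ha b hb hab
    exact Nat.coprime_iff_isRelPrime.1 ((Nat.coprime_primes (hsp a ha) (hsp b hb)).2 hab)
  have hcop : Nat.Coprime P' q := by
    rw [hP']
    apply Nat.Coprime.prod_left
    intro p hp
    exact (Nat.Prime.coprime_iff_not_dvd (hsp p hp)).2 (mem_filter.1 hp).2
  -- coprimality with the primorial
  have hrz : ∀ n, n ≡ b [MOD q] → rz z n = if Nat.Coprime n P' then 1 else 0 := by
    intro n hn
    have hnq : Nat.Coprime n q := by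
      rw [Nat.coprime_iff_gcd_eq_one, hn.gcd_eq]
      exact hb
    have : Nat.Coprime n (primorial z) ↔ Nat.Coprime n P' := by
      constructor
      · exact fun h => h.coprime_dvd_right hP'P
      · intro h
        rw [primorial_eq_prod_primesLE, Nat.coprime_prod_right_iff]
        intro p hp
        by_cases hpq : p ∣ q
        · exact hnq.coprime_dvd_right hpq
        · exact h.coprime_dvd_right (dvd_prod_of_mem _ (mem_filter.2 ⟨hp, hpq⟩))
    unfold rz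
    simp only [this]
  -- the density
  have hdens : (Y : ℝ) * Vz z / (q.totient : ℝ) =
      ∑ d ∈ P'.divisors, ((ArithmeticFunction.moebius d : ℤ) : ℝ) * (Y / ((d : ℝ) * q)) := by
    have e1 : Vz z = ∏ p ∈ Nat.primesLE z, (1 - 1 / (p : ℝ)) := by
      unfold Vz
      rw [TS2_totient _ (primorial_ne_zero z), primeFactors_primorial]
    have e2 : (q.totient : ℝ) / q = ∏ p ∈ q.primeFactors, (1 - 1 / (p : ℝ)) :=
      TS2_totient q hq0
    have e3 : (Nat.primesLE z).filter (fun p => p ∣ q) = q.primeFactors := by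
      ext p
      rw [mem_filter, Nat.mem_primesLE, Nat.mem_primeFactors]
      constructor
      · rintro ⟨⟨_, h⟩, h'⟩
        exact ⟨h, h', hq0⟩
      · rintro ⟨h, h', _⟩
        exact ⟨⟨(Nat.le_of_dvd (by omega) h').trans hqz, h⟩, h'⟩
    have e4 : Vz z = ((q.totient : ℝ) / q) * ∏ p ∈ P'.primeFactors, (1 - 1 / (p : ℝ)) := by
      rw [e1, e2, hP'pf, ← e3, hs, prod_filter_mul_prod_filter_not]
    have hqR : (q : ℝ) ≠ 0 := by exact_mod_cast hq0
    have htR : (q.totient : ℝ) ≠ 0 := by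
      exact_mod_cast (Nat.totient_pos.2 (by omega)).ne'
    rw [e4, ← TS2_mu_div P' hsq]
    have e5 : ∑ d ∈ P'.divisors, ((ArithmeticFunction.moebius d : ℤ) : ℝ) * (Y / ((d : ℝ) * q)) =
        (Y / q) * ∑ d ∈ P'.divisors, ((ArithmeticFunction.moebius d : ℤ) : ℝ) / d := by
      rw [mul_sum]
      apply sum_congr rfl
      intro d hd
      have hd0 : (d : ℝ) ≠ 0 := by exact_mod_cast (Nat.pos_of_mem_divisors hd).ne'
      field_simp
    rw [e5]
    field_simp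
  -- the sum
  have hsum : ∑ n ∈ (Icc 1 Y).filter (fun n => n ≡ b [MOD q]), rz z n =
      ∑ d ∈ P'.divisors, ((ArithmeticFunction.moebius d : ℤ) : ℝ) *
        (((Icc 1 Y).filter (fun n => n ≡ b [MOD q] ∧ d ∣ n)).card : ℝ) := by
    have e1 : ∀ n ∈ (Icc 1 Y).filter (fun n => n ≡ b [MOD q]), rz z n =
        ∑ d ∈ P'.divisors, if d ∣ n then ((ArithmeticFunction.moebius d : ℤ) : ℝ) else 0 := by
      intro n hn
      rw [hrz n (mem_filter.1 hn).2, ← TS2_sum_mu P' n hP'0, sum_filter]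
    rw [sum_congr rfl e1, sum_comm]
    apply sum_congr rfl
    intro d _
    rw [← sum_filter, filter_filter, sum_const, nsmul_eq_mul, mul_comm]
  rw [hsum, hdens, ← sum_sub_distrib]
  have hterm : ∀ d ∈ P'.divisors, |((ArithmeticFunction.moebius d : ℤ) : ℝ) *
      (((Icc 1 Y).filter (fun n => n ≡ b [MOD q] ∧ d ∣ n)).card : ℝ) -
      ((ArithmeticFunction.moebius d : ℤ) : ℝ) * (Y / ((d : ℝ) * q))| ≤
      if (X : ℝ) ^ (1 / 4 : ℝ) < d then 2 * X * (1 / (d : ℝ)) else 1 := by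
    intro d hd
    have hd0 : 0 < d := Nat.pos_of_mem_divisors hd
    have hd0' : (0 : ℝ) < d := by exact_mod_cast hd0
    have hdq : Nat.Coprime d q := hcop.coprime_dvd_left (Nat.dvd_of_mem_divisors hd)
    have hmu : |((ArithmeticFunction.moebius d : ℤ) : ℝ)| ≤ 1 := by
      exact_mod_cast ArithmeticFunction.abs_moebius_le_one
    rw [← mul_sub, abs_mul]
    have hYX : (Y : ℝ) ≤ X := by exact_mod_cast hY
    have hq1 : (1 : ℝ) ≤ q := by exact_mod_cast hq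
    split_ifs with hD
    · have g1 := TS2_count_le Y d q b hd0
      have g2 : (Y : ℝ) / ((d : ℝ) * q) ≤ Y / d := by
        apply div_le_div_of_nonneg_left (by positivity) hd0'
        nlinarith
      have g3 : (0 : ℝ) ≤ Y / ((d : ℝ) * q) := by positivity
      have g4 : (0 : ℝ) ≤ (((Icc 1 Y).filter (fun n => n ≡ b [MOD q] ∧ d ∣ n)).card : ℝ) := by
        positivity
      have g5 : |(((Icc 1 Y).filter (fun n => n ≡ b [MOD q] ∧ d ∣ n)).card : ℝ) -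
          Y / ((d : ℝ) * q)| ≤ X * (1 / (d : ℝ)) := by
        have g6 : (Y : ℝ) / d ≤ X * (1 / (d : ℝ)) := by
          rw [mul_one_div]; gcongr
        rw [abs_le]; constructor <;> linarith
      have g7 : (0 : ℝ) ≤ X * (1 / (d : ℝ)) := by positivity
      calc _ ≤ 1 * (X * (1 / (d : ℝ))) := mul_le_mul hmu g5 (abs_nonneg _) zero_le_one
        _ ≤ 2 * X * (1 / (d : ℝ)) := by linarith
    · exact (mul_le_mul hmu (TS2_count Y d q b hd0 (by omega) hdq) (abs_nonneg _)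
        zero_le_one).trans (by norm_num)
  refine (abs_sum_le_sum_abs _ _).trans ((sum_le_sum hterm).trans ?_)
  rw [sum_ite]
  have hA : ∑ d ∈ P'.divisors.filter (fun d : ℕ => (X : ℝ) ^ (1 / 4 : ℝ) < d), 2 * (X : ℝ) * (1 / (d : ℝ)) ≤
      2 * X * (C1 / (Real.log X) ^ M) := by
    rw [← mul_sum]
    gcongr
    refine (sum_le_sum_of_subset_of_nonneg ?_ (fun d _ _ => by positivity)).trans (h1 X hX)
    exact filter_subset_filter _ (Nat.divisors_subset_of_dvd (primorial_ne_zero z) hP'P)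
  have hB : ∑ d ∈ P'.divisors.filter (fun d : ℕ => ¬ (X : ℝ) ^ (1 / 4 : ℝ) < d), (1 : ℝ) ≤
      (X : ℝ) ^ (1 / 4 : ℝ) := by
    rw [sum_const, nsmul_eq_mul, mul_one]
    have h5 : (P'.divisors.filter (fun d : ℕ => ¬ (X : ℝ) ^ (1 / 4 : ℝ) < d)) ⊆
        Icc 1 ⌊(X : ℝ) ^ (1 / 4 : ℝ)⌋₊ := by
      intro d hd
      rw [mem_filter] at hd
      rw [mem_Icc]
      exact ⟨Nat.pos_of_mem_divisors hd.1, Nat.le_floor (not_lt.1 hd.2)⟩
    have h6 := card_le_card h5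
    rw [Nat.card_Icc, Nat.add_sub_cancel] at h6
    exact (by exact_mod_cast h6 : _ ≤ ((⌊(X : ℝ) ^ (1 / 4 : ℝ)⌋₊ : ℕ) : ℝ)).trans
      (Nat.floor_le (by positivity))
  have h7 := h2 X hX
  calc _ ≤ 2 * X * (C1 / (Real.log X) ^ M) + C2 * X / (Real.log X) ^ M :=
        add_le_add hA (hB.trans h7)
    _ = (C2 + 2 * C1) * X / (Real.log X) ^ M := by ring

end Pool.Agent.Lib.SW
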