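import Pool.Agent.Lib.SW.TS.TS2
import Pool.Agent.Lib.SW.FourierSW

/-!
# TS-3: exponential sums over rough numbers at rationals with small denominator

PROOF.  As `major_L` in FourierSW: `rz` is supported on `n` coprime to `q` (all prime factors of `q ≤ z` are `≤ z`); split by the
residue `b` of `n` modulo `q`, `rz_ap`, and `∑_{(b,q)=1} e(ab/q) = μ(q)` (`GT.RE.ramanujan`, see `major_L`).  Error `q C X/log^M X`.
-/

set_option autoImplicit false

open Finset Pool.Agent.Lib.GT

namespace Pool.Agent.Lib.SW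

theorem TS3_rz_zero {z n q : ℕ} (hq : 1 ≤ q) (hqz : q ≤ z) (h : ¬ Nat.Coprime n q) : rz z n = 0 := by
  unfold rz
  rw [if_neg]
  intro hc
  obtain ⟨p, hp, hpn, hpq⟩ := Nat.Prime.not_coprime_iff_dvd.1 h
  have h1 : p ≤ z := (Nat.le_of_dvd (by omega) hpq).trans hqz
  have h2 : p ∣ primorial z := (hp.dvd_primorial_iff).2 h1
  exact Nat.not_coprime_of_dvd_of_dvd hp.one_lt hpn h2 hc

theorem rz_major (B M : ℕ) : ∃ C : ℝ, 0 < C ∧ ∀ X : ℕ, 3 ≤ X → ∀ Y : ℕ, Y ≤ X → ∀ (q : ℕ) (a : ℤ),
    1 ≤ q → q ≤ zB B X → IsCoprime a (q : ℤ) →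
      ‖∑ n ∈ Icc 1 Y, ((rz (zB B X) n : ℝ) : ℂ) * e (n * ((a : ℝ) / q)) -
        ((ArithmeticFunction.moebius q : ℤ) : ℂ) / (q.totient : ℂ) * ((Vz (zB B X) : ℝ) : ℂ) * Y‖ ≤
          C * q * X / (Real.log X) ^ M := by
  obtain ⟨C1, hC1, h1⟩ := rz_ap B M
  refine ⟨C1, hC1, fun X hX Y hY q a hq hqz ha => ?_⟩
  set z := zB B X with hz
  have hX' : (3 : ℝ) ≤ X := by exact_mod_cast hX
  have hX0 : (0 : ℝ) < X := by linarith
  have hL : 0 < Real.log X := Real.log_pos (by linarith)
  have hLk : 0 < (Real.log X) ^ M := pow_pos hL M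
  have hsplit := sum_filter_add_sum_filter_not (Icc 1 Y) (fun n => Nat.Coprime n q)
    (fun n => ((rz z n : ℝ) : ℂ) * e (n * ((a : ℝ) / q)))
  have hnc : ∑ n ∈ (Icc 1 Y).filter (fun n => ¬ Nat.Coprime n q),
      ((rz z n : ℝ) : ℂ) * e (n * ((a : ℝ) / q)) = 0 := by
    refine sum_eq_zero fun n hn => ?_
    rw [mem_filter] at hn
    rw [TS3_rz_zero hq hqz hn.2]
    simp
  rw [hnc, add_zero] at hsplit
  rw [← hsplit]
  have hcop : ∑ n ∈ (Icc 1 Y).filter (fun n => Nat.Coprime n q),
      ((rz z n : ℝ) : ℂ) * e (n * ((a : ℝ) / q)) =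
      ∑ b ∈ (range q).filter (fun b => Nat.Coprime b q), e ((a : ℝ) / q * b) *
        (((∑ n ∈ (Icc 1 Y).filter (fun n => n ≡ b [MOD q]), rz z n : ℝ)) : ℂ) := by
    rw [← sum_fiberwise_of_maps_to (s := (Icc 1 Y).filter (fun n => Nat.Coprime n q))
      (t := (range q).filter (fun b => Nat.Coprime b q)) (g := fun n => n % q)]
    · refine sum_congr rfl fun b hb => ?_
      rw [mem_filter, mem_range] at hb
      rw [Complex.ofReal_sum, mul_sum]
      have hset : ((Icc 1 Y).filter (fun n => Nat.Coprime n q)).filter (fun n => n % q = b) =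
          (Icc 1 Y).filter (fun n => n ≡ b [MOD q]) := by
        rw [filter_filter]
        refine filter_congr fun n _ => ?_
        have hbq : b % q = b := Nat.mod_eq_of_lt hb.1
        constructor
        · rintro ⟨_, h5⟩
          show n % q = b % q
          rw [hbq, h5]
        · intro h5
          have h6 : n % q = b := by
            have : n % q = b % q := h5
            rw [this, hbq]
          refine ⟨?_, h6⟩
          rw [← h6] at hb
          have h7 := hb.2
          rw [Nat.coprime_iff_gcd_eq_one, ← Nat.gcd_rec, Nat.gcd_comm] at h7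
          exact h7
      rw [hset]
      refine sum_congr rfl fun n hn => ?_
      rw [mem_filter] at hn
      rw [FourierSW_e_mod a q n b hq hn.2]
      ring
    · intro n hn
      rw [mem_filter] at hn
      rw [mem_filter, mem_range]
      refine ⟨Nat.mod_lt _ hq, ?_⟩
      show Nat.Coprime (n % q) q
      have h7 := hn.2
      rw [Nat.coprime_iff_gcd_eq_one, ← Nat.gcd_rec, Nat.gcd_comm]
      exact h7
  have hram := GT.RE.ramanujan q hq a ha
  have h5 : ∑ n ∈ (Icc 1 Y).filter (fun n => Nat.Coprime n q),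
      ((rz z n : ℝ) : ℂ) * e (n * ((a : ℝ) / q)) -
      ((ArithmeticFunction.moebius q : ℤ) : ℂ) / (q.totient : ℂ) * ((Vz z : ℝ) : ℂ) * Y =
      ∑ b ∈ (range q).filter (fun b => Nat.Coprime b q), e ((a : ℝ) / q * b) *
      (((∑ n ∈ (Icc 1 Y).filter (fun n => n ≡ b [MOD q]), rz z n -
        Y * Vz z / (q.totient : ℝ) : ℝ)) : ℂ) := by
    rw [hcop, ← hram, sum_div, sum_mul, sum_mul, ← sum_sub_distrib]
    refine sum_congr rfl fun b _ => ?_
    push_cast
    ring
  rw [h5]
  refine (norm_sum_le _ _).trans ?_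
  have h6 : ∀ b ∈ (range q).filter (fun b => Nat.Coprime b q),
      ‖e ((a : ℝ) / q * b) * (((∑ n ∈ (Icc 1 Y).filter (fun n => n ≡ b [MOD q]), rz z n -
        Y * Vz z / (q.totient : ℝ) : ℝ)) : ℂ)‖ ≤ C1 * X / (Real.log X) ^ M := by
    intro b hb
    rw [mem_filter] at hb
    rw [norm_mul, norm_e, one_mul, Complex.norm_real, Real.norm_eq_abs]
    exact h1 X hX Y hY q b hq hqz hb.2
  refine (sum_le_card_nsmul _ _ _ h6).trans ?_
  rw [nsmul_eq_mul]
  have h7 : (((range q).filter (fun b => Nat.Coprime b q)).card : ℝ) ≤ q := by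
    have := card_filter_le (range q) (fun b => Nat.Coprime b q)
    rw [card_range] at this
    exact_mod_cast this
  have h8 : 0 ≤ C1 * X / (Real.log X) ^ M := by positivity
  calc (((range q).filter (fun b => Nat.Coprime b q)).card : ℝ) *
        (C1 * X / (Real.log X) ^ M) ≤ q * (C1 * X / (Real.log X) ^ M) :=
        mul_le_mul_of_nonneg_right h7 h8
    _ = C1 * q * X / (Real.log X) ^ M := by ring

end Pool.Agent.Lib.SW
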