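import Pool.Agent.Lib.SW.TS.TS6
import Pool.Agent.Lib.SW.SP1

/-!
# TS-7: few `s` collide with `σ` modulo many primes `> w`

PROOF.  `t = w` (exponent), `c_p = exp(t/(p-1)) - 1 ≤ (w/(p-1)) e ≤ 2 e w/p` for `p > w ≥ 1` (as `sp1_cp` with `lam = 1`:
`c_p / p ≤ w e /(p (p-1))`).  `exp (t YY σ s) = ∏_{p ∈ pr w z} (1 + c_p 1[s % p ∈ σ mod p])`; expand over subsets `D` of `pr w z`:
`∑_{s ≤ X} ≤ ∑_D ∏_{p ∈ D} c_p · #{s ≤ X : ∀ p ∈ D, s % p ∈ σ mod p} ≤ ∑_D ∏_{p ∈ D} (c_p k) (X/∏ p + 1)` (CRT: `≤ k^#D` residue classes modulo `∏_{p ∈ D} p`)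
`= X ∏ (1 + c_p k/p) + ∏ (1 + c_p k) ≤ X exp (e k) + exp (k e w (2 + log z) · 2)` (`∑_{p > w} w/(p(p-1)) ≤ 1`, `∑_{p ≤ z} 1/(p-1) ≤ 2 + log z`).
With `w ≤ C' log log X + 1`, `k ≤ C log log X`, `z = zB B X` the second term is `exp (O((log log X)^3)) ≤ X`.
Markov: `#{s : YY ≥ ε} ≤ e^(-w ε) · 2 X e^(e k) ≤ 2 X exp ((e C - C' ε) log log X) ≤ X/(log X)^K` if `C' ε ≥ e C + K + 1`.
-/

set_option autoImplicit false

open Finset Pool.Agent.Lib.GT

namespace Pool.Agent.Lib.SW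

theorem ts7_recip (w z : ℕ) (hw : 1 ≤ w) :
    ∑ p ∈ pr w z, 1 / ((p : ℝ) - 1) ≤ 1 + Real.log z := by
  have h1 : ∑ p ∈ pr w z, 1 / ((p : ℝ) - 1) = ∑ n ∈ (pr w z).image (fun p : ℕ => (p - 1 : ℕ)), 1 / (n : ℝ) := by
    rw [sum_image]
    · refine sum_congr rfl fun p hp => ?_
      have := (mem_pr.1 hp).1
      rw [Nat.cast_sub (by omega), Nat.cast_one]
    · intro p hp q hq h
      have h1 := (mem_pr.1 (mem_coe.1 hp)).1
      have h2 := (mem_pr.1 (mem_coe.1 hq)).1
      have h3 : p - 1 = q - 1 := h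
      omega
  rw [h1]
  have h2 : ∑ n ∈ (pr w z).image (fun p : ℕ => (p - 1 : ℕ)), 1 / (n : ℝ) ≤ ∑ n ∈ Icc 1 z, 1 / (n : ℝ) := by
    refine sum_le_sum_of_subset_of_nonneg ?_ fun p _ _ => by positivity
    intro n hn
    obtain ⟨p, hp, rfl⟩ := mem_image.1 hn
    have := mem_pr.1 hp
    rw [mem_Icc]
    omega
  refine h2.trans ?_
  have h3 := harmonic_le_one_add_log z
  have h4 : ((harmonic z : ℚ) : ℝ) = ∑ p ∈ Icc 1 z, 1 / (p : ℝ) := by
    rw [harmonic_eq_sum_Icc]
    push_cast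
    refine sum_congr rfl fun p _ => ?_
    rw [one_div]
  rw [← h4]
  exact h3

theorem ts7_moment (w z X : ℕ) (hw : 1 ≤ w) (σ : Finset ℕ) (k : ℝ) (hk : (σ.card : ℝ) ≤ k) :
    ∑ s ∈ Icc 1 X, Real.exp (w * YY w z σ s) ≤
      X * Real.exp (k * Real.exp 1) + Real.exp (k * (w * Real.exp 1 * (1 + Real.log z))) := by
  classical
  set P : Finset ℕ := pr w z with hP
  set c : ℕ → ℝ := fun p => Real.exp (1 * w / ((p : ℝ) - 1)) - 1 with hc
  set Ω : ℕ → Finset ℕ := fun p => σ.image (fun s => s % p) with hΩ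
  have hk0 : 0 ≤ k := (Nat.cast_nonneg _).trans hk
  have hw' : (1 : ℝ) ≤ w := by exact_mod_cast hw
  have hPw : ∀ p ∈ P, w < p := fun p hp => (mem_pr.1 hp).1
  have hPp : ∀ p ∈ P, p.Prime := fun p hp => (mem_pr.1 hp).2.2
  have hc0 : ∀ p ∈ P, 0 ≤ c p := fun p hp => (sp1_cp hw (hPw p hp) one_pos).1
  have hΩlt : ∀ r ∈ P, ∀ x ∈ Ω r, x < r := by
    intro r hr x hx
    obtain ⟨s, _, hs⟩ := mem_image.1 hx
    rw [← hs]
    exact Nat.mod_lt _ (hPp r hr).pos
  have hcard : ∀ r, ((Ω r).card : ℝ) ≤ k := fun r => by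
    have h1 : ((Ω r).card : ℝ) ≤ σ.card := by exact_mod_cast card_image_le
    linarith
  have hp1 : ∀ p ∈ P, 0 < (p : ℝ) - 1 := fun p hp => by
    have h1 := (hPp p hp).one_lt
    have h2 : (1 : ℝ) < p := by exact_mod_cast h1
    linarith
  have h1 : ∀ s ∈ Icc 1 X, Real.exp (w * YY w z σ s) =
      ∑ D ∈ P.powerset, (∏ p ∈ D, c p) * (if ∀ p ∈ D, s % p ∈ Ω p then 1 else 0) := by
    intro s _
    have e1 : P.filter (fun p => ∃ t ∈ σ, s % p = t % p) = P.filter (fun p => s % p ∈ Ω p) := by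
      refine filter_congr fun p _ => ?_
      rw [hΩ]
      simp only [mem_image]
      constructor
      · rintro ⟨t, ht, he⟩
        exact ⟨t, ht, he.symm⟩
      · rintro ⟨t, ht, he⟩
        exact ⟨t, ht, he.symm⟩
    have e2 : Real.exp (w * YY w z σ s) = ∏ p ∈ P, (1 + c p * (if s % p ∈ Ω p then 1 else 0)) := by
      unfold YY
      rw [← hP, e1, mul_sum, Real.exp_sum, prod_filter]
      refine prod_congr rfl fun p _ => ?_
      by_cases h3 : s % p ∈ Ω p
      · rw [if_pos h3, if_pos h3, hc]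
        simp only
        rw [mul_one, mul_one_div, one_mul]
        ring
      · rw [if_neg h3, if_neg h3, mul_zero, add_zero]
    rw [e2, prod_one_add]
    refine sum_congr rfl fun D _ => ?_
    rw [prod_mul_distrib]
    congr 1
    by_cases h3 : ∀ p ∈ D, s % p ∈ Ω p
    · rw [if_pos h3]
      exact prod_eq_one fun p hp => if_pos (h3 p hp)
    · rw [if_neg h3]
      push Not at h3
      obtain ⟨p, hp, h5⟩ := h3
      exact prod_eq_zero hp (if_neg h5)
  have h0 : Icc 1 X = Ico 1 (1 + X) := by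
    ext n
    rw [mem_Icc, mem_Ico]
    omega
  rw [sum_congr rfl h1, sum_comm]
  have h2 : ∀ D ∈ P.powerset, ∑ s ∈ Icc 1 X, (∏ p ∈ D, c p) *
      (if ∀ p ∈ D, s % p ∈ Ω p then (1 : ℝ) else 0) ≤
      X * ∏ p ∈ D, (c p * ((Ω p).card / p)) + ∏ p ∈ D, (c p * (Ω p).card) := by
    intro D hD
    have hD' := mem_powerset.1 hD
    have h3 := abs_card_sub_le D (fun r hr => hPp r (hD' hr)) Ω (fun r hr => hΩlt r (hD' hr)) 1 X
    have h4 : ∑ s ∈ Icc 1 X, (if ∀ p ∈ D, s % p ∈ Ω p then (1 : ℝ) else 0) =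
        ((((Ico 1 (1 + X)).filter (fun N => ∀ r ∈ D, N % r ∈ Ω r)).card : ℝ)) := by
      rw [h0, Finset.card_filter]
      push_cast
      rfl
    rw [← mul_sum, h4, prod_mul_distrib, prod_mul_distrib]
    have h5 : 0 ≤ ∏ p ∈ D, c p := prod_nonneg fun p hp => hc0 p (hD' hp)
    have h6 := (abs_le.1 h3).2
    have h7 : ((((Ico 1 (1 + X)).filter (fun N => ∀ r ∈ D, N % r ∈ Ω r)).card : ℝ)) ≤
        X * ∏ r ∈ D, ((Ω r).card : ℝ) / r + ∏ r ∈ D, ((Ω r).card : ℝ) := by linarith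
    calc _ ≤ (∏ p ∈ D, c p) * (X * ∏ r ∈ D, ((Ω r).card : ℝ) / r + ∏ r ∈ D, ((Ω r).card : ℝ)) :=
          mul_le_mul_of_nonneg_left h7 h5
      _ = _ := by ring
  refine (sum_le_sum h2).trans ?_
  rw [sum_add_distrib, ← mul_sum, ← prod_one_add, ← prod_one_add]
  refine add_le_add ?_ ?_
  · refine mul_le_mul_of_nonneg_left ?_ (Nat.cast_nonneg X)
    have h5 : ∏ p ∈ P, (1 + c p * ((Ω p).card / p)) ≤
        ∏ p ∈ P, Real.exp (c p * ((Ω p).card / p)) := by
      refine prod_le_prod (fun p hp => ?_) fun p _ => ?_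
      · have := hc0 p hp
        positivity
      · have := Real.add_one_le_exp (c p * ((Ω p).card / p))
        linarith
    refine h5.trans ?_
    rw [← Real.exp_sum]
    refine Real.exp_le_exp.2 ?_
    calc ∑ p ∈ P, c p * ((Ω p).card / p) ≤
          ∑ p ∈ P, k * (1 * w * Real.exp 1 * (1 / ((p : ℝ) * ((p : ℝ) - 1)))) := by
          refine sum_le_sum fun p hp => ?_
          have h6 := (sp1_cp hw (hPw p hp) one_pos).2
          have h7 : c p * ((Ω p).card / p) = (Ω p).card * (c p / p) := by ring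
          rw [h7]
          have h8 : 0 ≤ c p / p := div_nonneg (hc0 p hp) (Nat.cast_nonneg p)
          exact mul_le_mul (hcard p) h6 h8 hk0
      _ = k * (w * Real.exp 1 * ∑ p ∈ P, 1 / ((p : ℝ) * ((p : ℝ) - 1))) := by
          rw [mul_sum, mul_sum]
          refine sum_congr rfl fun p _ => by ring
      _ ≤ k * (w * Real.exp 1 * (1 / (w : ℝ))) := by
          refine mul_le_mul_of_nonneg_left ?_ hk0
          refine mul_le_mul_of_nonneg_left ?_ (by positivity)
          refine le_trans ?_ (sp1_sum w z hw)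
          refine sum_le_sum_of_subset_of_nonneg ?_ fun p hp _ => ?_
          · intro p hp
            have := mem_pr.1 hp
            rw [mem_Icc]
            omega
          · have h6 : (1 : ℝ) < p := by
              have := (mem_Icc.1 hp).1
              exact_mod_cast (by omega : 1 < p)
            have h7 : 0 < (p : ℝ) - 1 := by linarith
            positivity
      _ = k * Real.exp 1 := by
          have : (w : ℝ) ≠ 0 := by positivity
          field_simp
  · have h5 : ∏ p ∈ P, (1 + c p * ((Ω p).card : ℝ)) ≤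
        ∏ p ∈ P, Real.exp (c p * ((Ω p).card : ℝ)) := by
      refine prod_le_prod (fun p hp => ?_) fun p _ => ?_
      · have := hc0 p hp
        positivity
      · have := Real.add_one_le_exp (c p * ((Ω p).card : ℝ))
        linarith
    refine h5.trans ?_
    rw [← Real.exp_sum]
    refine Real.exp_le_exp.2 ?_
    calc ∑ p ∈ P, c p * ((Ω p).card : ℝ) ≤
          ∑ p ∈ P, k * (w * Real.exp 1 * (1 / ((p : ℝ) - 1))) := by
          refine sum_le_sum fun p hp => ?_
          have h6 := (sp1_cp hw (hPw p hp) one_pos).2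
          have hp0 : (0 : ℝ) < p := by exact_mod_cast (hPp p hp).pos
          have h7 : c p ≤ w * Real.exp 1 * (1 / ((p : ℝ) - 1)) := by
            rw [div_le_iff₀ hp0] at h6
            refine h6.trans (le_of_eq ?_)
            have := (hp1 p hp).ne'
            field_simp
          rw [mul_comm (c p)]
          exact mul_le_mul (hcard p) h7 (hc0 p hp) hk0
      _ = k * (w * Real.exp 1 * ∑ p ∈ P, 1 / ((p : ℝ) - 1)) := by
          rw [mul_sum, mul_sum]
      _ ≤ k * (w * Real.exp 1 * (1 + Real.log z)) := by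
          refine mul_le_mul_of_nonneg_left ?_ hk0
          exact mul_le_mul_of_nonneg_left (ts7_recip w z hw) (by positivity)

theorem bad_new (B C K : ℕ) (ε : ℝ) (hε : 0 < ε) : ∃ C₀ : ℕ, ∀ C' : ℕ, C₀ ≤ C' → ∃ X₀ : ℕ, ∀ X : ℕ,
    X₀ ≤ X → ∀ w : ℕ, w = ⌈C' * Real.log (Real.log X)⌉₊ →
      ∀ σ : Finset ℕ, (σ.card : ℝ) ≤ C * Real.log (Real.log X) →
        (((Icc 1 X).filter (fun s => ε ≤ YY w (zB B X) σ s)).card : ℝ) ≤ X / (Real.log X) ^ K := by
  refine ⟨⌈(3 * C + K + 1) / ε⌉₊ + 1, fun C' hC' => ?_⟩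
  obtain ⟨X₀, hX₀⟩ := ts6_ev (3 * C * (C' + 1) * (1 + B)) 3
  refine ⟨X₀ + 1, fun X hX w hw σ hσ => ?_⟩
  obtain ⟨hL1, hl1, hexp, hA⟩ := hX₀ X (by omega)
  set L : ℝ := Real.log (Real.log X) with hL
  obtain ⟨hz1, hzl⟩ := ts6_zB B X hl1
  set z := zB B X with hz
  have hL0 : 0 ≤ L := by linarith
  have hX0 : 0 < (X : ℝ) := by
    have : 0 < X := by omega
    exact_mod_cast this
  have hC'1 : (1 : ℝ) ≤ C' := by
    have h1 : 1 ≤ C' := (Nat.le_add_left _ _).trans hC'
    exact_mod_cast h1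
  have hC'2 : 3 * C + K + 1 ≤ C' * ε := by
    have h1 := Nat.le_ceil ((3 * C + K + 1 : ℝ) / ε)
    have h3 : ⌈(3 * C + K + 1 : ℝ) / ε⌉₊ ≤ C' := (Nat.le_succ _).trans hC'
    have h2 : ((⌈(3 * C + K + 1 : ℝ) / ε⌉₊ : ℕ) : ℝ) ≤ C' := Nat.cast_le.2 h3
    rw [← div_le_iff₀ hε]
    linarith
  have hwlow : C' * L ≤ w := by
    rw [hw]
    exact Nat.le_ceil _
  have hwup : (w : ℝ) ≤ (C' + 1) * L := by
    have := (Nat.ceil_lt_add_one (show 0 ≤ C' * L by positivity)).le
    rw [← hw] at this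
    linarith
  have hw1 : 1 ≤ w := by
    have h1 : (1 : ℝ) ≤ w := le_trans (by nlinarith) hwlow
    exact_mod_cast h1
  have hmom := ts7_moment w z X hw1 σ (C * L) hσ
  have he3 : Real.exp 1 ≤ 3 := by linarith [Real.exp_one_lt_d9]
  have hCL : 0 ≤ (C : ℝ) * L := by positivity
  have h1 : Real.exp (C * L * Real.exp 1) ≤ Real.exp (3 * C * L) := by
    refine Real.exp_le_exp.2 ?_
    have := mul_le_mul_of_nonneg_left he3 hCL
    linarith
  have h2 : Real.exp (C * L * (w * Real.exp 1 * (1 + Real.log z))) ≤ X := by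
    have h3 : C * L * (w * Real.exp 1 * (1 + Real.log z)) ≤ Real.log X := by
      refine le_trans ?_ hA
      have h4 : (w : ℝ) * Real.exp 1 ≤ (C' + 1) * L * 3 :=
        mul_le_mul hwup he3 (Real.exp_pos 1).le (by positivity)
      have h5 : 1 + Real.log z ≤ (1 + B) * L := by linarith
      have h6 : 0 ≤ 1 + Real.log z := by
        have := Real.log_nonneg (show (1 : ℝ) ≤ z by exact_mod_cast hz1)
        linarith
      calc C * L * (w * Real.exp 1 * (1 + Real.log z)) ≤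
            C * L * (((C' + 1) * L * 3) * ((1 + B) * L)) :=
            mul_le_mul_of_nonneg_left (mul_le_mul h4 h5 h6 (by positivity)) hCL
        _ = _ := by ring
    calc _ ≤ Real.exp (Real.log X) := Real.exp_le_exp.2 h3
      _ = X := Real.exp_log hX0
  have h3 : ∑ s ∈ Icc 1 X, Real.exp (w * YY w z σ s) ≤ 2 * X * Real.exp (3 * C * L) := by
    have h4 : X * Real.exp (C * L * Real.exp 1) ≤ X * Real.exp (3 * C * L) :=
      mul_le_mul_of_nonneg_left h1 hX0.le
    have h5 : (1 : ℝ) ≤ Real.exp (3 * C * L) := Real.one_le_exp (by positivity)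
    have h6 : (X : ℝ) * 1 ≤ X * Real.exp (3 * C * L) := mul_le_mul_of_nonneg_left h5 hX0.le
    linarith
  set Bd := (Icc 1 X).filter (fun s => ε ≤ YY w z σ s) with hBd
  have h4 : (Bd.card : ℝ) * Real.exp (w * ε) ≤ ∑ s ∈ Icc 1 X, Real.exp (w * YY w z σ s) := by
    calc (Bd.card : ℝ) * Real.exp (w * ε) = ∑ s ∈ Bd, Real.exp (w * ε) := by
          rw [sum_const, nsmul_eq_mul]
      _ ≤ ∑ s ∈ Bd, Real.exp (w * YY w z σ s) := by
          refine sum_le_sum fun s hs => ?_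
          refine Real.exp_le_exp.2 ?_
          exact mul_le_mul_of_nonneg_left (mem_filter.1 hs).2 (Nat.cast_nonneg w)
      _ ≤ _ := sum_le_sum_of_subset_of_nonneg (filter_subset _ _) fun _ _ _ => (Real.exp_pos _).le
  have h5 : (Bd.card : ℝ) * Real.exp (w * ε) ≤ 2 * X * Real.exp (3 * C * L) := h4.trans h3
  have h6 : 3 * C * L - w * ε ≤ -((K + 1) * L) := by
    have h7 : (3 * C + K + 1) * L ≤ w * ε := by
      calc (3 * C + K + 1) * L ≤ (C' * ε) * L := mul_le_mul_of_nonneg_right hC'2 hL0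
        _ = (C' * L) * ε := by ring
        _ ≤ w * ε := mul_le_mul_of_nonneg_right hwlow hε.le
    linarith
  have h7 : (Bd.card : ℝ) ≤ 2 * X * Real.exp (-((K + 1) * L)) := by
    calc (Bd.card : ℝ) = (Bd.card : ℝ) * Real.exp (w * ε) * Real.exp (-(w * ε)) := by
          rw [mul_assoc, ← Real.exp_add, add_neg_cancel, Real.exp_zero, mul_one]
      _ ≤ 2 * X * Real.exp (3 * C * L) * Real.exp (-(w * ε)) :=
          mul_le_mul_of_nonneg_right h5 (Real.exp_pos _).le
      _ = 2 * X * Real.exp (3 * C * L - w * ε) := by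
          rw [mul_assoc, ← Real.exp_add, sub_eq_add_neg]
      _ ≤ _ := mul_le_mul_of_nonneg_left (Real.exp_le_exp.2 h6) (by positivity)
  refine h7.trans ?_
  have h8 : Real.log X ^ K = Real.exp (K * L) := by
    rw [Real.exp_nat_mul, hexp]
  rw [h8, div_eq_mul_inv, ← Real.exp_neg]
  have h9 : Real.exp (-((K + 1) * L)) = Real.exp (-(K * L)) * Real.exp (-L) := by
    rw [← Real.exp_add]
    congr 1
    ring
  have h10 : 2 * Real.exp (-L) ≤ 1 := by
    rw [Real.exp_neg, ← div_eq_mul_inv, div_le_one (Real.exp_pos _)]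
    have := Real.add_one_le_exp L
    linarith
  rw [h9]
  have h11 := mul_le_mul_of_nonneg_left h10 (show 0 ≤ X * Real.exp (-(K * L)) by positivity)
  calc 2 * X * (Real.exp (-(K * L)) * Real.exp (-L)) =
        X * Real.exp (-(K * L)) * (2 * Real.exp (-L)) := by ring
    _ ≤ X * Real.exp (-(K * L)) * 1 := h11
    _ = _ := mul_one _

end Pool.Agent.Lib.SW
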