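import Pool.Agent.Lib.SW.TS.TS6
import Pool.Agent.Lib.SW.TS.TS7

/-!
# TS-8: high moments

PROOFS.  `RR_insert`: prime by prime.  If `s % p` is a new class: `1 - (ν+1)/p ≤ (1 - ν/p)(1 - 1/p)` (`0 ≤ ν`).  If not:
`1 ≤ (1 - 1/p) exp(1/(p-1))`.  All factors `1 - ν/p` are `≥ 0` (`ν ≤ p`).
`sum_exp_YY`: `exp (YY) ≤ e^ε` outside the bad set, and `YY ≤ ∑_{n ≤ z} 2/n ≤ 2 (1 + log z) ≤ 2 + 2 B log log X` always, so
`∑_{s ∈ S} exp (YY) ≤ e^ε #S + #bad · e^2 (log X)^(2B) ≤ e^(2ε) #S` when `#bad ≤ X (log X)^(-K-2B-1)` and `#S ≥ X/(log X)^K`.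
`Psi`: `∑_{N ∈ Icc 1 X, Rough σ N} FF(N)^j`; `Psi (j+1) σ = ∑_{s ∈ S} Psi j (insert s σ)` (`rough_insert`).  Induction on `j` (for all `σ`):
`Psi 0 σ` is `sieve_count`; the step is `RR_insert` and `sum_exp_YY`.
-/

set_option autoImplicit false

open Finset Pool.Agent.Lib.GT

namespace Pool.Agent.Lib.SW

theorem TS8_nu_le (σ : Finset ℕ) {p : ℕ} (hp : 0 < p) : nu σ p ≤ p := by
  unfold nu
  have h : σ.image (fun s => s % p) ⊆ range p := by
    intro x hx
    obtain ⟨s, _, rfl⟩ := mem_image.1 hx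
    exact mem_range.2 (Nat.mod_lt _ hp)
  have h2 := card_le_card h
  rwa [card_range] at h2

theorem TS8_factor (σ : Finset ℕ) {p : ℕ} (hp : 0 < p) : 0 ≤ 1 - (nu σ p : ℝ) / p := by
  have h : (nu σ p : ℝ) ≤ p := by exact_mod_cast TS8_nu_le σ hp
  have hp' : (0 : ℝ) < p := by exact_mod_cast hp
  rw [sub_nonneg, div_le_one hp']
  exact h

theorem RR_nonneg (w z : ℕ) (σ : Finset ℕ) : 0 ≤ RR w z σ := by
  unfold RR
  exact Finset.prod_nonneg fun p hp => TS8_factor σ (mem_pr.1 hp).2.2.pos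

theorem RR_insert (w z : ℕ) (hw : 1 ≤ w) (σ : Finset ℕ) (s : ℕ) :
    RR w z (insert s σ) ≤ RR w z σ * (Vw w z * Real.exp (YY w z σ s)) := by
  have h1 : Real.exp (YY w z σ s) = ∏ p ∈ pr w z,
      (if (∃ t ∈ σ, s % p = t % p) then Real.exp (1 / ((p : ℝ) - 1)) else 1) := by
    unfold YY
    rw [Real.exp_sum, Finset.prod_filter]
  unfold RR Vw
  rw [h1, ← Finset.prod_mul_distrib, ← Finset.prod_mul_distrib]
  refine Finset.prod_le_prod (fun p hp => TS8_factor _ (mem_pr.1 hp).2.2.pos) (fun p hp => ?_)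
  obtain ⟨_, _, hpp⟩ := mem_pr.1 hp
  have hp2 : (2 : ℝ) ≤ p := by exact_mod_cast hpp.two_le
  have hp0 : (0 : ℝ) < p := by linarith
  have hν := TS8_factor σ hpp.pos
  by_cases hc : ∃ t ∈ σ, s % p = t % p
  · rw [if_pos hc]
    have h2 : nu (insert s σ) p = nu σ p := by
      unfold nu
      rw [image_insert, insert_eq_of_mem]
      obtain ⟨t, ht, hst⟩ := hc
      exact mem_image.2 ⟨t, ht, hst.symm⟩
    rw [h2]
    have h3 : 1 ≤ (1 - 1 / (p : ℝ)) * Real.exp (1 / ((p : ℝ) - 1)) := by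
      have h4 := Real.add_one_le_exp (1 / ((p : ℝ) - 1))
      have h5 : 0 ≤ 1 - 1 / (p : ℝ) := by
        rw [sub_nonneg, div_le_one hp0]
        linarith
      have h6 : (1 - 1 / (p : ℝ)) * (1 / ((p : ℝ) - 1) + 1) = 1 := by
        have h7 : (p : ℝ) - 1 ≠ 0 := by linarith
        field_simp
        ring
      calc (1 : ℝ) = (1 - 1 / (p : ℝ)) * (1 / ((p : ℝ) - 1) + 1) := h6.symm
        _ ≤ _ := mul_le_mul_of_nonneg_left h4 h5
    calc 1 - (nu σ p : ℝ) / p = (1 - (nu σ p : ℝ) / p) * 1 := (mul_one _).symm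
      _ ≤ _ := mul_le_mul_of_nonneg_left h3 hν
  · rw [if_neg hc, mul_one]
    have h2 : nu (insert s σ) p = nu σ p + 1 := by
      unfold nu
      rw [image_insert, card_insert_of_notMem]
      intro h
      obtain ⟨t, ht, hst⟩ := mem_image.1 h
      exact hc ⟨t, ht, hst.symm⟩
    rw [h2]
    push_cast
    have h3 : (1 - (nu σ p : ℝ) / p) * (1 - 1 / (p : ℝ)) =
        1 - ((nu σ p : ℝ) + 1) / p + (nu σ p : ℝ) / p / p := by
      field_simp
      ring
    rw [h3]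
    have h4 : 0 ≤ (nu σ p : ℝ) / p / p := by positivity
    linarith

theorem TS8_YY_le (w z : ℕ) (σ : Finset ℕ) (s : ℕ) : YY w z σ s ≤ 2 * (1 + Real.log z) := by
  have h1 : YY w z σ s ≤ ∑ p ∈ Icc 1 z, 2 * ((p : ℝ)⁻¹) := by
    unfold YY
    calc ∑ p ∈ (pr w z).filter (fun p => ∃ t ∈ σ, s % p = t % p), 1 / ((p : ℝ) - 1) ≤
        ∑ p ∈ (pr w z).filter (fun p => ∃ t ∈ σ, s % p = t % p), 2 * ((p : ℝ)⁻¹) := by
          refine Finset.sum_le_sum fun p hp => ?_
          obtain ⟨_, _, hpp⟩ := mem_pr.1 (mem_filter.1 hp).1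
          have hp2 : (2 : ℝ) ≤ p := by exact_mod_cast hpp.two_le
          rw [← div_eq_mul_inv, div_le_div_iff₀ (by linarith) (by linarith)]
          linarith
      _ ≤ _ := by
          refine Finset.sum_le_sum_of_subset_of_nonneg ?_ (fun _ _ _ => by positivity)
          intro p hp
          obtain ⟨_, h3, hpp⟩ := mem_pr.1 (mem_filter.1 hp).1
          exact mem_Icc.2 ⟨hpp.one_le, h3⟩
  have h2 := harmonic_le_one_add_log z
  rw [harmonic_eq_sum_Icc] at h2
  push_cast at h2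
  rw [← Finset.mul_sum] at h1
  linarith

theorem sum_exp_YY (B C K : ℕ) (ε : ℝ) (hε : 0 < ε) : ∃ C₀ : ℕ, ∀ C' : ℕ, C₀ ≤ C' → ∃ X₀ : ℕ,
    ∀ X : ℕ, X₀ ≤ X → ∀ w : ℕ, w = ⌈C' * Real.log (Real.log X)⌉₊ →
      ∀ σ : Finset ℕ, (σ.card : ℝ) ≤ C * Real.log (Real.log X) →
        ∀ S : Finset ℕ, S ⊆ Icc 1 X → X / (Real.log X) ^ K ≤ (S.card : ℝ) →
          ∑ s ∈ S, Real.exp (YY w (zB B X) σ s) ≤ Real.exp (2 * ε) * S.card := by
  obtain ⟨C₀, hC₀⟩ := bad_new B C (K + 2 * B + 1) ε hε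
  refine ⟨C₀, fun C' hC' => ?_⟩
  obtain ⟨X₁, hX₁⟩ := hC₀ C' hC'
  obtain ⟨g, hg⟩ : ∃ g : ℝ, g = Real.exp (2 * ε) - Real.exp ε := ⟨_, rfl⟩
  have hg0 : 0 < g := by
    rw [hg, sub_pos]
    exact Real.exp_lt_exp.2 (by linarith)
  obtain ⟨X₂, hX₂⟩ := Filter.eventually_atTop.1
    (eventually_log_ge (max (Real.exp 1) (Real.exp 2 / g)))
  refine ⟨max X₁ X₂, fun X hX w hw σ hσ S hS hcard => ?_⟩
  have hb := hX₁ X ((le_max_left _ _).trans hX) w hw σ hσ
  have hLL := hX₂ X ((le_max_right _ _).trans hX)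
  obtain ⟨L, hL⟩ : ∃ L : ℝ, L = Real.log X := ⟨_, rfl⟩
  rw [← hL] at hb hLL hcard
  have hL1 : Real.exp 1 ≤ L := (le_max_left _ _).trans hLL
  have hL2 : Real.exp 2 / g ≤ L := (le_max_right _ _).trans hLL
  have hL0 : 0 < L := (Real.exp_pos 1).trans_le hL1
  have hlL : 1 ≤ Real.log L := (Real.le_log_iff_exp_le hL0).2 hL1
  have hz : Real.log (zB B X) ≤ B * Real.log L := by
    have h1 : ((zB B X : ℕ) : ℝ) ≤ L ^ B := by
      unfold zB
      rw [← hL]
      exact Nat.floor_le (by positivity)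
    rcases Nat.eq_zero_or_pos (zB B X) with h0 | h0
    · rw [h0, Nat.cast_zero, Real.log_zero]
      positivity
    · have h2 : (0 : ℝ) < (zB B X : ℕ) := by exact_mod_cast h0
      have h3 := Real.log_le_log h2 h1
      rwa [Real.log_pow] at h3
  have hY : ∀ s, Real.exp (YY w (zB B X) σ s) ≤ Real.exp 2 * L ^ (2 * B) := by
    intro s
    have h1 := TS8_YY_le w (zB B X) σ s
    have h2 : YY w (zB B X) σ s ≤ 2 + ((2 * B : ℕ) : ℝ) * Real.log L := by
      push_cast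
      linarith
    refine (Real.exp_le_exp.2 h2).trans (le_of_eq ?_)
    rw [Real.exp_add, Real.exp_nat_mul, Real.exp_log hL0]
  obtain ⟨bad, hbad⟩ : ∃ bad : Finset ℕ, bad = S.filter (fun s => ε ≤ YY w (zB B X) σ s) := ⟨_, rfl⟩
  have hbc : (bad.card : ℝ) ≤ X / L ^ (K + 2 * B + 1) := by
    refine le_trans ?_ hb
    have h1 : bad ⊆ (Icc 1 X).filter (fun s => ε ≤ YY w (zB B X) σ s) := by
      rw [hbad]
      exact filter_subset_filter _ hS
    exact_mod_cast card_le_card h1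
  have hs1 : ∑ s ∈ S.filter (fun s => ε ≤ YY w (zB B X) σ s), Real.exp (YY w (zB B X) σ s) ≤
      g * S.card := by
    rw [← hbad]
    have h1 : ∑ s ∈ bad, Real.exp (YY w (zB B X) σ s) ≤ bad.card * (Real.exp 2 * L ^ (2 * B)) := by
      have h2 := Finset.sum_le_card_nsmul bad (fun s => Real.exp (YY w (zB B X) σ s))
        (Real.exp 2 * L ^ (2 * B)) (fun s _ => hY s)
      rwa [nsmul_eq_mul] at h2
    have h3 : (bad.card : ℝ) * (Real.exp 2 * L ^ (2 * B)) ≤
        X / L ^ (K + 2 * B + 1) * (Real.exp 2 * L ^ (2 * B)) :=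
      mul_le_mul_of_nonneg_right hbc (by positivity)
    have h4 : X / L ^ (K + 2 * B + 1) * (Real.exp 2 * L ^ (2 * B)) =
        Real.exp 2 / L * (X / L ^ K) := by
      have h5 : L ^ (K + 2 * B + 1) = L ^ K * L ^ (2 * B) * L := by ring
      rw [h5]
      field_simp
    have h6 : Real.exp 2 / L ≤ g := by
      rw [div_le_iff₀ hg0] at hL2
      rw [div_le_iff₀ hL0]
      linarith
    have h7 : Real.exp 2 / L * (X / L ^ K) ≤ g * S.card :=
      mul_le_mul h6 hcard (by positivity) hg0.le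
    linarith
  have hs2 : ∑ s ∈ S.filter (fun s => ¬ ε ≤ YY w (zB B X) σ s), Real.exp (YY w (zB B X) σ s) ≤
      Real.exp ε * S.card := by
    have h1 : ∑ s ∈ S.filter (fun s => ¬ ε ≤ YY w (zB B X) σ s), Real.exp (YY w (zB B X) σ s) ≤
        ((S.filter (fun s => ¬ ε ≤ YY w (zB B X) σ s)).card : ℝ) * Real.exp ε := by
      have h2 := Finset.sum_le_card_nsmul (S.filter (fun s => ¬ ε ≤ YY w (zB B X) σ s))
        (fun s => Real.exp (YY w (zB B X) σ s)) (Real.exp ε) (fun s hs => by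
          have h3 := (mem_filter.1 hs).2
          push Not at h3
          exact Real.exp_le_exp.2 h3.le)
      rwa [nsmul_eq_mul] at h2
    have h4 : ((S.filter (fun s => ¬ ε ≤ YY w (zB B X) σ s)).card : ℝ) ≤ S.card := by
      exact_mod_cast card_le_card (filter_subset _ _)
    have h5 := mul_le_mul_of_nonneg_right h4 (Real.exp_pos ε).le
    linarith
  rw [← Finset.sum_filter_add_sum_filter_not S (fun s => ε ≤ YY w (zB B X) σ s)]
  have h8 : Real.exp (2 * ε) * S.card = g * S.card + Real.exp ε * S.card := by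
    rw [hg]
    ring
  rw [h8]
  exact add_le_add hs1 hs2

open Classical in
theorem TS8_FF (w z : ℕ) (S : Finset ℕ) (N : ℕ) :
    (FF w z S N : ℝ) = ∑ s ∈ S, (if Rough w z {s} N then (1 : ℝ) else 0) := by
  unfold FF
  rw [Finset.card_filter]
  push_cast
  rfl

open Classical in
theorem TS8_step (w z X : ℕ) (S σ : Finset ℕ) (j : ℕ) :
    ∑ N ∈ (Icc 1 X).filter (fun N => Rough w z σ N), (FF w z S N : ℝ) ^ (j + 1) =
      ∑ s ∈ S, ∑ N ∈ (Icc 1 X).filter (fun N => Rough w z (insert s σ) N),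
        (FF w z S N : ℝ) ^ j := by
  have h1 : ∀ N, (FF w z S N : ℝ) ^ (j + 1) =
      ∑ s ∈ S, (if Rough w z {s} N then (FF w z S N : ℝ) ^ j else 0) := by
    intro N
    have h2 : (FF w z S N : ℝ) ^ (j + 1) = (FF w z S N : ℝ) ^ j * (FF w z S N : ℝ) := pow_succ _ _
    have h3 : (FF w z S N : ℝ) ^ j * (FF w z S N : ℝ) =
        (FF w z S N : ℝ) ^ j * ∑ s ∈ S, (if Rough w z {s} N then (1 : ℝ) else 0) := by
      rw [← TS8_FF]
    rw [h2, h3, Finset.mul_sum]
    refine Finset.sum_congr rfl fun s _ => ?_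
    rw [mul_ite, mul_one, mul_zero]
  rw [Finset.sum_congr rfl (fun N _ => h1 N), Finset.sum_comm]
  refine Finset.sum_congr rfl fun s _ => ?_
  rw [← Finset.sum_filter, Finset.filter_filter]
  refine Finset.sum_congr ?_ (fun _ _ => rfl)
  ext N
  rw [mem_filter, mem_filter, rough_insert]
  constructor
  · rintro ⟨h, h2, h3⟩
    exact ⟨h, h3, h2⟩
  · rintro ⟨h, h2, h3⟩
    exact ⟨h, h3, h2⟩

open Classical in
theorem moment (B C K : ℕ) (ε : ℝ) (hε : 0 < ε) : ∃ C₀ : ℕ, ∀ C' : ℕ, C₀ ≤ C' → ∃ X₀ : ℕ,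
    ∀ X : ℕ, X₀ ≤ X → ∀ w : ℕ, w = ⌈C' * Real.log (Real.log X)⌉₊ →
      ∀ S : Finset ℕ, S ⊆ Icc 1 X → X / (Real.log X) ^ K ≤ (S.card : ℝ) →
        ∀ k : ℕ, (k : ℝ) ≤ C * Real.log (Real.log X) →
          ∑ N ∈ Icc 1 X, (FF w (zB B X) S N : ℝ) ^ k ≤
            8 * X * (Vw w (zB B X) * S.card * Real.exp (2 * ε)) ^ k := by
  obtain ⟨C₀, hC₀⟩ := sum_exp_YY B C K ε hε
  obtain ⟨X₁, hX₁⟩ := sieve_count B C
  refine ⟨max C₀ (2 * C + 1), fun C' hC' => ?_⟩
  obtain ⟨X₂, hX₂⟩ := hC₀ C' ((le_max_left _ _).trans hC')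
  obtain ⟨X₃, hX₃⟩ := Filter.eventually_atTop.1 (eventually_log_ge (Real.exp 1))
  refine ⟨max X₁ (max X₂ X₃), fun X hX w hw S hS hcard k hk => ?_⟩
  have hXX₁ : X₁ ≤ X := (le_max_left _ _).trans hX
  have hXX₂ : X₂ ≤ X := (le_max_left _ _).trans ((le_max_right _ _).trans hX)
  have hXX₃ : X₃ ≤ X := (le_max_right _ _).trans ((le_max_right _ _).trans hX)
  have hL1 := hX₃ X hXX₃
  have hL0 : 0 < Real.log X := (Real.exp_pos 1).trans_le hL1
  have hLL : 1 ≤ Real.log (Real.log X) := (Real.le_log_iff_exp_le hL0).2 hL1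
  have hC'r : 2 * (C : ℝ) + 1 ≤ C' := by exact_mod_cast (le_max_right _ _).trans hC'
  have hwr : (C' : ℝ) * Real.log (Real.log X) ≤ w := by
    rw [hw]
    exact Nat.le_ceil _
  have hC'L : (2 * (C : ℝ) + 1) * Real.log (Real.log X) ≤ C' * Real.log (Real.log X) :=
    mul_le_mul_of_nonneg_right hC'r (by linarith)
  have hCL : 0 ≤ (C : ℝ) * Real.log (Real.log X) := by positivity
  have h2k : 2 * k ≤ w := by
    have h1 : (2 : ℝ) * k ≤ w := by linarith
    exact_mod_cast h1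
  have hw1 : 1 ≤ w := by
    have h1 : (1 : ℝ) ≤ w := by linarith
    exact_mod_cast h1
  obtain ⟨z, hz⟩ : ∃ z : ℕ, z = zB B X := ⟨_, rfl⟩
  obtain ⟨M, hM⟩ : ∃ M : ℝ, M = Vw w z * S.card * Real.exp (2 * ε) := ⟨_, rfl⟩
  rw [← hz, ← hM]
  have hV0 : 0 ≤ Vw w z := by
    unfold Vw
    refine Finset.prod_nonneg fun p hp => ?_
    obtain ⟨_, _, hpp⟩ := mem_pr.1 hp
    have hp2 : (2 : ℝ) ≤ p := by exact_mod_cast hpp.two_le
    rw [sub_nonneg, div_le_one (by linarith)]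
    linarith
  have hM0 : 0 ≤ M := by
    rw [hM]
    positivity
  have key : ∀ (j : ℕ) (σ : Finset ℕ), j + σ.card ≤ k →
      ∑ N ∈ (Icc 1 X).filter (fun N => Rough w z σ N), (FF w z S N : ℝ) ^ j ≤
        8 * X * RR w z σ * M ^ j := by
    intro j
    induction j with
    | zero =>
      intro σ hσ
      have h1 := hX₁ X hXX₁ w k h2k hk σ (by omega)
      rw [← hz] at h1
      simp only [pow_zero, Finset.sum_const, nsmul_eq_mul, mul_one]
      exact h1
    | succ j ih =>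
      intro σ hσ
      rw [TS8_step]
      have h1 : ∀ s ∈ S, ∑ N ∈ (Icc 1 X).filter (fun N => Rough w z (insert s σ) N),
          (FF w z S N : ℝ) ^ j ≤
          8 * X * (RR w z σ * Vw w z) * M ^ j * Real.exp (YY w z σ s) := by
        intro s _
        have h2 := ih (insert s σ) (by
          have := Finset.card_insert_le s σ
          omega)
        have h3 := RR_insert w z hw1 σ s
        have h4 : 8 * (X : ℝ) * RR w z (insert s σ) * M ^ j ≤
            8 * X * (RR w z σ * (Vw w z * Real.exp (YY w z σ s))) * M ^ j := by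
          apply mul_le_mul_of_nonneg_right _ (by positivity)
          exact mul_le_mul_of_nonneg_left h3 (by positivity)
        calc _ ≤ _ := h2
          _ ≤ _ := h4
          _ = _ := by ring
      have hσk : (σ.card : ℝ) ≤ C * Real.log (Real.log X) := by
        have h2 : (σ.card : ℝ) ≤ k := by
          have : σ.card ≤ k := by omega
          exact_mod_cast this
        linarith
      have h5 := hX₂ X hXX₂ w hw σ hσk S hS hcard
      rw [← hz] at h5
      have h6 : 0 ≤ 8 * (X : ℝ) * (RR w z σ * Vw w z) * M ^ j := by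
        have := RR_nonneg w z σ
        positivity
      calc _ ≤ ∑ s ∈ S, 8 * X * (RR w z σ * Vw w z) * M ^ j * Real.exp (YY w z σ s) :=
            Finset.sum_le_sum h1
        _ = 8 * X * (RR w z σ * Vw w z) * M ^ j * ∑ s ∈ S, Real.exp (YY w z σ s) := by
            rw [Finset.mul_sum]
        _ ≤ 8 * X * (RR w z σ * Vw w z) * M ^ j * (Real.exp (2 * ε) * S.card) :=
            mul_le_mul_of_nonneg_left h5 h6
        _ = 8 * X * RR w z σ * M ^ (j + 1) := by
            rw [pow_succ, hM]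
            ring
  have h1 := key k ∅ (by simp)
  have h2 : (Icc 1 X).filter (fun N => Rough w z ∅ N) = Icc 1 X := by
    refine Finset.filter_true_of_mem fun N _ => ?_
    intro s hs
    exact absurd hs (Finset.notMem_empty s)
  have h3 : RR w z ∅ = 1 := by
    unfold RR nu
    simp
  rw [h2, h3, mul_one] at h1
  exact h1

end Pool.Agent.Lib.SW
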